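import Pool.Agent.Helper455.KZ.Heis

set_option autoImplicit false

open scoped InnerProductSpace
open Filter Topology

namespace Pool.Agent.Helper455.KZ

variable {H : Type*} [NormedAddCommGroup H] [InnerProductSpace ℂ H]

theorem Proj.smul {P : H → H} (h : Proj P) (c : ℂ) (x : H) : P (c • x) = c • P x := by
  refine ext_inner_right ℂ fun y => ?_
  rw [h.sym, inner_smul_left, inner_smul_left, h.sym]

section fam

variable {ι : Type*} [Fintype ι] (Q : ι → H → H)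

/-- sum of the projections -/
def DD (v : H) : H := ∑ i, Q i v

/-- energy -/
noncomputable def EE (v : H) : ℝ := ∑ i, ‖Q i v‖ ^ 2

theorem EE_nonneg (v : H) : 0 ≤ EE Q v := Finset.sum_nonneg fun _ _ => sq_nonneg _

theorem Q_le_EE (i : ι) (v : H) : ‖Q i v‖ ^ 2 ≤ EE Q v :=
  Finset.single_le_sum (f := fun i => ‖Q i v‖ ^ 2) (fun _ _ => sq_nonneg _) (Finset.mem_univ i)

theorem EE_le (hQ : ∀ i, Proj (Q i)) (v : H) : EE Q v ≤ (Fintype.card ι : ℝ) * ‖v‖ ^ 2 := by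
  have : EE Q v ≤ ∑ _i : ι, ‖v‖ ^ 2 := by
    refine Finset.sum_le_sum fun i _ => ?_
    exact pow_le_pow_left₀ (norm_nonneg _) ((hQ i).norm_le v) 2
  rw [Finset.sum_const, Finset.card_univ, nsmul_eq_mul] at this
  exact this

theorem DD_sq_le (v : H) : ‖DD Q v‖ ^ 2 ≤ (Fintype.card ι : ℝ) * EE Q v := by
  have h1 : ‖DD Q v‖ ≤ ∑ i, ‖Q i v‖ := norm_sum_le _ _
  have h2 : ‖DD Q v‖ ^ 2 ≤ (∑ i, ‖Q i v‖) ^ 2 := pow_le_pow_left₀ (norm_nonneg _) h1 2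
  have h3 := @sq_sum_le_card_mul_sum_sq ι ℝ _ _ _ _ Finset.univ (fun i => ‖Q i v‖)
  rw [Finset.card_univ] at h3
  exact h2.trans h3

theorem sum_re (v : H) : ∑ i, (⟪Q i v, DD Q v⟫_ℂ).re = ‖DD Q v‖ ^ 2 := by
  have : (⟪DD Q v, DD Q v⟫_ℂ).re = ‖DD Q v‖ ^ 2 := by
    rw [inner_self_eq_norm_sq_to_K]; norm_cast
  rw [← this]
  conv_rhs => rw [DD, sum_inner, Complex.re_sum]
  rfl

theorem EE_next (hQ : ∀ i, Proj (Q i)) (hn : 0 < Fintype.card ι) (v : H) :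
    EE Q (v - ((Fintype.card ι : ℂ)⁻¹) • DD Q v) ≤
      EE Q v - (Fintype.card ι : ℝ)⁻¹ * ‖DD Q v‖ ^ 2 := by
  set n : ℝ := (Fintype.card ι : ℝ) with hnd
  have hn0 : 0 < n := by rw [hnd]; exact_mod_cast hn
  set D := DD Q v with hD
  have hc : ((Fintype.card ι : ℂ)⁻¹) = ((n⁻¹ : ℝ) : ℂ) := by rw [hnd]; push_cast; rfl
  have hterm : ∀ i, ‖Q i (v - ((Fintype.card ι : ℂ)⁻¹) • D)‖ ^ 2 =
      ‖Q i v‖ ^ 2 - 2 * (n⁻¹ * (⟪Q i v, D⟫_ℂ).re) + n⁻¹ ^ 2 * ‖Q i D‖ ^ 2 := by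
    intro i
    rw [(hQ i).sub, (hQ i).smul, hc, @norm_sub_sq ℂ H]
    have e1 : ⟪Q i v, ((n⁻¹ : ℝ) : ℂ) • Q i D⟫_ℂ = ((n⁻¹ : ℝ) : ℂ) * ⟪Q i v, D⟫_ℂ := by
      rw [inner_smul_right, ← (hQ i).sym, (hQ i).idem]
    have e2 : RCLike.re (⟪Q i v, ((n⁻¹ : ℝ) : ℂ) • Q i D⟫_ℂ) = n⁻¹ * (⟪Q i v, D⟫_ℂ).re := by
      rw [e1]
      exact Complex.re_ofReal_mul _ _
    rw [e2, norm_smul, mul_pow]
    have e3 : ‖((n⁻¹ : ℝ) : ℂ)‖ = n⁻¹ := by
      rw [Complex.norm_real, Real.norm_eq_abs, abs_of_pos (inv_pos.mpr hn0)]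
    rw [e3]
  have hsum : EE Q (v - ((Fintype.card ι : ℂ)⁻¹) • D) =
      EE Q v - 2 * (n⁻¹ * ‖D‖ ^ 2) + n⁻¹ ^ 2 * EE Q D := by
    unfold EE
    rw [Finset.sum_congr rfl (fun i _ => hterm i), Finset.sum_add_distrib, Finset.sum_sub_distrib,
      ← Finset.mul_sum, ← Finset.mul_sum, ← Finset.mul_sum, hD, sum_re]
  have h1 := EE_le Q hQ D
  rw [← hnd] at h1
  rw [hsum]
  have h2 : n⁻¹ ^ 2 * EE Q D ≤ n⁻¹ ^ 2 * (n * ‖D‖ ^ 2) :=
    mul_le_mul_of_nonneg_left h1 (by positivity)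
  have h3 : n⁻¹ ^ 2 * (n * ‖D‖ ^ 2) = n⁻¹ * ‖D‖ ^ 2 := by
    field_simp
  linarith

theorem DD_lower (ε : ℝ)
    (pair : ∀ i j, i ≠ j → ∀ v, 0 ≤ 2 * (⟪Q i v, Q j v⟫_ℂ).re + ε * (‖Q i v‖ ^ 2 + ‖Q j v‖ ^ 2))
    (v : H) : (1 - ((Fintype.card ι : ℝ) - 1) * ε) * EE Q v ≤ ‖DD Q v‖ ^ 2 := by
  classical
  rw [← sum_re]
  have h1 : ∀ i, (⟪Q i v, DD Q v⟫_ℂ).re = ∑ j, (⟪Q i v, Q j v⟫_ℂ).re := by
    intro i; rw [DD, inner_sum, Complex.re_sum]
  simp only [h1]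
  have h2 : ∀ i j, (if i = j then (1 + ε) * ‖Q i v‖ ^ 2 else 0) -
      ε / 2 * (‖Q i v‖ ^ 2 + ‖Q j v‖ ^ 2) ≤ (⟪Q i v, Q j v⟫_ℂ).re := by
    intro i j
    by_cases h : i = j
    · subst h
      rw [if_pos rfl]
      have : (⟪Q i v, Q i v⟫_ℂ).re = ‖Q i v‖ ^ 2 := by
        rw [inner_self_eq_norm_sq_to_K]; norm_cast
      rw [this]
      linarith
    · rw [if_neg h]
      have := pair i j h v
      linarith
  have h3 : ∑ i, ∑ j, ((if i = j then (1 + ε) * ‖Q i v‖ ^ 2 else 0) -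
      ε / 2 * (‖Q i v‖ ^ 2 + ‖Q j v‖ ^ 2)) ≤ ∑ i, ∑ j, (⟪Q i v, Q j v⟫_ℂ).re :=
    Finset.sum_le_sum fun i _ => Finset.sum_le_sum fun j _ => h2 i j
  refine le_trans (le_of_eq ?_) h3
  simp only [Finset.sum_sub_distrib, Finset.sum_ite_eq, Finset.mem_univ, if_true,
    ← Finset.mul_sum, Finset.sum_add_distrib, Finset.sum_const, Finset.card_univ, nsmul_eq_mul]
  unfold EE
  ring

end fam

/-- the threshold -/
noncomputable def thr (n : ℝ) (c : ℝ) : ℝ := (1 - √(1 - c / n)) / (2 * n)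

theorem thr_pos (n c : ℝ) (hn : 1 ≤ n) (hc : 0 < c) : 0 < thr n c := by
  unfold thr
  have : √(1 - c / n) < 1 := by
    rw [Real.sqrt_lt' one_pos]
    have : 0 < c / n := by positivity
    linarith
  have h2 : 0 < 1 - √(1 - c / n) := by linarith
  positivity

theorem exists_invariant [CompleteSpace H] {ι : Type*} [Fintype ι] (hι : 0 < Fintype.card ι)
    (Q : ι → H → H) (hQ : ∀ i, Proj (Q i)) (c : ℝ) (hc : 0 < c) (hc1 : c ≤ 1)
    (hDE : ∀ v, c * EE Q v ≤ ‖DD Q v‖ ^ 2)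
    (v : H) (hv : ‖v‖ = 1) (hv' : ∀ i, ‖Q i v‖ ≤ thr (Fintype.card ι : ℝ) c) :
    ∃ w : H, w ≠ 0 ∧ ∀ i, Q i w = 0 := by
  set n : ℝ := (Fintype.card ι : ℝ) with hnd
  have hn1 : 1 ≤ n := by
    rw [hnd]; exact_mod_cast hι
  have hn0 : 0 < n := by linarith
  set ρ : ℝ := 1 - c / n with hρ
  have hcn : c / n ≤ 1 := by
    rw [div_le_one hn0]; linarith
  have hcn0 : 0 < c / n := by positivity
  have hρ0 : 0 ≤ ρ := by rw [hρ]; linarith
  have hρ1 : ρ < 1 := by rw [hρ]; linarith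
  set r : ℝ := √ρ with hr
  have hr0 : 0 ≤ r := Real.sqrt_nonneg _
  have hr1 : r < 1 := by
    rw [hr, Real.sqrt_lt' one_pos]; linarith
  have hrr : r ^ 2 = ρ := Real.sq_sqrt hρ0
  let nx : H → H := fun v => v - ((Fintype.card ι : ℂ)⁻¹) • DD Q v
  have hE : ∀ v, EE Q (nx v) ≤ ρ * EE Q v := by
    intro v
    have h1 := EE_next Q hQ hι v
    have h2 := hDE v
    have h3 : n⁻¹ * (c * EE Q v) ≤ n⁻¹ * ‖DD Q v‖ ^ 2 :=
      mul_le_mul_of_nonneg_left h2 (by positivity)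
    have h4 : ρ * EE Q v = EE Q v - n⁻¹ * (c * EE Q v) := by
      rw [hρ]; field_simp
    rw [h4]
    show EE Q (v - _) ≤ _
    rw [← hnd] at h1
    linarith
  let s : ℕ → H := fun k => nx^[k] v
  have hs0 : s 0 = v := rfl
  have hsk : ∀ k, s (k + 1) = nx (s k) := fun k => Function.iterate_succ_apply' nx k v
  have hEk : ∀ k, EE Q (s k) ≤ ρ ^ k * EE Q v := by
    intro k
    induction k with
    | zero => simp [hs0]
    | succ k ih =>
      rw [hsk]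
      refine (hE _).trans ?_
      rw [pow_succ]
      have := mul_le_mul_of_nonneg_left ih hρ0
      linarith
  set e0 : ℝ := √(EE Q v) with he0
  have he0n : 0 ≤ e0 := Real.sqrt_nonneg _
  have he0s : e0 ^ 2 = EE Q v := Real.sq_sqrt (EE_nonneg Q v)
  have hsqE : ∀ k, EE Q (s k) ≤ (e0 * r ^ k) ^ 2 := by
    intro k
    have : (e0 * r ^ k) ^ 2 = ρ ^ k * EE Q v := by
      rw [mul_pow, he0s, ← hrr]; ring
    rw [this]; exact hEk k
  have hdist : ∀ k, dist (s k) (s (k + 1)) ≤ e0 * r ^ k := by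
    intro k
    rw [hsk, dist_eq_norm]
    have e : s k - nx (s k) = ((Fintype.card ι : ℂ)⁻¹) • DD Q (s k) := by
      show s k - (s k - _) = _
      abel
    rw [e, norm_smul, norm_inv, Complex.norm_natCast]
    apply le_of_sq_le_sq _ (by positivity)
    rw [mul_pow]
    have h1 := DD_sq_le Q (s k)
    have h2 := hsqE k
    have h3 : ((Fintype.card ι : ℝ)⁻¹) ^ 2 * ‖DD Q (s k)‖ ^ 2 ≤ ((Fintype.card ι : ℝ)⁻¹) ^ 2 *
        ((Fintype.card ι : ℝ) * EE Q (s k)) := mul_le_mul_of_nonneg_left h1 (by positivity)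
    rw [← hnd] at h3 ⊢
    have h4 : n⁻¹ ^ 2 * (n * EE Q (s k)) = n⁻¹ * EE Q (s k) := by field_simp
    have h5 : n⁻¹ * EE Q (s k) ≤ EE Q (s k) := by
      have : n⁻¹ ≤ 1 := inv_le_one_of_one_le₀ hn1
      nlinarith [EE_nonneg Q (s k)]
    linarith
  have hcau : CauchySeq s := cauchySeq_of_le_geometric r e0 hr1 hdist
  obtain ⟨w, hw⟩ := cauchySeq_tendsto_of_complete hcau
  refine ⟨w, ?_, ?_⟩
  · intro hw0
    have h1 := dist_le_of_le_geometric_of_tendsto₀ r e0 hr1 hdist hw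
    rw [hs0, hw0, dist_zero_right, hv] at h1
    have h2 : e0 ≤ n * thr n c := by
      apply le_of_sq_le_sq _ (by have := thr_pos n c hn1 hc; positivity)
      rw [he0s]
      have h3 : EE Q v ≤ ∑ _i : ι, (thr n c) ^ 2 := by
        refine Finset.sum_le_sum fun i _ => ?_
        exact pow_le_pow_left₀ (norm_nonneg _) (hv' i) 2
      rw [Finset.sum_const, Finset.card_univ, nsmul_eq_mul, ← hnd] at h3
      have h4 : n * thr n c ^ 2 ≤ (n * thr n c) ^ 2 := by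
        rw [mul_pow]
        apply mul_le_mul_of_nonneg_right _ (sq_nonneg _)
        nlinarith
      linarith
    have h3 : n * thr n c = (1 - r) / 2 := by
      unfold thr
      rw [← hρ, ← hr]
      field_simp
    have h4 : e0 / (1 - r) ≤ 1 / 2 := by
      rw [div_le_iff₀ (by linarith)]
      linarith
    linarith
  · intro i
    have hlim : Tendsto (fun k => ‖w - s k‖ + e0 * r ^ k) atTop (𝓝 0) := by
      have h1 : Tendsto (fun k => ‖w - s k‖) atTop (𝓝 0) := by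
        have := (tendsto_const_nhds (x := w)).sub hw
        rw [sub_self] at this
        simpa using this.norm
      have h2 : Tendsto (fun k => e0 * r ^ k) atTop (𝓝 0) := by
        have := (tendsto_pow_atTop_nhds_zero_of_lt_one hr0 hr1).const_mul e0
        simpa using this
      simpa using h1.add h2
    have hle : ∀ k, ‖Q i w‖ ≤ ‖w - s k‖ + e0 * r ^ k := by
      intro k
      have h1 : Q i w = Q i (w - s k) + Q i (s k) := by rw [(hQ i).sub]; abel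
      rw [h1]
      refine (norm_add_le _ _).trans (add_le_add ((hQ i).norm_le _) ?_)
      apply le_of_sq_le_sq _ (by positivity)
      exact (Q_le_EE Q i (s k)).trans (hsqE k)
    have : ‖Q i w‖ ≤ 0 := ge_of_tendsto' hlim hle
    exact norm_le_zero_iff.mp this

end Pool.Agent.Helper455.KZ
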