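import Pool.Agent.Helper455.KZ.Gen

set_option autoImplicit false

open scoped Pointwise

namespace Pool.Agent.Helper455.KZ

section FF

variable {K : Type*} [Field K] {R : Type*} [Ring R] [Algebra K R] (C : Leav R)

/-- lamp configurations -/
def FF (k : ℕ) (f : Fin (2 ^ (k + 1)) → (Fin 5 → K)) : R :=
  1 + ∑ j, (FK C k).s (io k j, false) * rho C (f j) * (FK C k).t (io k j, true)

theorem FF_zero (k : ℕ) : FF C k (0 : Fin (2 ^ (k + 1)) → (Fin 5 → K)) = 1 := by
  simp [FF, rho_zero]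

theorem FF_cross (k : ℕ) (i j : Fin (2 ^ (k + 1))) (r r' : R) :
    ((FK C k).s (io k i, false) * r * (FK C k).t (io k i, true)) *
      ((FK C k).s (io k j, false) * r' * (FK C k).t (io k j, true)) = 0 :=
  blk_zero C (wdk_inc k _ _ (by
    intro h
    have := congrArg Prod.snd h
    simp at this)) _ _

theorem FF_add (k : ℕ) (f f' : Fin (2 ^ (k + 1)) → (Fin 5 → K)) :
    FF C k f * FF C k f' = FF C k (f + f') := by
  unfold FF
  have h0 : (∑ j, (FK C k).s (io k j, false) * rho C (f j) * (FK C k).t (io k j, true)) *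
      (∑ j, (FK C k).s (io k j, false) * rho C (f' j) * (FK C k).t (io k j, true)) = 0 := by
    rw [Finset.sum_mul]
    refine Finset.sum_eq_zero fun i _ => ?_
    rw [Finset.mul_sum]
    exact Finset.sum_eq_zero fun j _ => FF_cross C k i j _ _
  rw [add_mul, mul_add, one_mul, one_mul, mul_add, mul_one, h0, add_zero]
  simp only [Pi.add_apply, rho_add, mul_add, add_mul, Finset.sum_add_distrib]
  abel

theorem FF_single (k : ℕ) (j : Fin (2 ^ (k + 1))) (c : Fin 5 → K) :
    FF C k (Pi.single j c) =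
      1 + (FK C k).s (io k j, false) * rho C c * (FK C k).t (io k j, true) := by
  unfold FF
  congr 1
  rw [Finset.sum_eq_single j]
  · rw [Pi.single_eq_same]
  · intro i _ hi
    rw [Pi.single_eq_of_ne hi, rho_zero, mul_zero, zero_mul]
  · intro h; exact absurd (Finset.mem_univ _) h

theorem FF_comm (k : ℕ) (f : Fin (2 ^ (k + 1)) → (Fin 5 → K)) (σ : Equiv.Perm (XX k))
    (h : ∀ j b, f j ≠ 0 → σ (io k j, b) = (io k j, b)) :
    FF C k f * (FK C k).U σ = (FK C k).U σ * FF C k f := by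
  unfold FF
  rw [add_mul, mul_add, one_mul, mul_one, Finset.sum_mul, Finset.mul_sum]
  congr 1
  refine Finset.sum_congr rfl fun j _ => ?_
  by_cases hj : f j = 0
  · rw [hj, rho_zero]; simp
  · have h1 := h j false hj
    have h3 := h j true hj
    have h4 : σ⁻¹ (io k j, true) = (io k j, true) := by
      rw [Equiv.Perm.inv_eq_iff_eq]; exact h3.symm
    rw [mul_assoc _ _ ((FK C k).U σ), (FK C k).t_U, h4, ← mul_assoc, ← mul_assoc, (FK C k).U_s, h1]

end FF

/-- support of permutations -/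
def supT (k : ℕ) (O : Finset ℕ) (T : Equiv.Perm (XX k)) : Prop :=
  ∀ x : XX k, (∀ n ∈ O, x.1 ≠ mk k n) → T x = x

/-- support of lamps -/
def supF {A : Type*} [Zero A] (k : ℕ) (O : Finset ℕ) (f : Fin (2 ^ (k + 1)) → A) : Prop :=
  ∀ j, (∀ n ∈ O, j ≠ mk k n) → f j = 0

theorem supT_mono {k : ℕ} {O O' : Finset ℕ} (h : O ⊆ O') {T : Equiv.Perm (XX k)}
    (hT : supT k O T) : supT k O' T := fun x hx => hT x fun n hn => hx n (h hn)

theorem supF_mono {A : Type*} [Zero A] {k : ℕ} {O O' : Finset ℕ} (h : O ⊆ O')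
    {f : Fin (2 ^ (k + 1)) → A} (hf : supF k O f) : supF k O' f :=
  fun x hx => hf x fun n hn => hx n (h hn)

theorem mk_ne {k m n : ℕ} (hm : m < 2 ^ k) (hn : n < 2 ^ k) : io k (mk k n) ≠ mk k m := by
  rw [io_mk, Ne, mk_eq]
  have e : 2 ^ (k + 1) = 2 ^ k + 2 ^ k := by rw [pow_succ]; ring
  rw [Nat.mod_eq_of_lt (by omega), Nat.mod_eq_of_lt (by omega)]
  omega

section val

variable {K : Type*} [Field K] {R : Type*} [Ring R] [Algebra K R] (C : Leav R)

variable (K) in
/-- values of words -/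
def Val (k : ℕ) (O : Finset ℕ) (γ : Equiv.Perm (Fin (2 ^ (k + 1)))) (h : R) : Prop :=
  ∃ (T : Equiv.Perm (XX k)) (f : Fin (2 ^ (k + 1)) → (Fin 5 → K)), supT k O T ∧ supF k O f ∧
    h = (FK C k).U T * FF C k f * (FK C k).U (dg k γ)

theorem Val.one (k : ℕ) : Val K C k {0} 1 (1 : R) :=
  ⟨1, 0, fun _ _ => rfl, fun _ _ => rfl, by rw [dg_one, Fam.U_one, FF_zero]; simp⟩

theorem Val.perm {k : ℕ} {O O' : Finset ℕ} {γ : Equiv.Perm (Fin (2 ^ (k + 1)))} {h : R}
    (hv : Val K C k O γ h) (hO : O ⊆ O') (η : Equiv.Perm (Fin (2 ^ (k + 1)))) :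
    Val K C k O' (γ * η) (h * (FK C k).U (dg k η)) := by
  obtain ⟨T, f, hT, hf, rfl⟩ := hv
  exact ⟨T, f, supT_mono hO hT, supF_mono hO hf, by rw [dg_mul, Fam.U_mul, mul_assoc]⟩

theorem Val.swap {k : ℕ} {O O' : Finset ℕ} {g : Equiv.Perm ℕ}
    {γ : Equiv.Perm (Fin (2 ^ (k + 1)))} {h : R}
    (hv : Val K C k O γ h) (hO : O ⊆ O') (hγ : TRel k g γ) (hb : ∀ n ∈ O', n < 2 ^ k)
    (m m' : ℕ) (b b' : Bool) (hm : g m ∈ O') (hm' : g m' ∈ O') :
    Val K C k O' γ (h * (FK C k).U (Equiv.swap (pt k m b) (pt k m' b'))) := by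
  obtain ⟨T, f, hT, hf, rfl⟩ := hv
  have e1 : dg k γ (pt k m b) = pt k (g m) b := by simp only [dg_apply, pt, hγ.cmk]
  have e2 : dg k γ (pt k m' b') = pt k (g m') b' := by simp only [dg_apply, pt, hγ.cmk]
  have e3 : (FK C k).U (dg k γ) * (FK C k).U (Equiv.swap (pt k m b) (pt k m' b')) =
      (FK C k).U (Equiv.swap (pt k (g m) b) (pt k (g m') b')) * (FK C k).U (dg k γ) := by
    rw [← Fam.U_mul, ← Fam.U_mul, Equiv.mul_swap_eq_swap_mul, e1, e2]
  have e4 : FF C k f * (FK C k).U (Equiv.swap (pt k (g m) b) (pt k (g m') b')) =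
      (FK C k).U (Equiv.swap (pt k (g m) b) (pt k (g m') b')) * FF C k f := by
    apply FF_comm
    intro j c hj
    have : ∃ n ∈ O, j = mk k n := by
      by_contra hcon
      push Not at hcon
      exact hj (hf j hcon)
    obtain ⟨n, hn, rfl⟩ := this
    apply Equiv.swap_apply_of_ne_of_ne
    · intro h
      exact mk_ne (hb _ hm) (hb _ (hO hn)) (congrArg Prod.fst h)
    · intro h
      exact mk_ne (hb _ hm') (hb _ (hO hn)) (congrArg Prod.fst h)
  refine ⟨T * Equiv.swap (pt k (g m) b) (pt k (g m') b'), f, ?_, supF_mono hO hf, ?_⟩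
  · intro x hx
    have h1 : Equiv.swap (pt k (g m) b) (pt k (g m') b') x = x := by
      apply Equiv.swap_apply_of_ne_of_ne
      · intro h
        exact hx _ hm (congrArg Prod.fst h)
      · intro h
        exact hx _ hm' (congrArg Prod.fst h)
    rw [Equiv.Perm.mul_apply, h1]
    exact hT x fun n hn => hx n (hO hn)
  · rw [mul_assoc, e3, Fam.U_mul]
    simp only [mul_assoc]
    rw [← mul_assoc (FF C k f), e4]
    simp only [mul_assoc]

theorem Val.lamp {k : ℕ} {O : Finset ℕ} {g : Equiv.Perm ℕ}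
    {γ : Equiv.Perm (Fin (2 ^ (k + 1)))} {h : R}
    (hv : Val K C k O γ h) (hγ : TRel k g γ) (h0 : g 0 ∈ O) (c : Fin 5 → K) :
    Val K C k O γ
      (h * (1 + (FK C k).s (es k false) * rho C c * (FK C k).t (es k true))) := by
  classical
  obtain ⟨T, f, hT, hf, rfl⟩ := hv
  have e1 : ∀ b, dg k γ (es k b) = (io k (mk k (g 0)), b) := by
    intro b; simp only [dg_apply, es, hγ.cio, hγ.cmk]
  have e3 := (FK C k).U_conj (dg k γ) (es k false) (es k true) (rho C c)
  rw [e1, e1, ← FF_single] at e3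
  refine ⟨T, f + Pi.single (mk k (g 0)) c, hT, ?_, ?_⟩
  · intro j hj
    rw [Pi.add_apply, hf j hj, zero_add, Pi.single_eq_of_ne (hj _ h0)]
  · rw [mul_assoc, e3, ← FF_add]
    simp only [mul_assoc]

end val

section ball

variable {K : Type*} [Field K] {R : Type*} [Ring R] [Algebra K R] (C : Leav R)

/-- all generators are involutions -/
theorem Gens_inv (h2 : ∀ x : R, x + x = 0) (k : ℕ) (g : Rˣ) (hg : g ∈ Gens K C k) : g⁻¹ = g := by
  have key : g * g = 1 := by
    rcases hg with rfl | ⟨x, rfl⟩ | rfl | rfl | ⟨c, hc⟩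
    · rw [← map_mul, ← dg_mul, aK_sq, dg_one, map_one]
    · rw [← map_mul, ← dg_mul, xK_sq, dg_one, map_one]
    · rw [← map_mul, Equiv.swap_mul_self, map_one]
    · rw [← map_mul, Equiv.swap_mul_self, map_one]
    · apply Units.ext
      rw [Units.val_mul, hc, Units.val_one]
      have hz : ((FK C k).s (es k false) * rho C c * (FK C k).t (es k true)) *
        ((FK C k).s (es k false) * rho C c * (FK C k).t (es k true)) = 0 :=
        blk_zero C (wdk_inc k _ _ (es_ne k).symm) _ _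
      have : ∀ z : R, (1 + z) * (1 + z) = 1 + (z + z) + z * z := by intro z; noncomm_ring
      rw [this, h2, hz]; simp
  exact inv_eq_of_mul_eq_one_left key

theorem step (h2 : ∀ x : R, x + x = 0) (k W : ℕ)
    (hb : ∀ r g O, P r g O → r ≤ W → ∀ n ∈ O, n < 2 ^ k)
    {r : ℕ} {g : Equiv.Perm ℕ} {O : Finset ℕ} {γ : Equiv.Perm (Fin (2 ^ (k + 1)))} {h : R}
    (hP : P r g O) (hr : r + 6 ≤ W) (hγ : TRel k g γ) (hv : Val K C k O γ h)
    (u : Rˣ) (hu : u ∈ Gens K C k ∪ (Gens K C k)⁻¹ ∪ {1}) :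
    ∃ r' ≤ r + 6, ∃ g' O' γ', P r' g' O' ∧ TRel k g' γ' ∧ Val K C k O' γ' (h * u) := by
  have hu' : u ∈ Gens K C k ∨ u = 1 := by
    rcases hu with (hu | hu) | hu
    · left; exact hu
    · left
      have h1 : u⁻¹ ∈ Gens K C k := hu
      have h3 := Gens_inv C h2 k _ h1
      rw [inv_inv] at h3
      rw [h3]; exact h1
    · right; exact hu
  rcases hu' with hu | rfl
  · rcases hu with rfl | ⟨x, rfl⟩ | rfl | rfl | ⟨c, hc⟩
    · exact ⟨r + 3, by omega, g * aP, insert (g 1) O, γ * aK k, P.astep _ _ _ hP,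
        hγ.mul (aK_rel k), hv.perm C (Finset.subset_insert _ _) _⟩
    · have hx : K4.wt x ≤ 3 := by cases x <;> decide
      exact ⟨r + K4.wt x, by omega, g * kP x, O, γ * xK k x, P.kstep _ _ _ _ hP,
        hγ.mul (xK_rel k x), hv.perm C (Finset.Subset.refl _) _⟩
    · have hP1 := P.astep _ _ _ (P.astep _ _ _ hP)
      have e1 : g * aP * aP = g := by rw [mul_assoc, aP_aP, mul_one]
      have e2 : (g * aP) 1 = g 0 := by
        rw [Equiv.Perm.mul_apply, aP_apply]
        rfl
      have e3 : insert ((g * aP) 1) (insert (g 1) O) = insert (g 1) O := by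
        rw [e2]
        exact Finset.insert_eq_of_mem (Finset.mem_insert_of_mem hP.mem)
      rw [e1, e3] at hP1
      have hb' := hb _ _ _ hP1 (by omega)
      exact ⟨r + 3 + 3, by omega, g, insert (g 1) O, γ, hP1, hγ,
        hv.swap C (Finset.subset_insert _ _) hγ hb' 0 1 false false
          (Finset.mem_insert_of_mem hP.mem) (Finset.mem_insert_self _ _)⟩
    · exact ⟨r, by omega, g, O, γ, hP, hγ,
        hv.swap C (Finset.Subset.refl _) hγ (hb _ _ _ hP (by omega)) 0 0 false true hP.mem hP.mem⟩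
    · refine ⟨r, by omega, g, O, γ, hP, hγ, ?_⟩
      rw [hc]
      exact hv.lamp C hγ hP.mem c
  · exact ⟨r, by omega, g, O, γ, hP, hγ, by rw [Units.val_one, mul_one]; exact hv⟩

theorem ball (h2 : ∀ x : R, x + x = 0) (k n : ℕ)
    (hb : ∀ r g O, P r g O → r ≤ 6 * n → ∀ n ∈ O, n < 2 ^ k) (m : ℕ) (hm : m ≤ n) (u : Rˣ)
    (hu : u ∈ (Gens K C k ∪ (Gens K C k)⁻¹ ∪ {1}) ^ m) :
    ∃ r ≤ 6 * m, ∃ g O γ, P r g O ∧ TRel k g γ ∧ Val K C k O γ (u : R) := by
  induction m generalizing u with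
  | zero =>
    rw [pow_zero, Set.mem_one] at hu
    subst hu
    exact ⟨0, by omega, 1, {0}, 1, P.one, TRel.one k, by rw [Units.val_one]; exact Val.one C k⟩
  | succ m ih =>
    rw [pow_succ, Set.mem_mul] at hu
    obtain ⟨v, hv, w, hw, rfl⟩ := hu
    obtain ⟨r, hr, g, O, γ, hP, hγ, hval⟩ := ih (by omega) v hv
    obtain ⟨r', hr', g', O', γ', hP', hγ', hval'⟩ :=
      step C h2 k (6 * n) hb hP (by omega) hγ hval w hw
    exact ⟨r', by omega, g', O', γ', hP', hγ', by rw [Units.val_mul]; exact hval'⟩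

end ball

section card

open Classical in
/-- number of permutations with given support -/
theorem card_supT (k : ℕ) (O : Finset ℕ) :
    ((Finset.univ : Finset (Equiv.Perm (XX k))).filter (supT k O)).card ≤
      (2 * O.card).factorial := by
  set p : XX k → Prop := fun x => ∃ n ∈ O, x.1 = mk k n with hp
  have h1 : ((Finset.univ : Finset (Equiv.Perm (XX k))).filter (supT k O)).card ≤
      Fintype.card {f : Equiv.Perm (XX k) // ∀ a, ¬ p a → f a = a} := by
    rw [Fintype.card_subtype]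
    apply Finset.card_le_card
    intro T hT
    rw [Finset.mem_filter] at hT ⊢
    refine ⟨Finset.mem_univ _, fun a ha => hT.2 a fun n hn hn' => ha ⟨n, hn, hn'⟩⟩
  have h3 : Fintype.card {f : Equiv.Perm (XX k) // ∀ a, ¬ p a → f a = a} =
      Fintype.card (Equiv.Perm (Subtype p)) :=
    Fintype.card_congr (Equiv.Perm.subtypeEquivSubtypePerm p).symm
  have h4 : Fintype.card (Subtype p) ≤ 2 * O.card := by
    rw [Fintype.card_subtype]
    have h5 : (Finset.univ.filter p) ⊆ (O ×ˢ (Finset.univ : Finset Bool)).image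
        (fun q => ((mk k q.1, q.2) : XX k)) := by
      rintro ⟨j, b⟩ hj
      rw [Finset.mem_filter] at hj
      obtain ⟨_, n, hn, hn'⟩ := hj
      rw [Finset.mem_image]
      exact ⟨(n, b), Finset.mem_product.mpr ⟨hn, Finset.mem_univ _⟩, by rw [← hn']⟩
    refine (Finset.card_le_card h5).trans (Finset.card_image_le.trans ?_)
    rw [Finset.card_product, Finset.card_univ, Fintype.card_bool, mul_comm]
  rw [h3, Fintype.card_perm] at h1
  exact h1.trans (Nat.factorial_le h4)

open Classical in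
/-- number of lamp configurations with given support -/
theorem card_supF {A : Type*} [Zero A] [Fintype A] (k : ℕ) (O : Finset ℕ) :
    ((Finset.univ : Finset (Fin (2 ^ (k + 1)) → A)).filter (supF k O)).card ≤
      (Fintype.card A) ^ O.card := by
  have h1 : ((Finset.univ : Finset (Fin (2 ^ (k + 1)) → A)).filter (supF k O)).card ≤
      (Finset.univ : Finset (O → A)).card := by
    apply Finset.card_le_card_of_injOn (fun f (n : O) => f (mk k (n : ℕ)))
      (fun _ _ => Finset.mem_coe.mpr (Finset.mem_univ _))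
    intro f hf g hg h
    rw [Finset.mem_coe, Finset.mem_filter] at hf hg
    funext j
    by_cases hj : ∃ n ∈ O, j = mk k n
    · obtain ⟨n, hn, rfl⟩ := hj
      exact congrFun h ⟨n, hn⟩
    · push Not at hj
      rw [hf.2 j hj, hg.2 j hj]
  rw [Finset.card_univ, Fintype.card_fun, Fintype.card_coe] at h1
  exact h1

variable {K : Type*} [Field K] [Fintype K] {R : Type*} [Ring R] [Algebra K R] (C : Leav R)

open Classical in
variable (K) in
/-- all values with given data -/
noncomputable def VF (k : ℕ) (O : Finset ℕ) (γ : Equiv.Perm (Fin (2 ^ (k + 1)))) : Finset R :=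
  ((((Finset.univ : Finset (Equiv.Perm (XX k))).filter (supT k O)) ×ˢ
    ((Finset.univ : Finset (Fin (2 ^ (k + 1)) → (Fin 5 → K))).filter (supF k O))).image
      (fun q => (FK C k).U q.1 * FF C k q.2 * (FK C k).U (dg k γ)))

theorem mem_VF {k : ℕ} {O : Finset ℕ} {γ : Equiv.Perm (Fin (2 ^ (k + 1)))} {h : R}
    (hv : Val K C k O γ h) : h ∈ VF K C k O γ := by
  classical
  obtain ⟨T, f, hT, hf, rfl⟩ := hv
  unfold VF
  rw [Finset.mem_image]
  exact ⟨(T, f), Finset.mem_product.mpr ⟨Finset.mem_filter.mpr ⟨Finset.mem_univ _, hT⟩,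
    Finset.mem_filter.mpr ⟨Finset.mem_univ _, hf⟩⟩, rfl⟩

theorem card_VF (k : ℕ) (O : Finset ℕ) (γ : Equiv.Perm (Fin (2 ^ (k + 1)))) (M : ℕ)
    (hM : O.card ≤ M) :
    (VF K C k O γ).card ≤ (2 * M).factorial * ((Fintype.card K) ^ 5) ^ M := by
  classical
  unfold VF
  refine Finset.card_image_le.trans ?_
  rw [Finset.card_product]
  refine Nat.mul_le_mul ?_ ?_
  · have := card_supT k O
    refine le_trans (le_of_eq ?_) (this.trans (Nat.factorial_le (by omega)))
    congr 1
  · have h1 := card_supF (A := Fin 5 → K) k O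
    rw [Fintype.card_fun, Fintype.card_fin] at h1
    refine le_trans (le_of_eq ?_) (h1.trans (Nat.pow_le_pow_right ?_ hM))
    · congr 1
    · have : 0 < Fintype.card K := Fintype.card_pos_iff.mpr ⟨0⟩
      positivity

/-- the bound for balls in the unit group -/
theorem ball_card (h2 : ∀ x : R, x + x = 0) (k n M : ℕ)
    (hb : ∀ r g O, P r g O → r ≤ 6 * n → ∀ n ∈ O, n < 2 ^ k)
    (hM : ∀ p ∈ RF (6 * n), p.1.card ≤ M) :
    ∃ V : Finset R, V.card ≤ (RF (6 * n)).card * ((2 * M).factorial * ((Fintype.card K) ^ 5) ^ M) ∧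
      ∀ u ∈ (Gens K C k ∪ (Gens K C k)⁻¹ ∪ {1}) ^ n, (u : R) ∈ V := by
  classical
  refine ⟨(RF (6 * n)).biUnion (fun p => if h : ∃ γ, TRel k p.2 γ then VF K C k p.1 h.choose
    else ∅), ?_, ?_⟩
  · refine Finset.card_biUnion_le.trans ?_
    refine (Finset.sum_le_card_nsmul _ _ _ ?_).trans_eq (by rw [smul_eq_mul])
    intro p hp
    split_ifs with h
    · exact card_VF C k p.1 _ M (hM p hp)
    · simp
  · intro u hu
    obtain ⟨r, hr, g, O, γ, hP, hγ, hv⟩ := ball C h2 k n hb n le_rfl u hu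
    rw [Finset.mem_biUnion]
    refine ⟨(O, g), mem_RF.mpr ⟨r, hr, O, Finset.Subset.refl _, hP⟩, ?_⟩
    have h : ∃ γ, TRel k (O, g).2 γ := ⟨γ, hγ⟩
    rw [dif_pos h]
    have e : h.choose = γ := h.choose_spec.unique hγ
    rw [e]
    exact mem_VF C hv

end card

end Pool.Agent.Helper455.KZ
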