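import Pool.Agent.Helper455.KZ.Grig

set_option autoImplicit false

open Filter Topology

namespace Pool.Agent.Helper455.KZ

theorem sites_step' (A B : ℝ) (hA : 0 ≤ A)
    (hB : ∀ r g O, P r g O → (O.card : ℝ) ≤ A * r + B) :
    ∀ r g O, P r g O → (O.card : ℝ) ≤ (5 / 6 * A) * r + max 1 (5 / 2 * A + 2 * B) := by
  intro r g O hP
  obtain ⟨r', hr', hAl⟩ := hP.alt
  have hr'' : (r' : ℝ) ≤ r := by exact_mod_cast hr'
  rcases hAl.decomp with ⟨x, hx, hO, _⟩ | ⟨s, σ, τ, rE, rO, hE, hO, OE, OO, hPE, hPO, hw, hO', hg⟩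
  · rw [hO]
    simp only [Finset.card_singleton, Nat.cast_one]
    have := le_max_left (1 : ℝ) (5 / 2 * A + 2 * B)
    have h0 : 0 ≤ 5 / 6 * A * r := by positivity
    linarith
  · rw [hO', card_dbl]
    have h1 := hB _ _ _ hPE
    have h2 := hB _ _ _ hPO
    have h3 : 6 * ((rE : ℝ) + rO) ≤ 5 * (r' + 3) := by
      have : 6 * (rE + rO) ≤ 5 * (r' + 3) := by split_ifs at hw <;> omega
      exact_mod_cast this
    have h4 : A * ((rE : ℝ) + rO) ≤ A * (5 / 6 * (r + 3)) := by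
      apply mul_le_mul_of_nonneg_left _ hA
      linarith
    have := le_max_right (1 : ℝ) (5 / 2 * A + 2 * B)
    push_cast
    nlinarith

/-- explicit bound for the number of sites -/
theorem sites_bound (j : ℕ) : ∀ r g O, P r g O →
    (O.card : ℝ) ≤ (5 / 6 : ℝ) ^ j * r + (4 * 2 ^ j - 3) := by
  induction j with
  | zero =>
    intro r g O hP
    have : O.card ≤ r + 1 := by
      induction hP with
      | one => simp
      | kstep r g O x h ih => omega
      | astep r g O h ih =>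
        have := Finset.card_insert_le (g 1) O
        omega
    have h1 : (O.card : ℝ) ≤ r + 1 := by exact_mod_cast this
    norm_num
    linarith
  | succ j ih =>
    intro r g O hP
    have h := sites_step' _ _ (by positivity) ih r g O hP
    have h1 : (5 / 6 : ℝ) ^ j ≤ 1 := pow_le_one₀ (by norm_num) (by norm_num)
    have h2 : (1 : ℝ) ≤ 2 ^ j := one_le_pow₀ (by norm_num)
    have h3 : max 1 (5 / 2 * (5 / 6 : ℝ) ^ j + 2 * (4 * 2 ^ j - 3)) ≤ 4 * 2 ^ (j + 1) - 3 := by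
      apply max_le
      · rw [pow_succ]; linarith
      · rw [pow_succ]; linarith
    have h4 : (5 / 6 * (5 / 6 : ℝ) ^ j) * r = (5 / 6 : ℝ) ^ (j + 1) * r := by rw [pow_succ]; ring
    rw [h4] at h
    linarith

/-- the site budget -/
noncomputable def mu (j : ℕ) : ℝ := (5 / 6 : ℝ) ^ j * (6 * 4 ^ j) + 4 * 2 ^ j

theorem mu_nonneg (j : ℕ) : 0 ≤ mu j := by unfold mu; positivity

theorem mu_lim : Tendsto (fun j : ℕ => mu j * (4 * j + 50) / 4 ^ j) atTop (𝓝 0) := by
  have e : (fun j : ℕ => mu j * (4 * j + 50) / 4 ^ j) = fun j : ℕ =>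
      24 * ((j : ℝ) ^ 1 * (5 / 6) ^ j) + 300 * (5 / 6) ^ j + (16 * ((j : ℝ) ^ 1 * (1 / 2) ^ j) +
        200 * (1 / 2) ^ j) := by
    funext j
    unfold mu
    have h1 : (2 : ℝ) ^ j / 4 ^ j = (1 / 2) ^ j := by
      rw [← div_pow]; norm_num
    have h2 : (4 : ℝ) ^ j ≠ 0 := by positivity
    have h3 : ((5 / 6 : ℝ) ^ j * (6 * 4 ^ j) + 4 * 2 ^ j) * (4 * j + 50) / 4 ^ j =
        ((5 / 6 : ℝ) ^ j * 6 * (4 ^ j / 4 ^ j) + 4 * (2 ^ j / 4 ^ j)) * (4 * j + 50) := by
      ring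
    rw [h3, h1, div_self h2]
    ring
  rw [e]
  have a1 := tendsto_pow_const_mul_const_pow_of_abs_lt_one 1
    (show |(5 / 6 : ℝ)| < 1 by rw [abs_of_pos] <;> norm_num)
  have a2 := tendsto_pow_atTop_nhds_zero_of_lt_one (show (0 : ℝ) ≤ 5 / 6 by norm_num)
    (show (5 / 6 : ℝ) < 1 by norm_num)
  have a3 := tendsto_pow_const_mul_const_pow_of_abs_lt_one 1
    (show |(1 / 2 : ℝ)| < 1 by rw [abs_of_pos] <;> norm_num)
  have a4 := tendsto_pow_atTop_nhds_zero_of_lt_one (show (0 : ℝ) ≤ 1 / 2 by norm_num)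
    (show (1 / 2 : ℝ) < 1 by norm_num)
  have := ((a1.const_mul 24).add (a2.const_mul 300)).add ((a3.const_mul 16).add (a4.const_mul 200))
  simpa using this

/-- final estimate -/
theorem estimate (c : ℝ) (hc : 1 < c) (Q : ℕ) (hQ : Q ≤ 2 ^ 40) :
    ∃ n M : ℕ, (∀ p ∈ RF (6 * n), p.1.card ≤ M) ∧
      (((RF (6 * n)).card * ((2 * M).factorial * Q ^ M) : ℕ) : ℝ) < c ^ n := by
  have hlc : 0 < Real.log c := Real.log_pos hc
  obtain ⟨A, hA⟩ := RF_subexp (Real.log c / 24) (by positivity)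
  have hE1 : ∀ᶠ j : ℕ in atTop, mu j * (4 * j + 50) / 4 ^ j < Real.log c / 2 :=
    (tendsto_order.mp mu_lim).2 _ (by positivity)
  have hE2 : ∀ᶠ j : ℕ in atTop, A < Real.exp ((4 : ℝ) ^ j * (Real.log c / 4)) := by
    have h1 : Tendsto (fun j : ℕ => (4 : ℝ) ^ j * (Real.log c / 4)) atTop atTop :=
      (tendsto_pow_atTop_atTop_of_one_lt (by norm_num : (1 : ℝ) < 4)).atTop_mul_const
        (by positivity)
    exact (Real.tendsto_exp_atTop.comp h1).eventually_gt_atTop A
  obtain ⟨j, h1, h2⟩ := (hE1.and hE2).exists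
  set n : ℕ := 4 ^ j with hn
  have hnr : (n : ℝ) = 4 ^ j := by rw [hn]; push_cast; rfl
  have hn0 : (0 : ℝ) < n := by rw [hnr]; positivity
  set M : ℕ := ⌊mu j⌋₊ with hM
  have hMmu : (M : ℝ) ≤ mu j := Nat.floor_le (mu_nonneg j)
  refine ⟨n, M, ?_, ?_⟩
  · intro p hp
    rw [mem_RF] at hp
    obtain ⟨r', hr', O, hY, hP⟩ := hp
    have h3 := sites_bound j _ _ _ hP
    have h4 : (p.1.card : ℝ) ≤ O.card := by exact_mod_cast Finset.card_le_card hY
    have h5 : (r' : ℝ) ≤ 6 * 4 ^ j := by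
      rw [← hnr]; exact_mod_cast hr'
    apply Nat.le_floor
    unfold mu
    have h6 : (5 / 6 : ℝ) ^ j * r' ≤ (5 / 6 : ℝ) ^ j * (6 * 4 ^ j) :=
      mul_le_mul_of_nonneg_left h5 (by positivity)
    linarith
  · -- the factorial
    have hM2 : 2 * M ≤ 2 ^ (2 * j + 5) := by
      have h3 : mu j ≤ 10 * 4 ^ j := by
        unfold mu
        have e1 : (5 / 6 : ℝ) ^ j ≤ 1 := pow_le_one₀ (by norm_num) (by norm_num)
        have e2 : (2 : ℝ) ^ j ≤ 4 ^ j := pow_le_pow_left₀ (by norm_num) (by norm_num) j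
        have e3 : (0 : ℝ) ≤ 6 * 4 ^ j := by positivity
        nlinarith
      have h4 : (2 * M : ℝ) ≤ 2 ^ (2 * j + 5) := by
        have e1 : (2 : ℝ) ^ (2 * j + 5) = 32 * 4 ^ j := by
          rw [pow_add, pow_mul]; norm_num; ring
        rw [e1]
        have : (0 : ℝ) ≤ 4 ^ j := by positivity
        linarith
      exact_mod_cast h4
    have hfac : (2 * M).factorial * Q ^ M ≤ 2 ^ (M * (4 * j + 50)) := by
      have h3 : (2 * M).factorial ≤ (2 * M) ^ (2 * M) := Nat.factorial_le_pow _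
      have h4 : (2 * M) ^ (2 * M) ≤ (2 ^ (2 * j + 5)) ^ (2 * M) := Nat.pow_le_pow_left hM2 _
      have h5 : Q ^ M ≤ (2 ^ 40) ^ M := Nat.pow_le_pow_left hQ _
      have h6 : (2 ^ (2 * j + 5)) ^ (2 * M) * (2 ^ 40) ^ M = 2 ^ (M * (4 * j + 50)) := by
        rw [← pow_mul, ← pow_mul, ← pow_add]
        congr 1; ring
      rw [← h6]
      exact Nat.mul_le_mul (h3.trans h4) h5
    have hfr : (((2 * M).factorial * Q ^ M : ℕ) : ℝ) ≤ Real.exp (mu j * (4 * j + 50)) := by
      have h3 : (((2 * M).factorial * Q ^ M : ℕ) : ℝ) ≤ (2 : ℝ) ^ (M * (4 * j + 50)) := by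
        exact_mod_cast hfac
      have h4 : (2 : ℝ) ^ (M * (4 * j + 50)) ≤ Real.exp 1 ^ (M * (4 * j + 50)) := by
        apply pow_le_pow_left₀ (by norm_num)
        have := Real.add_one_le_exp (1 : ℝ)
        linarith
      have h5 : Real.exp 1 ^ (M * (4 * j + 50)) = Real.exp (((M * (4 * j + 50) : ℕ)) : ℝ) := by
        rw [← Real.exp_nat_mul, mul_one]
      have h6 : Real.exp (((M * (4 * j + 50) : ℕ)) : ℝ) ≤ Real.exp (mu j * (4 * j + 50)) := by
        apply Real.exp_le_exp.mpr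
        push_cast
        apply mul_le_mul_of_nonneg_right hMmu (by positivity)
      linarith
    have hRF : ((RF (6 * n)).card : ℝ) ≤ A * Real.exp (n * (Real.log c / 4)) := by
      have := hA (6 * n)
      have e : Real.log c / 24 * ((6 * n : ℕ) : ℝ) = n * (Real.log c / 4) := by
        push_cast; ring
      rwa [e] at this
    have hmu : mu j * (4 * j + 50) ≤ n * (Real.log c / 2) := by
      rw [div_lt_iff₀ (by positivity)] at h1
      rw [hnr]; linarith
    rw [← hnr] at h2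
    rw [Nat.cast_mul]
    have hpos : 0 < Real.exp (mu j * (4 * j + 50)) := Real.exp_pos _
    calc ((RF (6 * n)).card : ℝ) * (((2 * M).factorial * Q ^ M : ℕ) : ℝ)
        ≤ ((RF (6 * n)).card : ℝ) * Real.exp (mu j * (4 * j + 50)) :=
          mul_le_mul_of_nonneg_left hfr (Nat.cast_nonneg _)
      _ ≤ (A * Real.exp (n * (Real.log c / 4))) * Real.exp (mu j * (4 * j + 50)) :=
          mul_le_mul_of_nonneg_right hRF hpos.le
      _ < (Real.exp (n * (Real.log c / 4)) * Real.exp (n * (Real.log c / 4))) *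
            Real.exp (mu j * (4 * j + 50)) :=
          mul_lt_mul_of_pos_right (mul_lt_mul_of_pos_right h2 (Real.exp_pos _)) hpos
      _ ≤ (Real.exp (n * (Real.log c / 4)) * Real.exp (n * (Real.log c / 4))) *
            Real.exp (n * (Real.log c / 2)) :=
          mul_le_mul_of_nonneg_left (Real.exp_le_exp.mpr hmu) (by positivity)
      _ = Real.exp (n * Real.log c) := by
          rw [← Real.exp_add, ← Real.exp_add]; congr 1; ring
      _ = c ^ n := by
          rw [Real.exp_nat_mul, Real.exp_log (by linarith)]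

end Pool.Agent.Helper455.KZ
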