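import Pool.Agent.Helper455.KZ.Ring

set_option autoImplicit false

namespace Pool.Agent.Helper455.KZ

/-- a Leavitt family indexed by a finite set -/
structure Fam (R X : Type*) [Ring R] [Fintype X] [DecidableEq X] where
  s : X → R
  t : X → R
  ts : ∀ x y, t x * s y = if x = y then 1 else 0
  st : ∑ x, s x * t x = 1

namespace Fam

variable {R X : Type*} [Ring R] [Fintype X] [DecidableEq X] (F : Fam R X)

theorem ext_s {a b : R} (h : ∀ x, a * F.s x = b * F.s x) : a = b := by
  have e : ∀ c : R, c = ∑ x, c * F.s x * F.t x := by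
    intro c
    conv_lhs => rw [← mul_one c, ← F.st, Finset.mul_sum]
    simp only [mul_assoc]
  rw [e a, e b]
  exact Finset.sum_congr rfl fun x _ => by rw [h]

/-- permutation matrices -/
def U (σ : Equiv.Perm X) : R := ∑ x, F.s (σ x) * F.t x

theorem U_s (σ : Equiv.Perm X) (x : X) : F.U σ * F.s x = F.s (σ x) := by
  rw [U, Finset.sum_mul, Finset.sum_eq_single x]
  · rw [mul_assoc, F.ts, if_pos rfl, mul_one]
  · intro y _ hy
    rw [mul_assoc, F.ts, if_neg hy, mul_zero]
  · intro h; exact absurd (Finset.mem_univ _) h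

theorem t_U (σ : Equiv.Perm X) (x : X) : F.t x * F.U σ = F.t (σ⁻¹ x) := by
  rw [U, Finset.mul_sum, Finset.sum_eq_single (σ⁻¹ x)]
  · rw [← mul_assoc, F.ts, if_pos (by simp), one_mul]
  · intro y _ hy
    rw [← mul_assoc, F.ts, if_neg, zero_mul]
    intro h; apply hy; rw [h]; simp
  · intro h; exact absurd (Finset.mem_univ _) h

theorem U_one : F.U 1 = 1 := by
  rw [U, ← F.st]; rfl

theorem U_mul (σ τ : Equiv.Perm X) : F.U (σ * τ) = F.U σ * F.U τ := by
  apply F.ext_s
  intro x
  rw [U_s, mul_assoc, U_s, U_s]; rfl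

/-- permutation matrices as units -/
def P : Equiv.Perm X →* Rˣ where
  toFun σ := ⟨F.U σ, F.U σ⁻¹, by rw [← U_mul, mul_inv_cancel, U_one],
    by rw [← U_mul, inv_mul_cancel, U_one]⟩
  map_one' := Units.ext F.U_one
  map_mul' σ τ := Units.ext (F.U_mul σ τ)

theorem P_val (σ : Equiv.Perm X) : ((F.P σ : Rˣ) : R) = F.U σ := rfl

theorem P_inj (hR : (1 : R) ≠ 0) : Function.Injective F.P := by
  intro σ τ h
  ext x
  have h1 : F.U σ = F.U τ := congrArg Units.val h
  have h3 : F.s (σ x) = F.s (τ x) := by rw [← U_s, ← U_s, h1]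
  by_contra hne
  have h4 := F.ts (σ x) (τ x)
  rw [if_neg hne, ← h3, F.ts, if_pos rfl] at h4
  exact hR h4

/-- conjugation of matrix units -/
theorem U_conj (σ : Equiv.Perm X) (x y : X) (r : R) :
    F.U σ * (1 + F.s x * r * F.t y) = (1 + F.s (σ x) * r * F.t (σ y)) * F.U σ := by
  rw [mul_add, add_mul, mul_one, one_mul]
  congr 1
  have e1 : F.U σ * (F.s x * r * F.t y) = (F.U σ * F.s x) * r * F.t y := by
    simp only [mul_assoc]
  have e2 : F.s (σ x) * r * F.t (σ y) * F.U σ = F.s (σ x) * r * (F.t (σ y) * F.U σ) := by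
    simp only [mul_assoc]
  rw [e1, e2, U_s, t_U]; simp

/-- a transposition is a product of three elementary matrices -/
theorem swap_mem (h2 : ∀ x : R, x + x = 0) (H : Subgroup Rˣ) (x y : X) (hxy : x ≠ y)
    (h1 : Mem H (F.s x * F.t y)) (h3 : Mem H (F.s y * F.t x)) : F.P (Equiv.swap x y) ∈ H := by
  obtain ⟨g, hg, eg⟩ := h1
  obtain ⟨k, hk, ek⟩ := h3
  have : F.P (Equiv.swap x y) = g * k * g := by
    apply Units.ext
    rw [P_val, Units.val_mul, Units.val_mul, eg, ek]
    apply F.ext_s
    intro z
    rw [U_s]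
    have c : ∀ a b : X, (1 + F.s a * F.t b) * F.s z = F.s z + if b = z then F.s a else 0 := by
      intro a b
      rw [add_mul, one_mul, mul_assoc, F.ts]
      split_ifs <;> simp
    have c' : ∀ a b w : X, (1 + F.s a * F.t b) * F.s w = F.s w + if b = w then F.s a else 0 := by
      intro a b w
      rw [add_mul, one_mul, mul_assoc, F.ts]
      split_ifs <;> simp
    rw [mul_assoc, mul_assoc, c]
    by_cases h : y = z
    · subst h
      have e1 : (1 + F.s x * F.t y) * F.s y = F.s y + F.s x := by rw [c', if_pos rfl]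
      have e2 : (1 + F.s y * F.t x) * F.s y = F.s y := by rw [c', if_neg hxy, add_zero]
      have e3 : (1 + F.s y * F.t x) * F.s x = F.s x + F.s y := by rw [c', if_pos rfl]
      have e4 : (1 + F.s x * F.t y) * F.s x = F.s x := by rw [c', if_neg hxy.symm, add_zero]
      rw [if_pos rfl, Equiv.swap_apply_right, mul_add (1 + F.s y * F.t x), e2, e3,
        mul_add, mul_add, e1, e4]
      calc F.s x = (F.s y + F.s y) + ((F.s x + F.s x) + F.s x) := by rw [h2, h2]; simp
        _ = _ := by abel
    · rw [if_neg h, add_zero]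
      by_cases h' : x = z
      · subst h'
        rw [Equiv.swap_apply_left, c', if_pos rfl, mul_add, c', c', if_neg hxy.symm, if_pos rfl]
        rw [add_zero, add_comm (F.s y), ← add_assoc, h2, zero_add]
      · rw [Equiv.swap_apply_of_ne_of_ne (Ne.symm h') (Ne.symm h), c', if_neg h', add_zero, c',
          if_neg h, add_zero]
  rw [this]
  exact H.mul_mem (H.mul_mem hg hk) hg

end Fam

/-- the family attached to a complete code -/
theorem code_sum {R : Type*} [Ring R] (C : Leav R) {X : Type*} [Fintype X] [DecidableEq X]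
    (wd : X → List Bool)
    (hinc : ∀ x y, x ≠ y → Leav.Inc (wd x) (wd y)) (n : ℕ)
    (hcov : ∀ u : List Bool, n ≤ u.length → ∃ x u', u = wd x ++ u') :
    ∑ x, C.S (wd x) * C.T (wd x) = 1 := by
  set E := ∑ x, C.S (wd x) * C.T (wd x) with hE
  have h0 : ∀ m : ℕ, ∀ u : List Bool, n ≤ u.length + m → E * C.S u = C.S u := by
    intro m
    induction m with
    | zero =>
      intro u hu
      obtain ⟨x, u', rfl⟩ := hcov u (by simpa using hu)
      rw [hE, Finset.sum_mul, Finset.sum_eq_single x]
      · rw [C.S_append]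
        have : C.S (wd x) * C.T (wd x) * (C.S (wd x) * C.S u') =
            C.S (wd x) * (C.T (wd x) * C.S (wd x)) * C.S u' := by simp only [mul_assoc]
        rw [this, C.TS_self, mul_one]
      · intro y _ hy
        rw [C.S_append]
        have : C.S (wd y) * C.T (wd y) * (C.S (wd x) * C.S u') =
            C.S (wd y) * (C.T (wd y) * C.S (wd x)) * C.S u' := by simp only [mul_assoc]
        rw [this, C.TS_inc (hinc y x hy)]; simp
      · intro h; exact absurd (Finset.mem_univ _) h
    | succ m ih =>
      intro u hu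
      have hlen : ∀ b : Bool, (u ++ [b]).length = u.length + 1 := by intro b; simp
      have h1 := ih (u ++ [false]) (by rw [hlen]; omega)
      have h3 := ih (u ++ [true]) (by rw [hlen]; omega)
      rw [C.S_append, C.S_cons, C.S_nil, mul_one] at h1 h3
      have e : C.S u = C.S u * C.s false * C.t false + C.S u * C.s true * C.t true := by
        have : C.S u * C.s false * C.t false + C.S u * C.s true * C.t true =
            C.S u * (C.s false * C.t false + C.s true * C.t true) := by
          rw [mul_add]; simp only [mul_assoc]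
        rw [this, C.st, mul_one]
      calc E * C.S u = E * (C.S u * C.s false) * C.t false + E * (C.S u * C.s true) * C.t true := by
            conv_lhs => rw [e]
            rw [mul_add]; simp only [mul_assoc]
        _ = C.S u := by rw [h1, h3]; exact e.symm
  have := h0 n [] (by simp)
  rwa [C.S_nil, mul_one] at this

/-- the family attached to a complete code -/
def codeFam {R : Type*} [Ring R] (C : Leav R) {X : Type*} [Fintype X] [DecidableEq X]
    (wd : X → List Bool)
    (hinc : ∀ x y, x ≠ y → Leav.Inc (wd x) (wd y)) (n : ℕ)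
    (hcov : ∀ u : List Bool, n ≤ u.length → ∃ x u', u = wd x ++ u') : Fam R X where
  s x := C.S (wd x)
  t x := C.T (wd x)
  ts x y := by
    by_cases h : x = y
    · subst h; rw [if_pos rfl, C.TS_self]
    · rw [if_neg h, C.TS_inc (hinc x y h)]
  st := code_sum C wd hinc n hcov

end Pool.Agent.Helper455.KZ
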