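import Mathlib

set_option autoImplicit false

/-!
Rings of characteristic two with a Cuntz (Leavitt) family; elementary units; the generation lemma.
-/

namespace Pool.Agent.Helper455.KZ

/-- a Leavitt family of type (1,2) -/
structure Leav (R : Type*) [Ring R] where
  s : Bool → R
  t : Bool → R
  ts : ∀ i j, t i * s j = if i = j then 1 else 0
  st : s false * t false + s true * t true = 1

namespace Leav

variable {R : Type*} [Ring R] (C : Leav R)

/-- isometry of a word -/
def S : List Bool → R
  | [] => 1
  | b :: w => C.s b * S w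

/-- coisometry of a word -/
def T : List Bool → R
  | [] => 1
  | b :: w => T w * C.t b

@[simp] theorem S_nil : C.S [] = 1 := rfl
@[simp] theorem T_nil : C.T [] = 1 := rfl
theorem S_cons (b : Bool) (w : List Bool) : C.S (b :: w) = C.s b * C.S w := rfl
theorem T_cons (b : Bool) (w : List Bool) : C.T (b :: w) = C.T w * C.t b := rfl

theorem ts_self (b : Bool) : C.t b * C.s b = 1 := by rw [C.ts, if_pos rfl]

theorem ts_not (b : Bool) : C.t b * C.s (!b) = 0 := by
  rw [C.ts, if_neg]; cases b <;> decide

theorem S_append (u v : List Bool) : C.S (u ++ v) = C.S u * C.S v := by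
  induction u with
  | nil => simp
  | cons b u ih => rw [List.cons_append, S_cons, ih, S_cons, mul_assoc]

theorem T_append (u v : List Bool) : C.T (u ++ v) = C.T v * C.T u := by
  induction u with
  | nil => simp
  | cons b u ih => rw [List.cons_append, T_cons, ih, T_cons, mul_assoc]

theorem TS_self (w : List Bool) : C.T w * C.S w = 1 := by
  induction w with
  | nil => simp
  | cons b w ih =>
    rw [T_cons, S_cons, mul_assoc, ← mul_assoc (C.t b), ts_self, one_mul, ih]

/-- incomparable words -/
def Inc (u v : List Bool) : Prop :=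
  ∃ (p : List Bool) (b : Bool) (u' v' : List Bool), u = p ++ b :: u' ∧ v = p ++ (!b) :: v'

theorem TS_inc {u v : List Bool} (h : Inc u v) : C.T u * C.S v = 0 := by
  obtain ⟨p, b, u', v', rfl, rfl⟩ := h
  rw [T_append, S_append, T_cons, S_cons]
  calc C.T u' * C.t b * C.T p * (C.S p * (C.s (!b) * C.S v'))
      = C.T u' * (C.t b * (C.T p * C.S p) * C.s (!b)) * C.S v' := by simp only [mul_assoc]
    _ = 0 := by rw [TS_self, mul_one, ts_not, mul_zero, zero_mul]

end Leav

theorem Inc.symm {u v : List Bool} (h : Leav.Inc u v) : Leav.Inc v u := by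
  obtain ⟨p, b, u', v', rfl, rfl⟩ := h
  exact ⟨p, !b, v', u', rfl, by simp⟩

theorem Inc.append {u v : List Bool} (h : Leav.Inc u v) (a b : List Bool) :
    Leav.Inc (u ++ a) (v ++ b) := by
  obtain ⟨p, c, u', v', rfl, rfl⟩ := h
  exact ⟨p, c, u' ++ a, v' ++ b, by simp, by simp⟩

theorem Inc.prepend {u v : List Bool} (h : Leav.Inc u v) (a : List Bool) :
    Leav.Inc (a ++ u) (a ++ v) := by
  obtain ⟨p, c, u', v', rfl, rfl⟩ := h
  exact ⟨a ++ p, c, u', v', by simp, by simp⟩

theorem Inc.of_prepend {u v : List Bool} (a : List Bool) (h : Leav.Inc (a ++ u) (a ++ v)) :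
    Leav.Inc u v := by
  induction a with
  | nil => simpa using h
  | cons c a ih =>
    apply ih
    obtain ⟨p, d, u', v', h1, h2⟩ := h
    cases p with
    | nil =>
      simp only [List.nil_append, List.cons_append, List.cons.injEq] at h1 h2
      exfalso
      have := h1.1.symm.trans h2.1
      cases d <;> simp at this
    | cons e p =>
      simp only [List.cons_append, List.cons.injEq] at h1 h2
      exact ⟨p, d, u', v', h1.2, h2.2⟩

theorem inc_of_length {u v : List Bool} (h : u.length = v.length) (hne : u ≠ v) :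
    Leav.Inc u v := by
  induction u generalizing v with
  | nil =>
    cases v with
    | nil => exact absurd rfl hne
    | cons => simp at h
  | cons a u ih =>
    cases v with
    | nil => simp at h
    | cons b v =>
      by_cases hab : a = b
      · subst hab
        have h1 : u ≠ v := fun e => hne (by rw [e])
        have := ih (by simpa using h) h1
        exact Inc.prepend this [a]
      · refine ⟨[], a, u, v, rfl, ?_⟩
        have : b = !a := by cases a <;> cases b <;> simp_all
        rw [this]; rfl

/-! units of the form `1 + z` -/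

section mem

variable {R : Type*} [Ring R]

/-- `1 + z` belongs to `H` -/
def Mem (H : Subgroup Rˣ) (z : R) : Prop := ∃ g ∈ H, (g : R) = 1 + z

theorem Mem.zero (H : Subgroup Rˣ) : Mem H 0 := ⟨1, H.one_mem, by simp⟩

theorem Mem.add {H : Subgroup Rˣ} {z w : R} (hz : Mem H z) (hw : Mem H w) (h : z * w = 0) :
    Mem H (z + w) := by
  obtain ⟨g, hg, eg⟩ := hz
  obtain ⟨k, hk, ek⟩ := hw
  refine ⟨g * k, H.mul_mem hg hk, ?_⟩
  rw [Units.val_mul, eg, ek]
  have : (1 + z) * (1 + w) = 1 + (z + w) + z * w := by noncomm_ring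
  rw [this, h, add_zero]

theorem Mem.mul {H : Subgroup Rˣ} (h2 : ∀ x : R, x + x = 0) {z w : R} (hz : Mem H z) (hw : Mem H w)
    (hzz : z * z = 0) (hww : w * w = 0) (hwz : w * z = 0) : Mem H (z * w) := by
  obtain ⟨g, hg, eg⟩ := hz
  obtain ⟨k, hk, ek⟩ := hw
  refine ⟨(g * k) * (g * k), H.mul_mem (H.mul_mem hg hk) (H.mul_mem hg hk), ?_⟩
  simp only [Units.val_mul, eg, ek]
  have e1 : (1 + z) * (1 + w) = 1 + (z + w + z * w) := by noncomm_ring
  rw [e1]
  have e2 : (1 + (z + w + z * w)) * (1 + (z + w + z * w)) =
      1 + ((z + w + z * w) + (z + w + z * w)) + (z + w + z * w) * (z + w + z * w) := by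
    noncomm_ring
  rw [e2, h2, add_zero]
  have e3 : (z + w + z * w) * (z + w + z * w) =
      z * z + z * w + (z * z) * w + w * z + w * w + (w * z) * w + z * (w * z) + z * (w * w) +
        z * (w * z) * w := by noncomm_ring
  rw [e3, hzz, hww, hwz]
  simp

theorem Mem.mono {H H' : Subgroup Rˣ} (h : H ≤ H') {z : R} (hz : Mem H z) : Mem H' z := by
  obtain ⟨g, hg, eg⟩ := hz
  exact ⟨g, h hg, eg⟩

end mem

section gen

variable {K : Type*} [Field K] {R : Type*} [Ring R] [Algebra K R] (C : Leav R)

variable (K) in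
/-- the generators -/
def GSet : Set Rˣ := {g | ∃ (u v : List Bool) (c : K), Leav.Inc u v ∧ (g : R) = 1 + c • (C.S u * C.T v)}

variable (K) in
/-- the group: elementary units over the Leavitt algebra -/
def GG : Subgroup Rˣ := Subgroup.closure (GSet K C)

/-- the elementary units really are units -/
def elu (h2 : ∀ x : R, x + x = 0) (z : R) (hz : z * z = 0) : Rˣ where
  val := 1 + z
  inv := 1 + z
  val_inv := by
    have : (1 + z) * (1 + z) = 1 + (z + z) + z * z := by noncomm_ring
    rw [this, h2, hz]; simp
  inv_val := by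
    have : (1 + z) * (1 + z) = 1 + (z + z) + z * z := by noncomm_ring
    rw [this, h2, hz]; simp

theorem sq_inc {u v : List Bool} (h : Leav.Inc u v) (c : K) :
    (c • (C.S u * C.T v)) * (c • (C.S u * C.T v)) = 0 := by
  rw [smul_mul_smul_comm]
  have : C.S u * C.T v * (C.S u * C.T v) = C.S u * (C.T v * C.S u) * C.T v := by
    simp only [mul_assoc]
  rw [this, C.TS_inc (Inc.symm h)]
  simp

theorem mem_GG (h2 : ∀ x : R, x + x = 0) {u v : List Bool} (h : Leav.Inc u v) (c : K) :
    Mem (GG K C) (c • (C.S u * C.T v)) :=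
  ⟨elu h2 _ (sq_inc C h c), Subgroup.subset_closure ⟨u, v, c, h, rfl⟩, rfl⟩

/-- the generation lemma -/
theorem GG_le (h2 : ∀ x : R, x + x = 0) {X : Type*} (wd : X → List Bool)
    (hinc : ∀ x y, x ≠ y → Leav.Inc (wd x) (wd y))
    (hthird : ∀ x y : X, ∃ z, z ≠ x ∧ z ≠ y) (n : ℕ)
    (hcov : ∀ u : List Bool, n ≤ u.length → ∃ x u', u = wd x ++ u')
    (H : Subgroup Rˣ)
    (hc : ∀ x y, x ≠ y → ∀ c : K, Mem H (C.S (wd x) * (c • (1 : R)) * C.T (wd y)))
    (hs : ∀ x y, x ≠ y → ∀ b, Mem H (C.S (wd x) * C.s b * C.T (wd y)))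
    (ht : ∀ x y, x ≠ y → ∀ b, Mem H (C.S (wd x) * C.t b * C.T (wd y))) :
    GG K C ≤ H := by
  -- the set A
  let A : R → Prop := fun r => ∀ x y, x ≠ y → Mem H (C.S (wd x) * r * C.T (wd y))
  have Amul : ∀ r r', A r → A r' → A (r * r') := by
    intro r r' hr hr' x y hxy
    obtain ⟨z, hzx, hzy⟩ := hthird x y
    have h1 := hr x z (Ne.symm hzx)
    have h3 := hr' z y hzy
    have key := Mem.mul h2 h1 h3 ?_ ?_ ?_
    · have e : C.S (wd x) * r * C.T (wd z) * (C.S (wd z) * r' * C.T (wd y)) =
          C.S (wd x) * (r * (C.T (wd z) * C.S (wd z)) * r') * C.T (wd y) := by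
        simp only [mul_assoc]
      rw [e, C.TS_self, mul_one] at key
      exact key
    · have e : C.S (wd x) * r * C.T (wd z) * (C.S (wd x) * r * C.T (wd z)) =
          C.S (wd x) * r * (C.T (wd z) * C.S (wd x)) * r * C.T (wd z) := by
        simp only [mul_assoc]
      rw [e, C.TS_inc (hinc z x hzx)]; simp
    · have e : C.S (wd z) * r' * C.T (wd y) * (C.S (wd z) * r' * C.T (wd y)) =
          C.S (wd z) * r' * (C.T (wd y) * C.S (wd z)) * r' * C.T (wd y) := by
        simp only [mul_assoc]
      rw [e, C.TS_inc (hinc y z (Ne.symm hzy))]; simp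
    · have e : C.S (wd z) * r' * C.T (wd y) * (C.S (wd x) * r * C.T (wd z)) =
          C.S (wd z) * r' * (C.T (wd y) * C.S (wd x)) * r * C.T (wd z) := by
        simp only [mul_assoc]
      rw [e, C.TS_inc (hinc y x (Ne.symm hxy))]; simp
  have A1 : A 1 := by
    intro x y hxy
    have := hc x y hxy 1
    rwa [one_smul] at this
  have AS : ∀ w, A (C.S w) := by
    intro w
    induction w with
    | nil => exact A1
    | cons b w ih => exact Amul _ _ (fun x y h => hs x y h b) ih
  have AT : ∀ w, A (C.T w) := by
    intro w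
    induction w with
    | nil => exact A1
    | cons b w ih => exact Amul _ _ ih (fun x y h => ht x y h b)
  have Ac : ∀ (u v : List Bool) (c : K), A (c • (C.S u * C.T v)) := by
    intro u v c
    have h1 : A (c • (1 : R)) := fun x y h => hc x y h c
    have := Amul _ _ h1 (Amul _ _ (AS u) (AT v))
    rwa [smul_mul_assoc, one_mul] at this
  -- long words, different blocks
  have B1 : ∀ x y, x ≠ y → ∀ u v (c : K), Mem H (c • (C.S (wd x ++ u) * C.T (wd y ++ v))) := by
    intro x y hxy u v c
    have h1 := Ac u v c x y hxy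
    have e : C.S (wd x) * c • (C.S u * C.T v) * C.T (wd y) =
        c • (C.S (wd x ++ u) * C.T (wd y ++ v)) := by
      rw [C.S_append, C.T_append, mul_smul_comm, smul_mul_assoc]
      simp only [mul_assoc]
    rwa [e] at h1
  -- all long words
  have B2 : ∀ u v, Leav.Inc u v → n ≤ u.length → n ≤ v.length → ∀ c : K,
      Mem H (c • (C.S u * C.T v)) := by
    intro u v huv hu hv c
    obtain ⟨x, u', rfl⟩ := hcov u hu
    obtain ⟨y, v', rfl⟩ := hcov v hv
    by_cases hxy : x = y
    · subst hxy
      obtain ⟨z, hzx, _⟩ := hthird x x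
      have h1 := B1 x z (Ne.symm hzx) u' [] c
      have h3 := B1 z x hzx [] v' 1
      rw [List.append_nil] at h1 h3
      rw [one_smul] at h3
      have key := Mem.mul h2 h1 h3 ?_ ?_ ?_
      · have e : c • (C.S (wd x ++ u') * C.T (wd z)) * (C.S (wd z) * C.T (wd x ++ v')) =
            c • (C.S (wd x ++ u') * ((C.T (wd z) * C.S (wd z)) * C.T (wd x ++ v'))) := by
          rw [smul_mul_assoc]; simp only [mul_assoc]
        rw [e, C.TS_self, one_mul] at key
        exact key
      · have hi : Leav.Inc (wd x ++ u') (wd z) := by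
          have := Inc.append (hinc x z (Ne.symm hzx)) u' []
          rwa [List.append_nil] at this
        exact sq_inc C hi c
      · have hi : Leav.Inc (wd z) (wd x ++ v') := by
          have := Inc.append (hinc z x hzx) [] v'
          rwa [List.append_nil] at this
        have := sq_inc (K := K) C hi 1
        rwa [one_smul] at this
      · have e : C.S (wd z) * C.T (wd x ++ v') * c • (C.S (wd x ++ u') * C.T (wd z)) =
            c • (C.S (wd z) * (C.T (wd x ++ v') * C.S (wd x ++ u')) * C.T (wd z)) := by
          rw [mul_smul_comm]; simp only [mul_assoc]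
        rw [e, C.TS_inc (Inc.symm huv)]; simp
    · exact B1 x y hxy u' v' c
  -- all words
  have B3 : ∀ m : ℕ, ∀ u v, Leav.Inc u v → n ≤ u.length + m → n ≤ v.length + m → ∀ c : K,
      Mem H (c • (C.S u * C.T v)) := by
    intro m
    induction m with
    | zero => intro u v huv hu hv c; exact B2 u v huv (by simpa using hu) (by simpa using hv) c
    | succ m ih =>
      intro u v huv hu hv c
      have hlen : ∀ (w : List Bool) (b : Bool), (w ++ [b]).length = w.length + 1 := by
        intro w b; simp
      have h0 := ih (u ++ [false]) (v ++ [false]) (Inc.append huv _ _)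
        (by rw [hlen]; omega) (by rw [hlen]; omega) c
      have h1 := ih (u ++ [true]) (v ++ [true]) (Inc.append huv _ _)
        (by rw [hlen]; omega) (by rw [hlen]; omega) c
      have e : c • (C.S u * C.T v) = c • (C.S (u ++ [false]) * C.T (v ++ [false])) +
          c • (C.S (u ++ [true]) * C.T (v ++ [true])) := by
        rw [← smul_add]
        congr 1
        have e1 : ∀ b, C.S (u ++ [b]) * C.T (v ++ [b]) = C.S u * (C.s b * C.t b) * C.T v := by
          intro b
          rw [C.S_append, C.T_append, C.S_cons, C.T_cons, C.S_nil, C.T_nil, mul_one, one_mul]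
          simp only [mul_assoc]
        rw [e1, e1, ← add_mul, ← mul_add, C.st, mul_one]
      rw [e]
      refine Mem.add h0 h1 ?_
      rw [smul_mul_smul_comm]
      have : C.S (u ++ [false]) * C.T (v ++ [false]) * (C.S (u ++ [true]) * C.T (v ++ [true])) =
          C.S (u ++ [false]) * (C.T (v ++ [false]) * C.S (u ++ [true])) * C.T (v ++ [true]) := by
        simp only [mul_assoc]
      rw [this, C.TS_inc (Inc.append (Inc.symm huv) _ _)]
      simp
  rw [GG, Subgroup.closure_le]
  rintro g ⟨u, v, c, huv, hg⟩
  obtain ⟨k, hk, ek⟩ := B3 n u v huv (by omega) (by omega) c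
  have : g = k := Units.ext (hg.trans ek.symm)
  rw [this]; exact hk

end gen

end Pool.Agent.Helper455.KZ
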