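import Pool.Agent.Helper455.KZ.Gap
import Pool.Agent.Helper455.KZ.Ring

set_option autoImplicit false

open scoped InnerProductSpace

namespace Pool.Agent.Helper455.KZ

section au

variable {K : Type*} [Field K] {R : Type*} [Ring R] [Algebra K R] {G : Subgroup Rˣ}

/-- the one parameter subgroup `c ↦ 1 + c x` -/
noncomputable def au {x : R} (hx : ∀ c : K, Mem G (c • x)) (c : K) : G :=
  ⟨(hx c).choose, (hx c).choose_spec.1⟩

theorem au_val {x : R} (hx : ∀ c : K, Mem G (c • x)) (c : K) :
    (((au hx c : G) : Rˣ) : R) = 1 + c • x := (hx c).choose_spec.2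

theorem G_ext {g h : G} (e : ((g : Rˣ) : R) = ((h : Rˣ) : R)) : g = h :=
  Subtype.ext (Units.ext e)

theorem au_zero {x : R} (hx : ∀ c : K, Mem G (c • x)) : au hx 0 = 1 := by
  apply G_ext
  rw [au_val]; simp

theorem au_add {x : R} (hx : ∀ c : K, Mem G (c • x)) (hxx : x * x = 0) (c d : K) :
    au hx (c + d) = au hx c * au hx d := by
  apply G_ext
  rw [Subgroup.coe_mul, Units.val_mul, au_val, au_val, au_val]
  have : (1 + c • x) * (1 + d • x) = 1 + (c + d) • x + (c * d) • (x * x) := by
    rw [mul_add, add_mul, add_mul, smul_mul_smul_comm, add_smul]; simp only [mul_one, one_mul]; abel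
  rw [this, hxx, smul_zero, add_zero]

variable {H : Type*} [NormedAddCommGroup H] [InnerProductSpace ℂ H] [CompleteSpace H]

/-- the corresponding operators -/
noncomputable def uo (π : G →* unitary (H →L[ℂ] H)) {x : R} (hx : ∀ c : K, Mem G (c • x)) :
    K → (H →L[ℂ] H) := fun c => (π (au hx c) : H →L[ℂ] H)

theorem uo_rep (π : G →* unitary (H →L[ℂ] H)) {x : R} (hx : ∀ c : K, Mem G (c • x))
    (hxx : x * x = 0) : URep (uo π hx) where
  zero v := by simp [uo, au_zero]
  add a b v := by simp [uo, au_add hx hxx, map_mul]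
  inner a v w := Unitary.inner_map_map _ _ _

theorem uo_comm (π : G →* unitary (H →L[ℂ] H)) {x y : R} (hx : ∀ c : K, Mem G (c • x))
    (hy : ∀ c : K, Mem G (c • y)) (hxy : x * y = 0) (hyx : y * x = 0) (a b : K) (v : H) :
    uo π hx a (uo π hy b v) = uo π hy b (uo π hx a v) := by
  have e : au hx a * au hy b = au hy b * au hx a := by
    apply G_ext
    simp only [Subgroup.coe_mul, Units.val_mul, au_val]
    rw [mul_add, add_mul, add_mul, mul_add, add_mul, add_mul, smul_mul_smul_comm,
      smul_mul_smul_comm, hxy, hyx]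
    simp only [mul_one, one_mul, smul_zero]
    abel
  have h1 := congrArg (fun g => ((π g : unitary (H →L[ℂ] H)) : H →L[ℂ] H) v) e
  simpa [uo, map_mul] using h1

theorem uo_heis (π : G →* unitary (H →L[ℂ] H)) {x y : R} (hx : ∀ c : K, Mem G (c • x))
    (hy : ∀ c : K, Mem G (c • y)) (hz : ∀ c : K, Mem G (c • (x * y)))
    (hxx : x * x = 0) (hyx : y * x = 0) (a b : K) (v : H) :
    uo π hx a (uo π hy b v) = uo π hy b (uo π hx a (uo π hz (a * b) v)) := by
  have e : au hx a * au hy b = au hy b * (au hx a * au hz (a * b)) := by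
    apply G_ext
    simp only [Subgroup.coe_mul, Units.val_mul, au_val]
    have e1 : (1 + a • x) * (1 + (a * b) • (x * y)) = 1 + a • x + (a * b) • (x * y) := by
      have hxxy : x * (x * y) = 0 := by rw [← mul_assoc, hxx, zero_mul]
      rw [mul_add, add_mul, add_mul, smul_mul_smul_comm, hxxy]
      simp only [mul_one, one_mul, smul_zero, add_zero]
    rw [e1]
    have e2 : (1 + b • y) * (1 + a • x + (a * b) • (x * y)) =
        1 + a • x + (a * b) • (x * y) + b • y + (b * a) • (y * x) +
          (b * (a * b)) • ((y * x) * y) := by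
      rw [add_mul, one_mul, mul_add, mul_add, mul_one, smul_mul_smul_comm, smul_mul_smul_comm,
        mul_assoc y x y]
      abel
    rw [e2, hyx]
    rw [mul_add, add_mul, add_mul, smul_mul_smul_comm]
    simp only [mul_one, one_mul, zero_mul, smul_zero, add_zero]
    abel
  have h1 := congrArg (fun g => ((π g : unitary (H →L[ℂ] H)) : H →L[ℂ] H) v) e
  simpa [uo, map_mul] using h1

/-- pair estimate for two lines -/
theorem line_pair [Fintype K] (hK : Fintype.card K = 256) (π : G →* unitary (H →L[ℂ] H)) {x y : R}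
    (hx : ∀ c : K, Mem G (c • x)) (hy : ∀ c : K, Mem G (c • y))
    (hz : ∀ c : K, Mem G (c • (x * y)))
    (hxx : x * x = 0) (hyy : y * y = 0) (hyx : y * x = 0) (v : H) :
    0 ≤ 2 * (⟪co (avg (uo π hx)) v, co (avg (uo π hy)) v⟫_ℂ).re +
      (1 / 16) * (‖co (avg (uo π hx)) v‖ ^ 2 + ‖co (avg (uo π hy)) v‖ ^ 2) := by
  have hzz : (x * y) * (x * y) = 0 := by
    have : (x * y) * (x * y) = x * (y * x) * y := by simp only [mul_assoc]
    rw [this, hyx]; simp
  have h1 : (x * y) * x = 0 := by rw [mul_assoc, hyx, mul_zero]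
  have h2 : x * (x * y) = 0 := by rw [← mul_assoc, hxx, zero_mul]
  have h3 : (x * y) * y = 0 := by rw [mul_assoc, hyy, mul_zero]
  have h4 : y * (x * y) = 0 := by rw [← mul_assoc, hyx, zero_mul]
  refine heis_pair (uo_rep π hx hxx) (uo_rep π hy hyy) (uo_rep π hz hzz)
    (uo_heis π hx hy hz hxx hyx) (fun a b v => uo_comm π hz hx h1 h2 a b v)
    (fun a b v => uo_comm π hz hy h3 h4 a b v) (1 / 16) (by norm_num) (by norm_num) ?_ v
  rw [hK]; norm_num

end au

section T

variable {K : Type*} [Field K] {R : Type*} [Ring R] [Algebra K R] (C : Leav R)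

/-- five coefficients -/
def rr : Fin 5 → R := ![1, C.s false, C.s true, C.t false, C.t true]

/-- the code with three words -/
def w3 : Fin 3 → List Bool := ![[false], [true, false], [true, true]]

theorem w3_inc (x y : Fin 3) (h : x ≠ y) : Leav.Inc (w3 x) (w3 y) := by
  fin_cases x <;> fin_cases y
  · exact absurd rfl h
  · exact ⟨[], false, [], [false], rfl, rfl⟩
  · exact ⟨[], false, [], [true], rfl, rfl⟩
  · exact ⟨[], true, [false], [], rfl, rfl⟩
  · exact absurd rfl h
  · exact ⟨[true], false, [], [], rfl, rfl⟩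
  · exact ⟨[], true, [true], [], rfl, rfl⟩
  · exact ⟨[true], true, [], [], rfl, rfl⟩
  · exact absurd rfl h

theorem w3_cov (u : List Bool) (hu : 2 ≤ u.length) : ∃ x u', u = w3 x ++ u' := by
  match u, hu with
  | false :: b :: u, _ => exact ⟨0, b :: u, rfl⟩
  | true :: false :: u, _ => exact ⟨1, u, rfl⟩
  | true :: true :: u, _ => exact ⟨2, u, rfl⟩

/-- the fifteen directions -/
def xx (i : Fin 3 × Fin 5) : R := C.S (w3 i.1) * rr C i.2 * C.T (w3 (i.1 + 1))

theorem ne_succ (p : Fin 3) : p ≠ p + 1 := by fin_cases p <;> decide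

theorem ne_succ2 (p : Fin 3) : p + 1 + 1 ≠ p := by fin_cases p <;> decide

theorem mem_coeff (h2 : ∀ x : R, x + x = 0) {u v : List Bool} (h : Leav.Inc u v) (j : Fin 5)
    (c : K) : Mem (GG K C) (c • (C.S u * rr C j * C.T v)) := by
  fin_cases j
  · have := mem_GG C h2 h c
    simpa [rr] using this
  · have := mem_GG C h2 (Inc.append h [false] []) c
    rw [C.S_append, C.S_cons, C.S_nil, mul_one, List.append_nil] at this
    exact this
  · have := mem_GG C h2 (Inc.append h [true] []) c
    rw [C.S_append, C.S_cons, C.S_nil, mul_one, List.append_nil] at this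
    exact this
  · have := mem_GG C h2 (Inc.append h [] [false]) c
    rw [C.T_append, C.T_cons, C.T_nil, one_mul, List.append_nil, ← mul_assoc] at this
    exact this
  · have := mem_GG C h2 (Inc.append h [] [true]) c
    rw [C.T_append, C.T_cons, C.T_nil, one_mul, List.append_nil, ← mul_assoc] at this
    exact this

theorem blk_zero {u v u' v' : List Bool} (h : Leav.Inc v u') (r r' : R) :
    (C.S u * r * C.T v) * (C.S u' * r' * C.T v') = 0 := by
  have : (C.S u * r * C.T v) * (C.S u' * r' * C.T v') =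
      C.S u * r * (C.T v * C.S u') * r' * C.T v' := by simp only [mul_assoc]
  rw [this, C.TS_inc h]; simp

theorem blk_mul {u v v' : List Bool} (r r' : R) :
    (C.S u * r * C.T v) * (C.S v * r' * C.T v') = C.S u * (r * r') * C.T v' := by
  have : (C.S u * r * C.T v) * (C.S v * r' * C.T v') =
      C.S u * r * (C.T v * C.S v) * r' * C.T v' := by simp only [mul_assoc]
  rw [this, C.TS_self, mul_one]; simp only [mul_assoc]

theorem xx_sq (i : Fin 3 × Fin 5) : xx C i * xx C i = 0 :=
  blk_zero C (w3_inc _ _ (ne_succ i.1).symm) _ _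

theorem xx_mem (h2 : ∀ x : R, x + x = 0) (i : Fin 3 × Fin 5) (c : K) :
    Mem (GG K C) (c • xx C i) :=
  mem_coeff C h2 (w3_inc _ _ (ne_succ i.1)) i.2 c

theorem smul_sq_zero {x : R} (h : x * x = 0) (c : K) : (c • x) * (c • x) = 0 := by
  rw [smul_mul_smul_comm, h, smul_zero]

/-- products of two directions, in the order in which the reversed product vanishes -/
theorem xx_prod_mem (h2 : ∀ x : R, x + x = 0) (i j : Fin 3 × Fin 5)
    (h : xx C j * xx C i = 0) (c : K) : Mem (GG K C) (c • (xx C i * xx C j)) := by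
  have h1 := xx_mem (K := K) C h2 i c
  have h3 := xx_mem (K := K) C h2 j 1
  rw [one_smul] at h3
  have := Mem.mul h2 h1 h3 (smul_sq_zero (xx_sq C i) c) (xx_sq C j)
    (by rw [mul_smul_comm, h, smul_zero])
  rwa [smul_mul_assoc] at this

theorem xx_rev (i j : Fin 3 × Fin 5) : xx C j * xx C i = 0 ∨ xx C i * xx C j = 0 := by
  obtain ⟨p, a⟩ := i
  obtain ⟨p', a'⟩ := j
  by_cases h : p' + 1 = p
  · right
    subst h
    exact blk_zero C (w3_inc _ _ (ne_succ2 p')) _ _
  · left
    exact blk_zero C (w3_inc _ _ h) _ _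

variable {H : Type*} [NormedAddCommGroup H] [InnerProductSpace ℂ H] [CompleteSpace H]

theorem xx_pair [Fintype K] (hK : Fintype.card K = 256) (h2 : ∀ x : R, x + x = 0)
    (π : GG K C →* unitary (H →L[ℂ] H)) (i j : Fin 3 × Fin 5) (v : H) :
    0 ≤ 2 * (⟪co (avg (uo π (xx_mem C h2 i))) v, co (avg (uo π (xx_mem C h2 j))) v⟫_ℂ).re +
      (1 / 16) * (‖co (avg (uo π (xx_mem C h2 i))) v‖ ^ 2 +
        ‖co (avg (uo π (xx_mem C h2 j))) v‖ ^ 2) := by
  rcases xx_rev C i j with h | h
  · exact line_pair hK π (xx_mem C h2 i) (xx_mem C h2 j) (xx_prod_mem C h2 i j h)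
      (xx_sq C i) (xx_sq C j) h v
  · have := line_pair hK π (xx_mem C h2 j) (xx_mem C h2 i) (xx_prod_mem C h2 j i h)
      (xx_sq C j) (xx_sq C i) h v
    rw [add_comm (‖co (avg (uo π (xx_mem C h2 j))) v‖ ^ 2)] at this
    have e : (⟪co (avg (uo π (xx_mem C h2 i))) v, co (avg (uo π (xx_mem C h2 j))) v⟫_ℂ).re =
        (⟪co (avg (uo π (xx_mem C h2 j))) v, co (avg (uo π (xx_mem C h2 i))) v⟫_ℂ).re := by
      rw [← inner_conj_symm, Complex.conj_re]
    rw [e]; exact this

/-- a subgroup containing the fifteen lines contains everything -/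
theorem GG_le_of_lines (h2 : ∀ x : R, x + x = 0) (L : Subgroup Rˣ)
    (hL : ∀ i (c : K), Mem L (c • xx C i)) : GG K C ≤ L := by
  -- all pairs
  have key : ∀ (p p' : Fin 3), p ≠ p' → ∀ (j : Fin 5) (c : K),
      Mem L (c • (C.S (w3 p) * rr C j * C.T (w3 p'))) := by
    intro p p' hpp j c
    have hcase : p' = p + 1 ∨ p' = p + 1 + 1 := by
      revert hpp; fin_cases p <;> fin_cases p' <;> decide
    rcases hcase with h | h
    · subst h; exact hL (p, j) c
    · subst h
      have h1 := hL (p, j) c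
      have h3 := hL (p + 1, 0) 1
      rw [one_smul] at h3
      have hz : xx C (p + 1, 0) * xx C (p, j) = 0 :=
        blk_zero C (w3_inc _ _ (ne_succ2 p)) _ _
      have := Mem.mul h2 h1 h3 (smul_sq_zero (xx_sq C _) c) (xx_sq C _)
        (by rw [mul_smul_comm, hz, smul_zero])
      rw [smul_mul_assoc] at this
      have e : xx C (p, j) * xx C (p + 1, 0) = C.S (w3 p) * rr C j * C.T (w3 (p + 1 + 1)) := by
        unfold xx
        rw [blk_mul]
        simp [rr]
      rwa [e] at this
  refine GG_le C h2 w3 w3_inc ?_ 2 w3_cov L ?_ ?_ ?_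
  · intro x y
    revert x y; decide
  · intro x y hxy c
    have := key x y hxy 0 c
    have e : C.S (w3 x) * (c • (1 : R)) * C.T (w3 y) = c • (C.S (w3 x) * rr C 0 * C.T (w3 y)) := by
      rw [mul_smul_comm, smul_mul_assoc]; rfl
    rw [e]; exact this
  · intro x y hxy b
    cases b
    · have := key x y hxy 1 1
      rwa [one_smul] at this
    · have := key x y hxy 2 1
      rwa [one_smul] at this
  · intro x y hxy b
    cases b
    · have := key x y hxy 3 1
      rwa [one_smul] at this
    · have := key x y hxy 4 1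
      rwa [one_smul] at this

/-- property (T) -/
theorem propT [Fintype K] (hK : Fintype.card K = 256) (h2 : ∀ x : R, x + x = 0) :
    ∃ S : Finset (GG K C), ∃ ε : ℝ, 0 < ε ∧
      ∀ (H : Type) [NormedAddCommGroup H] [InnerProductSpace ℂ H] [CompleteSpace H]
        (π : GG K C →* unitary (H →L[ℂ] H)),
        (∃ v : H, ‖v‖ = 1 ∧ ∀ s ∈ S, ‖(π s : H →L[ℂ] H) v - v‖ < ε) →
          ∃ w : H, w ≠ 0 ∧ ∀ g : GG K C, (π g : H →L[ℂ] H) w = w := by
  classical
  refine ⟨(Finset.univ : Finset ((Fin 3 × Fin 5) × K)).image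
    (fun q => au (xx_mem C h2 q.1) q.2), thr 15 (1 / 8), thr_pos _ _ (by norm_num) (by norm_num), ?_⟩
  intro H _ _ _ π ⟨v, hv, hsm⟩
  let Q : Fin 3 × Fin 5 → H → H := fun i => co (avg (uo π (xx_mem (K := K) C h2 i)))
  have hrep : ∀ i, URep (uo π (xx_mem (K := K) C h2 i)) := fun i => uo_rep π _ (xx_sq C i)
  have hQ : ∀ i, Proj (Q i) := fun i => (hrep i).avg_proj.co
  have hcard : Fintype.card (Fin 3 × Fin 5) = 15 := by simp
  have hDE : ∀ v, (1 / 8 : ℝ) * EE Q v ≤ ‖DD Q v‖ ^ 2 := by
    intro v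
    have := DD_lower Q (1 / 16) (fun i j _ v => xx_pair C hK h2 π i j v) v
    rw [hcard] at this
    norm_num at this
    linarith
  have hv' : ∀ i, ‖Q i v‖ ≤ thr (Fintype.card (Fin 3 × Fin 5) : ℝ) (1 / 8) := by
    intro i
    rw [hcard]
    refine co_avg_small v _ fun a => ?_
    have := hsm (au (xx_mem C h2 i) a)
      (Finset.mem_image.mpr ⟨(i, a), Finset.mem_univ _, rfl⟩)
    push_cast
    exact this.le
  obtain ⟨w, hw, hwi⟩ := exists_invariant (by rw [hcard]; norm_num) Q hQ (1 / 8) (by norm_num)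
    (by norm_num) hDE v hv hv'
  refine ⟨w, hw, ?_⟩
  -- the stabilizer
  let St : Subgroup (GG K C) :=
    { carrier := {g | (π g : H →L[ℂ] H) w = w}
      one_mem' := by simp
      mul_mem' := by
        intro a b ha hb
        show (π (a * b) : H →L[ℂ] H) w = w
        have ha' : (π a : H →L[ℂ] H) w = w := ha
        have hb' : (π b : H →L[ℂ] H) w = w := hb
        simp [map_mul, ha', hb']
      inv_mem' := by
        intro a ha
        show (π a⁻¹ : H →L[ℂ] H) w = w
        have ha' : (π a : H →L[ℂ] H) w = w := ha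
        have h1 : (π a⁻¹ : H →L[ℂ] H) ((π a : H →L[ℂ] H) w) = w := by
          have : ((π (a⁻¹ * a) : unitary (H →L[ℂ] H)) : H →L[ℂ] H) w = w := by simp
          rw [map_mul] at this
          exact this
        rwa [ha'] at h1 }
  have hSt : GG K C ≤ St.map (GG K C).subtype := by
    refine GG_le_of_lines (K := K) C h2 _ fun i c => ?_
    refine ⟨(au (xx_mem C h2 i) c : GG K C), ?_, au_val _ _⟩
    rw [Subgroup.mem_map]
    refine ⟨au (xx_mem C h2 i) c, ?_, rfl⟩
    show (π (au (xx_mem C h2 i) c) : H →L[ℂ] H) w = w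
    have h1 : avg (uo π (xx_mem (K := K) C h2 i)) w = w := by
      have : w - avg (uo π (xx_mem (K := K) C h2 i)) w = 0 := hwi i
      rw [sub_eq_zero] at this
      exact this.symm
    have h3 := (hrep i).fix_avg c w
    rw [h1] at h3
    exact h3
  intro g
  have := hSt g.2
  rw [Subgroup.mem_map] at this
  obtain ⟨g', hg', e⟩ := this
  have : g' = g := Subtype.ext e
  rw [← this]; exact hg'

end T

end Pool.Agent.Helper455.KZ
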