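import Pool.Agent.Helper455.KZ.Level
import Pool.Agent.Helper455.KZ.PropT

set_option autoImplicit false

namespace Pool.Agent.Helper455.KZ

variable {K : Type*} [Field K] {R : Type*} [Ring R] [Algebra K R] (C : Leav R)

/-- coefficients -/
def rho (c : Fin 5 → K) : R := ∑ j, c j • rr C j

theorem rho_add (c d : Fin 5 → K) : rho C (c + d) = rho C c + rho C d := by
  simp only [rho, Pi.add_apply, add_smul, Finset.sum_add_distrib]

theorem rho_zero : rho C (0 : Fin 5 → K) = 0 := by simp [rho]

theorem rho_single (j : Fin 5) (c : K) : rho C (Pi.single j c) = c • rr C j := by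
  rw [rho, Finset.sum_eq_single j]
  · rw [Pi.single_eq_same]
  · intro i _ hi; rw [Pi.single_eq_of_ne hi, zero_smul]
  · intro h; exact absurd (Finset.mem_univ _) h

/-- the family of level `k` -/
def FK (k : ℕ) : Fam R (XX k) := codeFam C (wdk k) (wdk_inc k) (k + 2) (wdk_cov k)

theorem FK_s (k : ℕ) (x : XX k) : (FK C k).s x = C.S (wdk k x) := rfl
theorem FK_t (k : ℕ) (x : XX k) : (FK C k).t x = C.T (wdk k x) := rfl

/-- the points near the two ends -/
def pt (k m : ℕ) (b : Bool) : XX k := (mk k m, b)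

/-- the end points carrying the elementary matrices -/
def es (k : ℕ) (b : Bool) : XX k := (io k (mk k 0), b)

theorem es_ne (k : ℕ) : es k false ≠ es k true := by
  intro h
  have := congrArg Prod.snd h
  simp [es] at this

variable (K) in
/-- the generating set of level `k` -/
def Gens (k : ℕ) : Set Rˣ :=
  {g | g = (FK C k).P (dg k (aK k)) ∨ (∃ x : K4, g = (FK C k).P (dg k (xK k x))) ∨
    g = (FK C k).P (Equiv.swap (pt k 0 false) (pt k 1 false)) ∨
    g = (FK C k).P (Equiv.swap (pt k 0 false) (pt k 0 true)) ∨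
    ∃ c : Fin 5 → K, (g : R) = 1 + (FK C k).s (es k false) * rho C c * (FK C k).t (es k true)}

theorem mem_rho (h2 : ∀ x : R, x + x = 0) {u v : List Bool} (h : Leav.Inc u v) (c : Fin 5 → K) :
    Mem (GG K C) (C.S u * rho C c * C.T v) := by
  classical
  have e : C.S u * rho C c * C.T v = ∑ j, c j • (C.S u * rr C j * C.T v) := by
    rw [rho, Finset.mul_sum, Finset.sum_mul]
    refine Finset.sum_congr rfl fun j _ => ?_
    rw [mul_smul_comm, smul_mul_assoc]
  rw [e]
  have key : ∀ s : Finset (Fin 5), Mem (GG K C) (∑ j ∈ s, c j • (C.S u * rr C j * C.T v)) := by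
    intro s
    induction s using Finset.induction_on with
    | empty => simpa using Mem.zero (GG K C)
    | insert a s ha ih =>
      rw [Finset.sum_insert ha]
      refine Mem.add (mem_coeff C h2 h a (c a)) ih ?_
      rw [Finset.mul_sum]
      refine Finset.sum_eq_zero fun j _ => ?_
      rw [smul_mul_smul_comm, blk_zero C (Inc.symm h), smul_zero]
  exact key _

theorem P_mem_GG (h2 : ∀ x : R, x + x = 0) (k : ℕ) (σ : Equiv.Perm (XX k)) :
    (FK C k).P σ ∈ GG K C := by
  have h1 : Subgroup.closure {σ : Equiv.Perm (XX k) | σ.IsSwap} ≤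
      (GG K C).comap (FK C k).P := by
    rw [Subgroup.closure_le]
    rintro σ ⟨x, y, hxy, rfl⟩
    show (FK C k).P (Equiv.swap x y) ∈ GG K C
    have m1 : ∀ x y : XX k, x ≠ y → Mem (GG K C) ((FK C k).s x * (FK C k).t y) := by
      intro x y hxy
      have := mem_GG (K := K) C h2 (wdk_inc k x y hxy) 1
      rwa [one_smul] at this
    exact (FK C k).swap_mem h2 _ x y hxy (m1 x y hxy) (m1 y x hxy.symm)
  rw [Equiv.Perm.closure_isSwap] at h1
  exact h1 (Subgroup.mem_top σ)

theorem Gens_sub (h2 : ∀ x : R, x + x = 0) (k : ℕ) : Gens K C k ⊆ (GG K C : Set Rˣ) := by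
  rintro g (rfl | ⟨x, rfl⟩ | rfl | rfl | ⟨c, hc⟩)
  · exact P_mem_GG C h2 k _
  · exact P_mem_GG C h2 k _
  · exact P_mem_GG C h2 k _
  · exact P_mem_GG C h2 k _
  · obtain ⟨g', hg', e⟩ := mem_rho C h2 (wdk_inc k _ _ (es_ne k)) c
    have : g = g' := Units.ext (hc.trans e.symm)
    rw [this]; exact hg'

section

variable {C} {k : ℕ} {H : Subgroup Rˣ} (hH : Gens K C k ⊆ (H : Set Rˣ))

/-- the transposition belongs to `H` -/
def sw (C : Leav R) (k : ℕ) (H : Subgroup Rˣ) (x y : XX k) : Prop :=
  (FK C k).P (Equiv.swap x y) ∈ H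

theorem sw_refl (x : XX k) : sw C k H x x := by
  unfold sw; rw [Equiv.swap_self]
  have : (FK C k).P (Equiv.refl _) = 1 := (FK C k).P.map_one
  rw [this]; exact H.one_mem

theorem sw_conj {x y : XX k} (h : sw C k H x y) {σ : Equiv.Perm (XX k)} (hσ : (FK C k).P σ ∈ H) :
    sw C k H (σ x) (σ y) := by
  unfold sw at *
  rw [Equiv.swap_apply_apply, map_mul, map_mul, map_inv]
  exact H.mul_mem (H.mul_mem hσ h) (H.inv_mem hσ)

theorem sw_trans {x y z : XX k} (h : sw C k H x y) (h' : sw C k H y z) : sw C k H x z := by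
  by_cases hzx : z = x
  · subst hzx; exact sw_refl _
  by_cases hzy : z = y
  · subst hzy; exact h
  have := sw_conj h' h
  rwa [Equiv.swap_apply_right, Equiv.swap_apply_of_ne_of_ne hzx hzy] at this

include hH in
theorem sw_a (y : XX k) (h : sw C k H (pt k 0 false) y) :
    sw C k H (pt k 0 false) (dg k (aK k) y) := by
  have h1 : (FK C k).P (dg k (aK k)) ∈ H := hH (Or.inl rfl)
  have h2 : sw C k H (pt k 0 false) (pt k 1 false) := hH (Or.inr (Or.inr (Or.inl rfl)))
  have h3 := sw_conj h h1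
  have h4 : dg k (aK k) (pt k 0 false) = pt k 1 false := by
    simp only [dg_apply, pt, (aK_rel k).cmk, aP_apply, aN_zero]
  rw [h4] at h3
  exact sw_trans h2 h3

include hH in
theorem sw_x (x : K4) (y : XX k) (h : sw C k H (pt k 0 false) y) :
    sw C k H (pt k 0 false) (dg k (xK k x) y) := by
  have h1 : (FK C k).P (dg k (xK k x)) ∈ H := hH (Or.inr (Or.inl ⟨x, rfl⟩))
  have h3 := sw_conj h h1
  have h4 : dg k (xK k x) (pt k 0 false) = pt k 0 false := by
    simp only [dg_apply, pt, (xK_rel k x).cmk, kP_apply, klN_zero]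
  rwa [h4] at h3

include hH in
theorem sw_word {n : ℕ} {g : Equiv.Perm ℕ} {O : Finset ℕ} (hU : U n g O) :
    ∃ γ, TRel k g γ ∧ ∀ y, sw C k H (pt k 0 false) y → sw C k H (pt k 0 false) (dg k γ y) := by
  induction hU with
  | one => exact ⟨1, TRel.one k, fun y h => by rw [dg_one]; exact h⟩
  | kstep n g O x _ ih =>
    obtain ⟨γ, hγ, h⟩ := ih
    refine ⟨γ * xK k x, hγ.mul (xK_rel k x), fun y hy => ?_⟩
    rw [dg_mul]
    exact h _ (sw_x hH x y hy)
  | astep n g O _ ih =>
    obtain ⟨γ, hγ, h⟩ := ih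
    refine ⟨γ * aK k, hγ.mul (aK_rel k), fun y hy => ?_⟩
    rw [dg_mul]
    exact h _ (sw_a hH y hy)

include hH in
theorem sw_all (y : XX k) : sw C k H (pt k 0 false) y := by
  obtain ⟨⟨n, hn⟩, b⟩ := y
  obtain ⟨g, ⟨m, O, hU⟩, hg⟩ := transitive n
  obtain ⟨γ, hγ, h⟩ := sw_word hH hU
  have e : dg k γ (pt k 0 b) = (⟨n, hn⟩, b) := by
    simp only [dg_apply, pt, hγ.cmk, hg]
    rw [Prod.mk.injEq]
    exact ⟨mk_self k ⟨n, hn⟩, rfl⟩
  rw [← e]
  apply h
  cases b
  · exact sw_refl _
  · exact hH (Or.inr (Or.inr (Or.inr (Or.inl rfl))))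

theorem sw_symm {x y : XX k} (h : sw C k H x y) : sw C k H y x := by
  unfold sw at *; rwa [Equiv.swap_comm]

include hH in
theorem P_mem (σ : Equiv.Perm (XX k)) : (FK C k).P σ ∈ H := by
  have h1 : Subgroup.closure {σ : Equiv.Perm (XX k) | σ.IsSwap} ≤ H.comap (FK C k).P := by
    rw [Subgroup.closure_le]
    rintro σ ⟨x, y, hxy, rfl⟩
    exact sw_trans (sw_symm (sw_all hH x)) (sw_all hH y)
  rw [Equiv.Perm.closure_isSwap] at h1
  exact h1 (Subgroup.mem_top σ)

theorem two_trans (e e' x y : XX k) (he : e ≠ e') (hxy : x ≠ y) :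
    ∃ σ : Equiv.Perm (XX k), σ e = x ∧ σ e' = y := by
  refine ⟨Equiv.swap (Equiv.swap e x e') y * Equiv.swap e x, ?_, ?_⟩
  · rw [Equiv.Perm.mul_apply, Equiv.swap_apply_left]
    apply Equiv.swap_apply_of_ne_of_ne _ hxy
    intro h
    apply he
    apply (Equiv.swap e x).injective
    rw [Equiv.swap_apply_left]; exact h
  · rw [Equiv.Perm.mul_apply, Equiv.swap_apply_left]

include hH in
theorem rho_mem (x y : XX k) (hxy : x ≠ y) (c : Fin 5 → K) :
    Mem H (C.S (wdk k x) * rho C c * C.T (wdk k y)) := by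
  obtain ⟨σ, h1, h2⟩ := two_trans (es k false) (es k true) x y (es_ne k) hxy
  have hσ := P_mem hH σ
  have hzz : ((FK C k).s (es k false) * rho C c * (FK C k).t (es k true)) *
      ((FK C k).s (es k false) * rho C c * (FK C k).t (es k true)) = 0 :=
    blk_zero C (wdk_inc k _ _ (es_ne k).symm) _ _
  set z := (FK C k).s (es k false) * rho C c * (FK C k).t (es k true) with hz
  -- the unit
  let g : Rˣ := ⟨1 + z, 1 - z, by
      have : (1 + z) * (1 - z) = 1 - z * z := by noncomm_ring
      rw [this, hzz, sub_zero], by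
      have : (1 - z) * (1 + z) = 1 - z * z := by noncomm_ring
      rw [this, hzz, sub_zero]⟩
  have hg : g ∈ H := hH (Or.inr (Or.inr (Or.inr (Or.inr ⟨c, rfl⟩))))
  refine ⟨(FK C k).P σ * g * ((FK C k).P σ)⁻¹, H.mul_mem (H.mul_mem hσ hg) (H.inv_mem hσ), ?_⟩
  have e1 : (((FK C k).P σ * g : Rˣ) : R) =
      (1 + C.S (wdk k x) * rho C c * C.T (wdk k y)) * ((FK C k).P σ : Rˣ) := by
    rw [Units.val_mul, Fam.P_val]
    have := (FK C k).U_conj σ (es k false) (es k true) (rho C c)
    rw [h1, h2] at this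
    exact this
  rw [Units.val_mul, e1, mul_assoc, Units.mul_inv, mul_one]

include hH in
/-- the generating set of level `k` generates the group -/
theorem GG_le_Gens (h2 : ∀ x : R, x + x = 0) : GG K C ≤ H := by
  have hr : ∀ (x y : XX k), x ≠ y → ∀ (j : Fin 5) (c : K),
      Mem H (c • (C.S (wdk k x) * rr C j * C.T (wdk k y))) := by
    intro x y hxy j c
    have := rho_mem hH x y hxy (Pi.single j c)
    rwa [rho_single, mul_smul_comm, smul_mul_assoc] at this
  refine GG_le C h2 (wdk k) (wdk_inc k) (third k) (k + 2) (wdk_cov k) H ?_ ?_ ?_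
  · intro x y hxy c
    have := hr x y hxy 0 c
    have e : C.S (wdk k x) * (c • (1 : R)) * C.T (wdk k y) =
        c • (C.S (wdk k x) * rr C 0 * C.T (wdk k y)) := by
      rw [mul_smul_comm, smul_mul_assoc]; rfl
    rw [e]; exact this
  · intro x y hxy b
    cases b
    · have := hr x y hxy 1 1
      rwa [one_smul] at this
    · have := hr x y hxy 2 1
      rwa [one_smul] at this
  · intro x y hxy b
    cases b
    · have := hr x y hxy 3 1
      rwa [one_smul] at this
    · have := hr x y hxy 4 1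
      rwa [one_smul] at this

end

theorem closure_Gens (h2 : ∀ x : R, x + x = 0) (k : ℕ) :
    Subgroup.closure (Gens K C k) = GG K C :=
  le_antisymm ((Subgroup.closure_le _).mpr (Gens_sub C h2 k))
    (GG_le_Gens Subgroup.subset_closure h2)

theorem Gens_finite [Finite K] (k : ℕ) : (Gens K C k).Finite := by
  classical
  have h1 : (Set.range (fun x : K4 => (FK C k).P (dg k (xK k x)))).Finite := Set.finite_range _
  have h3 : {g : Rˣ | ∃ c : Fin 5 → K,
      (g : R) = 1 + (FK C k).s (es k false) * rho C c * (FK C k).t (es k true)}.Finite := by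
    refine Set.Finite.of_finite_image (f := Units.val) ?_ (Units.val_injective.injOn)
    refine (Set.finite_range (fun c : Fin 5 → K =>
      1 + (FK C k).s (es k false) * rho C c * (FK C k).t (es k true))).subset ?_
    rintro _ ⟨g, ⟨c, hc⟩, rfl⟩
    exact ⟨c, hc.symm⟩
  refine ((((Set.finite_singleton ((FK C k).P (dg k (aK k)))).union h1).union
    ((Set.finite_singleton ((FK C k).P (Equiv.swap (pt k 0 false) (pt k 1 false)))).union
    (Set.finite_singleton ((FK C k).P (Equiv.swap (pt k 0 false) (pt k 0 true)))))).union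
      h3).subset ?_
  rintro g (h | ⟨x, h⟩ | h | h | h)
  · left; left; left; exact h
  · left; left; right; exact ⟨x, h.symm⟩
  · left; right; left; exact h
  · left; right; right; exact h
  · right; exact h

end Pool.Agent.Helper455.KZ
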