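import Mathlib

set_option autoImplicit false

/-!
The first Grigorchuk group acting on the naturals (orbit of the ray 111...), sites and counting.
This part (up to and including the transitivity) is taken over from the work of helper386 on
MP_e563b5_al in this repository.
-/

open scoped Pointwise
open Filter Topology

namespace Pool.Agent.Helper455.KZ

/-- The Klein four group {e,b,c,d}. -/
inductive K4 | e | b | c | d
deriving DecidableEq

instance : Fintype K4 := ⟨{K4.e, K4.b, K4.c, K4.d}, fun x => by cases x <;> decide⟩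

namespace K4

/-- multiplication table -/
def mul : K4 → K4 → K4
  | e, y => y
  | x, e => x
  | b, b => e | b, c => d | b, d => c
  | c, b => d | c, c => e | c, d => b
  | d, b => c | d, c => b | d, d => e

/-- the right section b -> c -> d -> b -/
def th : K4 → K4
  | e => e | b => c | c => d | d => b

/-- the left section: true means the swap a -/
def al : K4 → Bool
  | e => false | b => true | c => true | d => false

/-- weights -/
def wt : K4 → ℕ
  | e => 0 | b => 3 | c => 2 | d => 1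

theorem wt_mul (x y : K4) : wt (mul x y) ≤ wt x + wt y := by
  cases x <;> cases y <;> decide

theorem th_mul (x y : K4) : th (mul x y) = mul (th x) (th y) := by
  cases x <;> cases y <;> rfl

theorem al_mul (x y : K4) : al (mul x y) = xor (al x) (al y) := by
  cases x <;> cases y <;> rfl

theorem mul_self (x : K4) : mul x x = e := by cases x <;> rfl

theorem contr (x : K4) : 6 * (wt (th x) + (if al x then 3 else 0)) ≤ 5 * (3 + wt x) := by
  cases x <;> decide

end K4

/-- the swap a on ℕ -/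
def aN (n : ℕ) : ℕ := if n % 2 = 0 then n + 1 else n - 1

theorem aN_even (m : ℕ) : aN (2 * m) = 2 * m + 1 := by
  unfold aN; simp

theorem aN_odd (m : ℕ) : aN (2 * m + 1) = 2 * m := by
  unfold aN
  rw [if_neg (by omega)]; omega

theorem aN_aN (n : ℕ) : aN (aN n) = n := by
  rcases Nat.even_or_odd' n with ⟨m, rfl | rfl⟩
  · rw [aN_even, aN_odd]
  · rw [aN_odd, aN_even]

theorem aN_zero : aN 0 = 1 := rfl

/-- action of the Klein group elements on ℕ -/
def klN (x : K4) (n : ℕ) : ℕ :=
  if h : n = 0 then 0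
  else if n % 2 = 0 then 2 * klN (K4.th x) (n / 2)
  else if K4.al x then 2 * aN (n / 2) + 1 else n
termination_by n
decreasing_by omega

theorem klN_zero (x : K4) : klN x 0 = 0 := by
  rw [klN]; simp

theorem klN_even (x : K4) (m : ℕ) : klN x (2 * m) = 2 * klN (K4.th x) m := by
  rcases Nat.eq_zero_or_pos m with rfl | hm
  · simp [klN_zero]
  · rw [klN]
    rw [dif_neg (by omega), if_pos (by omega)]
    congr 2
    omega

theorem klN_odd (x : K4) (m : ℕ) :
    klN x (2 * m + 1) = 2 * (if K4.al x then aN m else m) + 1 := by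
  rw [klN]
  rw [dif_neg (by omega), if_neg (by omega)]
  have : (2 * m + 1) / 2 = m := by omega
  rw [this]
  split_ifs <;> rfl

theorem klN_mul (x y : K4) (n : ℕ) : klN (K4.mul x y) n = klN x (klN y n) := by
  induction n using Nat.strong_induction_on generalizing x y with
  | _ n ih =>
    rcases Nat.even_or_odd' n with ⟨m, rfl | rfl⟩
    · rcases Nat.eq_zero_or_pos m with rfl | hm
      · simp [klN_zero]
      · rw [klN_even, klN_even, klN_even, K4.th_mul, ih m (by omega)]
    · rw [klN_odd, klN_odd, klN_odd, K4.al_mul]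
      cases K4.al x <;> cases K4.al y <;> simp [aN_aN]

theorem klN_e (n : ℕ) : klN K4.e n = n := by
  induction n using Nat.strong_induction_on with
  | _ n ih =>
    rcases Nat.even_or_odd' n with ⟨m, rfl | rfl⟩
    · rcases Nat.eq_zero_or_pos m with rfl | hm
      · simp [klN_zero]
      · rw [klN_even]
        show 2 * klN K4.e m = _
        rw [ih m (by omega)]
    · rw [klN_odd]; simp [K4.al]

/-- a as a permutation -/
def aP : Equiv.Perm ℕ := ⟨aN, aN, aN_aN, aN_aN⟩

/-- x as a permutation -/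
def kP (x : K4) : Equiv.Perm ℕ :=
  ⟨klN x, klN x, fun n => by rw [← klN_mul, K4.mul_self, klN_e],
    fun n => by rw [← klN_mul, K4.mul_self, klN_e]⟩

@[simp] theorem aP_apply (n : ℕ) : aP n = aN n := rfl
@[simp] theorem kP_apply (x : K4) (n : ℕ) : kP x n = klN x n := rfl

theorem kP_mul (x y : K4) : kP x * kP y = kP (K4.mul x y) := by
  ext n; simp [klN_mul]

theorem kP_e : kP K4.e = 1 := by
  ext n; simp [klN_e]

theorem aP_aP : aP * aP = 1 := by
  ext n; simp [aN_aN]

/-- power of a -/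
def ap (t : Bool) : Equiv.Perm ℕ := if t then aP else 1

theorem ap_apply (t : Bool) (n : ℕ) : ap t n = if t then aN n else n := by
  cases t <;> simp [ap]

/-- assembling a function from two strands -/
def asmF (s : Bool) (gE gO : ℕ → ℕ) (n : ℕ) : ℕ :=
  match s, n % 2 with
  | false, 0 => 2 * gE (n / 2)
  | false, _ => 2 * gO (n / 2) + 1
  | true, 0 => 2 * gO (n / 2) + 1
  | true, _ => 2 * gE (n / 2)

theorem asmF_false_even (gE gO : ℕ → ℕ) (m : ℕ) : asmF false gE gO (2 * m) = 2 * gE m := by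
  simp [asmF]

theorem asmF_false_odd (gE gO : ℕ → ℕ) (m : ℕ) :
    asmF false gE gO (2 * m + 1) = 2 * gO m + 1 := by
  have h : (2 * m + 1) % 2 = 1 := by omega
  have h' : (2 * m + 1) / 2 = m := by omega
  simp [asmF, h, h']

theorem asmF_true_even (gE gO : ℕ → ℕ) (m : ℕ) : asmF true gE gO (2 * m) = 2 * gO m + 1 := by
  simp [asmF]

theorem asmF_true_odd (gE gO : ℕ → ℕ) (m : ℕ) :
    asmF true gE gO (2 * m + 1) = 2 * gE m := by
  have h : (2 * m + 1) % 2 = 1 := by omega
  have h' : (2 * m + 1) / 2 = m := by omega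
  simp [asmF, h, h']

/-- assembling a permutation from two strands -/
def asm (s : Bool) (gE gO : Equiv.Perm ℕ) : Equiv.Perm ℕ :=
  match s with
  | false => ⟨asmF false gE gO, asmF false gE.symm gO.symm,
      fun n => by
        rcases Nat.even_or_odd' n with ⟨m, rfl | rfl⟩
        · rw [asmF_false_even, asmF_false_even]; simp
        · rw [asmF_false_odd, asmF_false_odd]; simp,
      fun n => by
        rcases Nat.even_or_odd' n with ⟨m, rfl | rfl⟩
        · rw [asmF_false_even, asmF_false_even]; simp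
        · rw [asmF_false_odd, asmF_false_odd]; simp⟩
  | true => ⟨asmF true gE gO, asmF true gO.symm gE.symm,
      fun n => by
        rcases Nat.even_or_odd' n with ⟨m, rfl | rfl⟩
        · rw [asmF_true_even, asmF_true_odd]; simp
        · rw [asmF_true_odd, asmF_true_even]; simp,
      fun n => by
        rcases Nat.even_or_odd' n with ⟨m, rfl | rfl⟩
        · rw [asmF_true_even, asmF_true_odd]; simp
        · rw [asmF_true_odd, asmF_true_even]; simp⟩

theorem asm_apply (s : Bool) (gE gO : Equiv.Perm ℕ) (n : ℕ) : asm s gE gO n = asmF s gE gO n := by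
  cases s <;> rfl

theorem asm_mul_a (s : Bool) (gE gO : Equiv.Perm ℕ) : asm s gE gO * aP = asm (!s) gE gO := by
  ext n
  rw [Equiv.Perm.mul_apply, aP_apply, asm_apply, asm_apply]
  rcases Nat.even_or_odd' n with ⟨m, rfl | rfl⟩
  · rw [aN_even]
    cases s
    · show asmF false gE gO _ = asmF true gE gO _
      rw [asmF_false_odd, asmF_true_even]
    · show asmF true gE gO _ = asmF false gE gO _
      rw [asmF_true_odd, asmF_false_even]
  · rw [aN_odd]
    cases s
    · show asmF false gE gO _ = asmF true gE gO _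
      rw [asmF_false_even, asmF_true_odd]
    · show asmF true gE gO _ = asmF false gE gO _
      rw [asmF_true_even, asmF_false_odd]

theorem asm_false_mul_k (gE gO : Equiv.Perm ℕ) (x : K4) :
    asm false gE gO * kP x = asm false (gE * kP (K4.th x)) (gO * ap (K4.al x)) := by
  ext n
  rw [Equiv.Perm.mul_apply, kP_apply, asm_apply, asm_apply]
  rcases Nat.even_or_odd' n with ⟨m, rfl | rfl⟩
  · rw [klN_even, asmF_false_even, asmF_false_even]; simp
  · rw [klN_odd, asmF_false_odd, asmF_false_odd]; simp [ap_apply]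

theorem asm_true_mul_k (gE gO : Equiv.Perm ℕ) (x : K4) :
    asm true gE gO * kP x = asm true (gE * ap (K4.al x)) (gO * kP (K4.th x)) := by
  ext n
  rw [Equiv.Perm.mul_apply, kP_apply, asm_apply, asm_apply]
  rcases Nat.even_or_odd' n with ⟨m, rfl | rfl⟩
  · rw [klN_even, asmF_true_even, asmF_true_even]; simp
  · rw [klN_odd, asmF_true_odd, asmF_true_odd]; simp [ap_apply]

theorem kP_eq_asm (x : K4) : kP x = asm false (kP (K4.th x)) (ap (K4.al x)) := by
  ext n
  rw [kP_apply, asm_apply]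
  rcases Nat.even_or_odd' n with ⟨m, rfl | rfl⟩
  · rw [klN_even, asmF_false_even]; simp
  · rw [klN_odd, asmF_false_odd]; simp [ap_apply]

/-- weighted paths: P r g O means that g is the value of a word of weight r with set of sites O -/
inductive P : ℕ → Equiv.Perm ℕ → Finset ℕ → Prop
  | one : P 0 1 {0}
  | kstep (r : ℕ) (g : Equiv.Perm ℕ) (O : Finset ℕ) (x : K4) :
      P r g O → P (r + K4.wt x) (g * kP x) O
  | astep (r : ℕ) (g : Equiv.Perm ℕ) (O : Finset ℕ) :
      P r g O → P (r + 3) (g * aP) (insert (g 1) O)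

/-- alternating words -/
inductive Alt : ℕ → Equiv.Perm ℕ → Finset ℕ → Prop
  | base (x : K4) : Alt (K4.wt x) (kP x) {0}
  | step (r : ℕ) (g : Equiv.Perm ℕ) (O : Finset ℕ) (x : K4) :
      Alt r g O → Alt (r + 3 + K4.wt x) (g * aP * kP x) (insert (g 1) O)

theorem P.mem {r : ℕ} {g : Equiv.Perm ℕ} {O : Finset ℕ} (h : P r g O) : g 0 ∈ O := by
  induction h with
  | one => simp
  | kstep r g O x h ih => simpa [klN_zero] using ih
  | astep r g O h ih => simp [aN_zero]

theorem P.alt {r : ℕ} {g : Equiv.Perm ℕ} {O : Finset ℕ} (h : P r g O) :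
    ∃ r' ≤ r, Alt r' g O := by
  induction h with
  | one => exact ⟨0, le_refl _, by simpa [kP_e, K4.wt] using Alt.base K4.e⟩
  | kstep r g O x h ih =>
    obtain ⟨r', hr', ha⟩ := ih
    cases ha with
    | base y =>
      refine ⟨K4.wt (K4.mul y x), ?_, ?_⟩
      · have := K4.wt_mul y x; omega
      · rw [kP_mul]; exact Alt.base _
    | step r₁ g₁ O₁ y h₁ =>
      refine ⟨r₁ + 3 + K4.wt (K4.mul y x), ?_, ?_⟩
      · have := K4.wt_mul y x; omega
      · rw [mul_assoc, kP_mul]; exact Alt.step _ _ _ _ h₁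
  | astep r g O h ih =>
    obtain ⟨r', hr', ha⟩ := ih
    refine ⟨r' + 3, by omega, ?_⟩
    have := Alt.step r' g O K4.e ha
    simpa [kP_e, K4.wt] using this

theorem Alt.toP {r : ℕ} {g : Equiv.Perm ℕ} {O : Finset ℕ} (h : Alt r g O) : P r g O := by
  induction h with
  | base x => simpa using P.kstep 0 1 {0} x P.one
  | step r g O x h ih =>
    exact P.kstep _ _ _ x (P.astep _ _ _ ih)

/-- images of the strands' sites -/
def dblE (O : Finset ℕ) : Finset ℕ := O.image (fun m => 2 * m)

/-- images of the strands' sites -/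
def dblO (t : Bool) (O : Finset ℕ) : Finset ℕ := O.image (fun m => 2 * ap t m + 1)




theorem P.pend {r : ℕ} {g : Equiv.Perm ℕ} {O : Finset ℕ} (h : P r g O) (t : Bool) (x : K4) :
    ∃ O', P (r + (if t then 3 else 0) + K4.wt x) (g * ap t * kP x) O' ∧
      O' = insert (g (ap t 0)) O := by
  cases t with
  | false =>
    refine ⟨O, ?_, ?_⟩
    · simpa [ap] using P.kstep r g O x h
    · have := h.mem
      simp [ap, this]
  | true =>
    refine ⟨insert (g 1) O, ?_, ?_⟩
    · simpa [ap] using P.kstep _ _ _ x (P.astep r g O h)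
    · simp [ap, aN_zero]

theorem dblE_insert (y : ℕ) (O : Finset ℕ) : dblE (insert y O) = insert (2 * y) (dblE O) := by
  simp [dblE, Finset.image_insert]

theorem dblO_insert (t : Bool) (y : ℕ) (O : Finset ℕ) :
    dblO t (insert y O) = insert (2 * ap t y + 1) (dblO t O) := by
  simp [dblO, Finset.image_insert]

theorem Alt.decomp {r : ℕ} {g : Equiv.Perm ℕ} {O : Finset ℕ} (h : Alt r g O) :
    (∃ x, g = kP x ∧ O = {0} ∧ r = K4.wt x) ∨
    ∃ (s σ τ : Bool) (rE rO : ℕ) (hE hO : Equiv.Perm ℕ) (OE OO : Finset ℕ),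
      P rE hE OE ∧ P rO hO OO ∧ 6 * (rE + rO + (if τ then 3 else 0)) ≤ 5 * (r + 3) ∧
      O = dblE OE ∪ dblO σ OO ∧
      g = asm s (if s then hE * ap τ else hE) (if s then ap σ * hO else ap σ * hO * ap τ) := by
  induction h with
  | base x => exact Or.inl ⟨x, rfl, rfl, rfl⟩
  | step r g O x h ih =>
    right
    rcases ih with ⟨x0, rfl, rfl, rfl⟩ | ⟨s, σ, τ, rE, rO, hE, hO, OE, OO, hPE, hPO, hw, hO', hg⟩
    · refine ⟨true, K4.al x0, K4.al x, K4.wt (K4.th x0), K4.wt (K4.th x), kP (K4.th x0),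
        kP (K4.th x), {0}, {0}, (Alt.base _).toP, (Alt.base _).toP, ?_, ?_, ?_⟩
      · have h1 := K4.contr x0
        have h2 := K4.contr x
        split_ifs at * <;> omega
      · have : (kP x0) 1 = 2 * (ap (K4.al x0) 0) + 1 := by
          have := klN_odd x0 0
          simpa [ap_apply] using this
        rw [this]
        ext z
        simp [dblE, dblO, or_comm]
      · rw [kP_eq_asm x0, asm_mul_a]
        show asm true _ _ * _ = _
        rw [asm_true_mul_k]
        simp
    · cases s with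
      | false =>
        obtain ⟨O'', hP'', hO''⟩ := hPO.pend τ (K4.th x)
        refine ⟨true, σ, K4.al x, rE, _, hE, _, OE, O'', hPE, hP'', ?_, ?_, ?_⟩
        · have h2 := K4.contr x
          split_ifs at * <;> omega
        · have : g 1 = 2 * ap σ (hO (ap τ 0)) + 1 := by
            have := asmF_false_odd (⇑hE) (⇑(ap σ * hO * ap τ)) 0
            rw [hg, asm_apply]
            simpa using this
          rw [this, hO', hO'', dblO_insert]
          ext z; simp only [Finset.mem_insert, Finset.mem_union]; tauto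
        · rw [hg, asm_mul_a]
          show asm true _ _ * _ = _
          rw [asm_true_mul_k]
          simp [mul_assoc]
      | true =>
        obtain ⟨O'', hP'', hO''⟩ := hPE.pend τ (K4.th x)
        refine ⟨false, σ, K4.al x, _, rO, _, hO, O'', OO, hP'', hPO, ?_, ?_, ?_⟩
        · have h2 := K4.contr x
          split_ifs at * <;> omega
        · have : g 1 = 2 * (hE (ap τ 0)) := by
            have := asmF_true_odd (⇑(hE * ap τ)) (⇑(ap σ * hO)) 0
            rw [hg, asm_apply]
            simpa using this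
          rw [this, hO', hO'', dblE_insert]
          ext z; simp only [Finset.mem_insert, Finset.mem_union]; tauto
        · rw [hg, asm_mul_a]
          show asm false _ _ * _ = _
          rw [asm_false_mul_k]
          simp [mul_assoc]




theorem card_dbl (σ : Bool) (OE OO : Finset ℕ) :
    (dblE OE ∪ dblO σ OO).card = OE.card + OO.card := by
  rw [Finset.card_union_of_disjoint]
  · congr 1
    · exact Finset.card_image_of_injective _ (fun x y h => by simpa using h)
    · refine Finset.card_image_of_injective _ (fun x y h => ?_)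
      have : ap σ x = ap σ y := by
        have h' : 2 * ap σ x + 1 = 2 * ap σ y + 1 := h
        omega
      exact (ap σ).injective this
  · rw [Finset.disjoint_left]
    intro z hz hz'
    simp only [dblE, dblO, Finset.mem_image] at hz hz'
    obtain ⟨u, _, hu⟩ := hz
    obtain ⟨v, _, hv⟩ := hz'
    omega

/-- assembling pairs -/
noncomputable def Phi (s σ τ : Bool) (p q : Finset ℕ × Equiv.Perm ℕ) :
    Finset ℕ × Equiv.Perm ℕ :=
  (dblE p.1 ∪ dblO σ q.1,
    asm s (if s then p.2 * ap τ else p.2) (if s then ap σ * q.2 else ap σ * q.2 * ap τ))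

theorem few_finite (m : ℕ) :
    {p : Finset ℕ × Equiv.Perm ℕ | p.1.card ≤ m ∧ ∃ r, P r p.2 p.1}.Finite := by
  induction m with
  | zero =>
    convert Set.finite_empty
    ext ⟨O, g⟩
    simp only [Set.mem_ofPred_eq, Set.mem_empty_iff_false, iff_false, not_and, not_exists]
    intro h r hP
    have := hP.mem
    rw [Nat.le_zero, Finset.card_eq_zero] at h
    rw [h] at this
    simp at this
  | succ m ih =>
    set F := {p : Finset ℕ × Equiv.Perm ℕ | p.1.card ≤ m ∧ ∃ r, P r p.2 p.1} with hF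
    have h1 : (Set.range (fun x : K4 => (({0} : Finset ℕ), kP x))).Finite := Set.finite_range _
    have h2 : (⋃ (s : Bool) (σ : Bool) (τ : Bool),
        (fun pq : (Finset ℕ × Equiv.Perm ℕ) × (Finset ℕ × Equiv.Perm ℕ) =>
          Phi s σ τ pq.1 pq.2) '' (F ×ˢ F)).Finite := by
      refine Set.finite_iUnion fun s => Set.finite_iUnion fun σ => Set.finite_iUnion fun τ => ?_
      exact (ih.prod ih).image _
    refine (h1.union h2).subset ?_
    rintro ⟨O, g⟩ ⟨hc, r, hP⟩
    obtain ⟨r', _, hA⟩ := hP.alt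
    rcases hA.decomp with ⟨x, hx, hO, _⟩ | ⟨s, σ, τ, rE, rO, hE, hO, OE, OO, hPE, hPO, hw, hO', hg⟩
    · left
      exact ⟨x, by simp only at hx hO; rw [hx, hO]⟩
    · right
      simp only [Set.mem_iUnion, Set.mem_image, Set.mem_prod, Prod.exists]
      have hcE : 0 < OE.card := Finset.card_pos.mpr ⟨_, hPE.mem⟩
      have hcO : 0 < OO.card := Finset.card_pos.mpr ⟨_, hPO.mem⟩
      have hcc := card_dbl σ OE OO
      simp only at hO' hg hc
      rw [hO', hcc] at hc
      refine ⟨s, σ, τ, OE, hE, OO, hO, ⟨⟨by show OE.card ≤ m; omega, rE, hPE⟩,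
        ⟨by show OO.card ≤ m; omega, rO, hPO⟩⟩, ?_⟩
      simp only [Phi]
      rw [hO', hg]

theorem sites_step (A : ℝ) (hA : 0 ≤ A)
    (h : ∃ B : ℝ, ∀ r g O, P r g O → (O.card : ℝ) ≤ A * r + B) :
    ∃ B : ℝ, ∀ r g O, P r g O → (O.card : ℝ) ≤ (5 / 6 * A) * r + B := by
  obtain ⟨B, hB⟩ := h
  refine ⟨max 1 (5 / 2 * A + 2 * B), fun r g O hP => ?_⟩
  obtain ⟨r', hr', hAl⟩ := hP.alt
  have hr'' : (r' : ℝ) ≤ r := by exact_mod_cast hr'
  rcases hAl.decomp with ⟨x, hx, hO, _⟩ | ⟨s, σ, τ, rE, rO, hE, hO, OE, OO, hPE, hPO, hw, hO', hg⟩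
  · rw [hO]
    simp only [Finset.card_singleton, Nat.cast_one]
    have := le_max_left (1 : ℝ) (5 / 2 * A + 2 * B)
    have h0 : 0 ≤ 5 / 6 * A * r := by positivity
    linarith
  · rw [hO', card_dbl]
    have h1 := hB _ _ _ hPE
    have h2 := hB _ _ _ hPO
    have h3 : 6 * ((rE : ℝ) + rO) ≤ 5 * (r' + 3) := by
      have : 6 * (rE + rO) ≤ 5 * (r' + 3) := by split_ifs at hw <;> omega
      exact_mod_cast this
    have h4 : A * ((rE : ℝ) + rO) ≤ A * (5 / 6 * (r + 3)) := by
      apply mul_le_mul_of_nonneg_left _ hA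
      linarith
    have := le_max_right (1 : ℝ) (5 / 2 * A + 2 * B)
    push_cast
    nlinarith

theorem sites_sublinear (ε : ℝ) (hε : 0 < ε) :
    ∃ B : ℝ, ∀ r g O, P r g O → (O.card : ℝ) ≤ ε * r + B := by
  have key : ∀ i : ℕ, ∃ B : ℝ, ∀ r g O, P r g O → (O.card : ℝ) ≤ (5 / 6 : ℝ) ^ i * r + B := by
    intro i
    induction i with
    | zero =>
      refine ⟨1, fun r g O hP => ?_⟩
      have : O.card ≤ r + 1 := by
        induction hP with
        | one => simp
        | kstep r g O x h ih => omega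
        | astep r g O h ih =>
          have := Finset.card_insert_le (g 1) O
          omega
      simp only [pow_zero, one_mul]
      exact_mod_cast this
    | succ i ih =>
      have := sites_step _ (by positivity) ih
      simpa [pow_succ, mul_comm] using this
  obtain ⟨i, hi⟩ := exists_pow_lt_of_lt_one hε (show (5 / 6 : ℝ) < 1 by norm_num)
  obtain ⟨B, hB⟩ := key i
  refine ⟨B, fun r g O hP => (hB r g O hP).trans ?_⟩
  have : (5 / 6 : ℝ) ^ i * r ≤ ε * r := mul_le_mul_of_nonneg_right hi.le (Nat.cast_nonneg r)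
  linarith

/-- reachable pairs (subset of the sites, value) with weight at most r -/
def RS (r : ℕ) : Set (Finset ℕ × Equiv.Perm ℕ) :=
  {p | ∃ r' ≤ r, ∃ O, p.1 ⊆ O ∧ P r' p.2 O}

theorem RS_mono {r r' : ℕ} (h : r ≤ r') : RS r ⊆ RS r' := by
  rintro p ⟨k, hk, O, hO⟩
  exact ⟨k, hk.trans h, O, hO⟩

theorem P.last {r : ℕ} {g : Equiv.Perm ℕ} {O : Finset ℕ} (h : P r g O) :
    (r = 0 ∧ g = 1 ∧ O = {0}) ∨
    (∃ r' < r, ∃ g' x, P r' g' O ∧ g = g' * kP x) ∨
    (∃ r' < r, ∃ g' O', P r' g' O' ∧ g = g' * aP ∧ O = insert (g' 1) O') := by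
  induction h with
  | one => left; simp
  | kstep r g O x h ih =>
    by_cases hx : x = K4.e
    · subst hx
      simpa [kP_e, K4.wt] using ih
    · right; left
      refine ⟨r, ?_, g, x, h, rfl⟩
      have : 0 < K4.wt x := by cases x <;> simp_all [K4.wt]
      omega
  | astep r g O h ih =>
    right; right
    exact ⟨r, by omega, g, O, h, rfl, rfl⟩

theorem RS_zero_subset : RS 0 ⊆ {((∅ : Finset ℕ), (1 : Equiv.Perm ℕ)), ({0}, 1)} := by
  rintro ⟨Y, g⟩ ⟨r', hr', O, hY, hP⟩
  rcases hP.last with ⟨_, hg, hO⟩ | ⟨k, hk, _⟩ | ⟨k, hk, _⟩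
  · simp only at hg hY
    rw [hO] at hY
    rcases Finset.subset_singleton_iff.mp hY with h | h
    · left; rw [h, hg]
    · right; rw [h, hg]; rfl
  · omega
  · omega

theorem RS_succ_subset (r : ℕ) :
    RS (r + 1) ⊆ RS r ∪ ((fun q : (Finset ℕ × Equiv.Perm ℕ) × K4 => (q.1.1, q.1.2 * kP q.2)) ''
        (RS r ×ˢ Set.univ)) ∪
      ((fun q : (Finset ℕ × Equiv.Perm ℕ) × Bool =>
        (if q.2 then insert (q.1.2 1) q.1.1 else q.1.1, q.1.2 * aP)) ''
        (RS r ×ˢ Set.univ)) := by
  rintro ⟨Y, g⟩ ⟨r', hr', O, hY, hP⟩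
  simp only at hY hP
  rcases hP.last with ⟨h0, hg, hO⟩ | ⟨k, hk, g', x, hP', hg⟩ | ⟨k, hk, g', O', hP', hg, hO⟩
  · left; left
    exact ⟨r', by omega, O, hY, hP⟩
  · left; right
    exact ⟨((Y, g'), x), ⟨⟨k, by omega, O, hY, hP'⟩, trivial⟩, by simp [hg]⟩
  · right
    by_cases hm : g' 1 ∈ Y
    · refine ⟨((Y.erase (g' 1), g'), true), ⟨⟨k, by omega, O', ?_, hP'⟩, trivial⟩, ?_⟩
      · intro z hz
        simp only [Finset.mem_erase] at hz
        have := hY hz.2
        rw [hO, Finset.mem_insert] at this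
        tauto
      · simp [hg, Finset.insert_erase hm]
    · refine ⟨((Y, g'), false), ⟨⟨k, by omega, O', ?_, hP'⟩, trivial⟩, ?_⟩
      · intro z hz
        simp only at hz
        have := hY hz
        rw [hO, Finset.mem_insert] at this
        rcases this with h | h
        · rw [h] at hz; contradiction
        · exact h
      · simp [hg]

theorem RS_finite (r : ℕ) : (RS r).Finite := by
  induction r with
  | zero => exact Set.Finite.subset (by simp) RS_zero_subset
  | succ r ih =>
    refine Set.Finite.subset ?_ (RS_succ_subset r)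
    exact (ih.union ((ih.prod Set.finite_univ).image _)).union
      ((ih.prod Set.finite_univ).image _)

theorem RS_card (r : ℕ) : (RS r).ncard ≤ 2 * 7 ^ r := by
  induction r with
  | zero =>
    refine (Set.ncard_le_ncard RS_zero_subset (by simp)).trans ?_
    exact (Set.ncard_insert_le _ _).trans (by simp)
  | succ r ih =>
    have hf := RS_finite r
    refine (Set.ncard_le_ncard (RS_succ_subset r) ?_).trans ?_
    · exact (hf.union ((hf.prod Set.finite_univ).image _)).union
        ((hf.prod Set.finite_univ).image _)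
    · refine (Set.ncard_union_le _ _).trans ?_
      have h1 := Set.ncard_union_le (RS r) ((fun q : (Finset ℕ × Equiv.Perm ℕ) × K4 =>
        (q.1.1, q.1.2 * kP q.2)) '' (RS r ×ˢ Set.univ))
      have h2 : ((fun q : (Finset ℕ × Equiv.Perm ℕ) × K4 =>
        (q.1.1, q.1.2 * kP q.2)) '' (RS r ×ˢ Set.univ)).ncard ≤ (RS r).ncard * 4 := by
        refine (Set.ncard_image_le (hf.prod Set.finite_univ)).trans ?_
        rw [Set.ncard_prod, Set.ncard_univ]
        have : Nat.card K4 = 4 := by rw [Nat.card_eq_fintype_card]; rfl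
        rw [this]
      have h3 : ((fun q : (Finset ℕ × Equiv.Perm ℕ) × Bool =>
        (if q.2 then insert (q.1.2 1) q.1.1 else q.1.1, q.1.2 * aP)) ''
        (RS r ×ˢ Set.univ)).ncard ≤ (RS r).ncard * 2 := by
        refine (Set.ncard_image_le (hf.prod Set.finite_univ)).trans ?_
        rw [Set.ncard_prod, Set.ncard_univ]
        have : Nat.card Bool = 2 := by rw [Nat.card_eq_fintype_card]; rfl
        rw [this]
      calc _ ≤ _ := Nat.add_le_add h1 h3
        _ ≤ (RS r).ncard + (RS r).ncard * 4 + (RS r).ncard * 2 := by omega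
        _ = 7 * (RS r).ncard := by ring
        _ ≤ 7 * (2 * 7 ^ r) := Nat.mul_le_mul_left _ ih
        _ = 2 * 7 ^ (r + 1) := by ring




open Classical in
/-- the reachable pairs as a finset -/
noncomputable def RF (r : ℕ) : Finset (Finset ℕ × Equiv.Perm ℕ) := (RS_finite r).toFinset

theorem mem_RF {r : ℕ} {p : Finset ℕ × Equiv.Perm ℕ} : p ∈ RF r ↔ p ∈ RS r := by
  simp [RF]

theorem RF_card (r : ℕ) : (RF r).card ≤ 2 * 7 ^ r := by
  have := RS_card r
  rwa [Set.ncard_eq_toFinset_card _ (RS_finite r)] at this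

/-- admissible pairs of weights -/
def prs (r : ℕ) : Finset (ℕ × ℕ) :=
  ((Finset.range (r + 4)) ×ˢ (Finset.range (r + 4))).filter
    (fun q => 6 * (q.1 + q.2) ≤ 5 * (r + 3))

theorem RF_rec (r : ℕ) :
    (RF r).card ≤ 8 + ∑ q ∈ prs r, 8 * ((RF q.1).card * (RF q.2).card) := by
  classical
  set Bf : Finset (Finset ℕ × Equiv.Perm ℕ) :=
    (Finset.univ : Finset (Bool × K4)).image
      (fun q => (if q.1 then {0} else ∅, kP q.2)) with hBf
  set Cf : Finset (Finset ℕ × Equiv.Perm ℕ) :=
    (prs r).biUnion (fun q => (Finset.univ : Finset (Bool × Bool × Bool)).biUnion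
      (fun b => (RF q.1 ×ˢ RF q.2).image (fun pq => Phi b.1 b.2.1 b.2.2 pq.1 pq.2))) with hCf
  have hsub : RF r ⊆ Bf ∪ Cf := by
    rintro ⟨Y, g⟩ hm
    rw [mem_RF] at hm
    obtain ⟨r', hr', O, hY, hP⟩ := hm
    simp only at hY hP
    obtain ⟨r'', hr'', hA⟩ := hP.alt
    rw [Finset.mem_union]
    rcases hA.decomp with ⟨x, hx, hO, _⟩ |
      ⟨s, σ, τ, rE, rO, hE, hO, OE, OO, hPE, hPO, hw, hO', hg⟩
    · left
      rw [hBf, Finset.mem_image]
      rw [hO] at hY
      rcases Finset.subset_singleton_iff.mp hY with h | h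
      · exact ⟨(false, x), Finset.mem_univ _, by simp [h, hx]⟩
      · exact ⟨(true, x), Finset.mem_univ _, by simp [h, hx]⟩
    · right
      have hw' : 6 * (rE + rO) ≤ 5 * (r + 3) := by split_ifs at hw <;> omega
      rw [hCf, Finset.mem_biUnion]
      refine ⟨(rE, rO), ?_, ?_⟩
      · simp only [prs, Finset.mem_filter, Finset.mem_product, Finset.mem_range]
        refine ⟨⟨?_, ?_⟩, hw'⟩ <;> omega
      · rw [Finset.mem_biUnion]
        refine ⟨(s, σ, τ), Finset.mem_univ _, ?_⟩
        rw [Finset.mem_image]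
        refine ⟨((OE.filter (fun m => 2 * m ∈ Y), hE),
          (OO.filter (fun m => 2 * ap σ m + 1 ∈ Y), hO)), ?_, ?_⟩
        · rw [Finset.mem_product]
          refine ⟨mem_RF.mpr ⟨rE, le_refl _, OE, Finset.filter_subset _ _, hPE⟩,
            mem_RF.mpr ⟨rO, le_refl _, OO, Finset.filter_subset _ _, hPO⟩⟩
        · simp only [Phi]
          rw [hg]
          congr 1
          ext z
          simp only [dblE, dblO, Finset.mem_union, Finset.mem_image, Finset.mem_filter]
          constructor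
          · rintro (⟨m, ⟨_, h⟩, rfl⟩ | ⟨m, ⟨_, h⟩, rfl⟩) <;> exact h
          · intro hz
            have h1 := hY hz
            rw [hO'] at h1
            simp only [dblE, dblO, Finset.mem_union, Finset.mem_image] at h1
            rcases h1 with ⟨m, h, rfl⟩ | ⟨m, h, rfl⟩
            · exact Or.inl ⟨m, ⟨h, hz⟩, rfl⟩
            · exact Or.inr ⟨m, ⟨h, hz⟩, rfl⟩
  refine (Finset.card_le_card hsub).trans ((Finset.card_union_le _ _).trans ?_)
  refine Nat.add_le_add ?_ ?_
  · refine Finset.card_image_le.trans ?_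
    rw [Finset.card_univ]
    decide
  · refine Finset.card_biUnion_le.trans (Finset.sum_le_sum fun q _ => ?_)
    refine Finset.card_biUnion_le.trans ?_
    refine (Finset.sum_le_card_nsmul _ _ ((RF q.1).card * (RF q.2).card) ?_).trans ?_
    · intro b _
      refine Finset.card_image_le.trans ?_
      rw [Finset.card_product]
    · rw [Finset.card_univ]
      simp

theorem RF_step (t : ℝ) (ht : 0 < t)
    (h : ∃ A : ℝ, ∀ r : ℕ, ((RF r).card : ℝ) ≤ A * Real.exp (t * r)) :
    ∃ A : ℝ, ∀ r : ℕ, ((RF r).card : ℝ) ≤ A * Real.exp ((11 / 12 * t) * r) := by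
  obtain ⟨A, hA⟩ := h
  have hA0 : 0 ≤ A := by
    have := hA 0
    simp only [Nat.cast_zero, mul_zero, Real.exp_zero, mul_one] at this
    exact (Nat.cast_nonneg _).trans this
  -- (r+4)^2 ≤ (288/t^2) exp(t (r+4)/12)
  have hsq : ∀ r : ℕ, ((r : ℝ) + 4) ^ 2 ≤ 288 / t ^ 2 * Real.exp (t * (r + 4) / 12) := by
    intro r
    have h1 : (t * ((r : ℝ) + 4) / 12) ^ 2 / 2 ≤ Real.exp (t * (r + 4) / 12) := by
      have h0 : 0 ≤ t * ((r : ℝ) + 4) / 12 := by positivity
      have := Real.quadratic_le_exp_of_nonneg h0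
      linarith
    have h2 : ((r : ℝ) + 4) ^ 2 = 288 / t ^ 2 * ((t * ((r : ℝ) + 4) / 12) ^ 2 / 2) := by
      field_simp
      ring
    rw [h2]
    exact mul_le_mul_of_nonneg_left h1 (by positivity)
  refine ⟨8 + 8 * A ^ 2 * (288 / t ^ 2) * Real.exp (3 * t), fun r => ?_⟩
  have hrec : ((RF r).card : ℝ) ≤
      8 + ∑ q ∈ prs r, 8 * (((RF q.1).card : ℝ) * ((RF q.2).card : ℝ)) := by
    exact_mod_cast RF_rec r
  have hterm : ∀ q ∈ prs r, 8 * (((RF q.1).card : ℝ) * ((RF q.2).card : ℝ)) ≤
      8 * A ^ 2 * Real.exp (t * (5 / 6 * (r + 3))) := by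
    intro q hq
    simp only [prs, Finset.mem_filter] at hq
    have h1 := hA q.1
    have h2 := hA q.2
    have h3 : ((RF q.1).card : ℝ) * ((RF q.2).card : ℝ) ≤
        (A * Real.exp (t * q.1)) * (A * Real.exp (t * q.2)) :=
      mul_le_mul h1 h2 (Nat.cast_nonneg _) ((Nat.cast_nonneg _).trans h1)
    have h4 : (A * Real.exp (t * q.1)) * (A * Real.exp (t * q.2)) =
        A ^ 2 * Real.exp (t * (q.1 + q.2)) := by
      rw [mul_add, Real.exp_add]; ring
    have h5 : Real.exp (t * (q.1 + q.2)) ≤ Real.exp (t * (5 / 6 * (r + 3))) := by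
      apply Real.exp_le_exp.mpr
      apply mul_le_mul_of_nonneg_left _ ht.le
      have : 6 * ((q.1 : ℝ) + q.2) ≤ 5 * (r + 3) := by exact_mod_cast hq.2
      linarith
    calc 8 * (((RF q.1).card : ℝ) * ((RF q.2).card : ℝ))
        ≤ 8 * (A ^ 2 * Real.exp (t * (q.1 + q.2))) := by rw [← h4]; linarith
      _ ≤ 8 * (A ^ 2 * Real.exp (t * (5 / 6 * (r + 3)))) := by
        apply mul_le_mul_of_nonneg_left _ (by norm_num)
        exact mul_le_mul_of_nonneg_left h5 (by positivity)
      _ = _ := by ring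
  have hcard : ((prs r).card : ℝ) ≤ ((r : ℝ) + 4) ^ 2 := by
    have : (prs r).card ≤ (r + 4) * (r + 4) := by
      refine (Finset.card_filter_le _ _).trans ?_
      rw [Finset.card_product]; simp
    have h' : ((prs r).card : ℝ) ≤ ((r : ℝ) + 4) * ((r : ℝ) + 4) := by exact_mod_cast this
    rw [sq]; exact h'
  have hsum : ∑ q ∈ prs r, 8 * (((RF q.1).card : ℝ) * ((RF q.2).card : ℝ)) ≤
      ((r : ℝ) + 4) ^ 2 * (8 * A ^ 2 * Real.exp (t * (5 / 6 * (r + 3)))) := by
    refine (Finset.sum_le_card_nsmul _ _ _ hterm).trans ?_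
    rw [nsmul_eq_mul]
    exact mul_le_mul_of_nonneg_right hcard (by positivity)
  have hfin : ((r : ℝ) + 4) ^ 2 * (8 * A ^ 2 * Real.exp (t * (5 / 6 * (r + 3)))) ≤
      8 * A ^ 2 * (288 / t ^ 2) * Real.exp (3 * t) * Real.exp ((11 / 12 * t) * r) := by
    calc ((r : ℝ) + 4) ^ 2 * (8 * A ^ 2 * Real.exp (t * (5 / 6 * (r + 3))))
        ≤ (288 / t ^ 2 * Real.exp (t * (r + 4) / 12)) *
            (8 * A ^ 2 * Real.exp (t * (5 / 6 * (r + 3)))) :=
          mul_le_mul_of_nonneg_right (hsq r) (by positivity)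
      _ = 8 * A ^ 2 * (288 / t ^ 2) *
            (Real.exp (t * (r + 4) / 12) * Real.exp (t * (5 / 6 * (r + 3)))) := by ring
      _ ≤ 8 * A ^ 2 * (288 / t ^ 2) * (Real.exp (3 * t) * Real.exp ((11 / 12 * t) * r)) := by
          apply mul_le_mul_of_nonneg_left _ (by positivity)
          rw [← Real.exp_add, ← Real.exp_add]
          apply Real.exp_le_exp.mpr
          nlinarith
      _ = _ := by ring
  have h8 : (8 : ℝ) ≤ 8 * Real.exp ((11 / 12 * t) * r) := by
    have : 1 ≤ Real.exp ((11 / 12 * t) * r) := Real.one_le_exp (by positivity)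
    linarith
  calc ((RF r).card : ℝ) ≤ 8 + ((r : ℝ) + 4) ^ 2 * (8 * A ^ 2 * Real.exp (t * (5 / 6 * (r + 3)))) := by
        linarith
    _ ≤ 8 * Real.exp ((11 / 12 * t) * r) +
        8 * A ^ 2 * (288 / t ^ 2) * Real.exp (3 * t) * Real.exp ((11 / 12 * t) * r) := by
        linarith
    _ = _ := by ring

theorem RF_subexp (t : ℝ) (ht : 0 < t) :
    ∃ A : ℝ, ∀ r : ℕ, ((RF r).card : ℝ) ≤ A * Real.exp (t * r) := by
  have key : ∀ i : ℕ, ∃ A : ℝ, ∀ r : ℕ,
      ((RF r).card : ℝ) ≤ A * Real.exp (((11 / 12 : ℝ) ^ i * Real.log 7) * r) := by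
    intro i
    induction i with
    | zero =>
      refine ⟨2, fun r => ?_⟩
      have h1 : ((RF r).card : ℝ) ≤ 2 * 7 ^ r := by exact_mod_cast RF_card r
      have h2 : Real.exp ((11 / 12 : ℝ) ^ 0 * Real.log 7 * r) = 7 ^ r := by
        rw [pow_zero, one_mul, mul_comm, Real.exp_nat_mul, Real.exp_log (by norm_num)]
      rw [h2]; exact h1
    | succ i ih =>
      have := RF_step ((11 / 12 : ℝ) ^ i * Real.log 7)
        (by have := Real.log_pos (show (1 : ℝ) < 7 by norm_num); positivity) ih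
      obtain ⟨A, hA⟩ := this
      refine ⟨A, fun r => ?_⟩
      have h := hA r
      have : (11 / 12 : ℝ) ^ (i + 1) * Real.log 7 = 11 / 12 * ((11 / 12 : ℝ) ^ i * Real.log 7) := by
        rw [pow_succ]; ring
      rw [this]; exact h
  have hlog := Real.log_pos (show (1 : ℝ) < 7 by norm_num)
  obtain ⟨i, hi⟩ := exists_pow_lt_of_lt_one (show 0 < t / Real.log 7 by positivity)
    (show (11 / 12 : ℝ) < 1 by norm_num)
  obtain ⟨A, hA⟩ := key i
  have hA0 : 0 ≤ A := by
    have := hA 0
    simp only [Nat.cast_zero, mul_zero, Real.exp_zero, mul_one] at this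
    exact (Nat.cast_nonneg _).trans this
  refine ⟨A, fun r => (hA r).trans ?_⟩
  apply mul_le_mul_of_nonneg_left _ hA0
  apply Real.exp_le_exp.mpr
  apply mul_le_mul_of_nonneg_right _ (Nat.cast_nonneg r)
  rw [lt_div_iff₀ hlog] at hi
  exact hi.le




/-- unit length paths -/
inductive U : ℕ → Equiv.Perm ℕ → Finset ℕ → Prop
  | one : U 0 1 {0}
  | kstep (n : ℕ) (g : Equiv.Perm ℕ) (O : Finset ℕ) (x : K4) :
      U n g O → U (n + 1) (g * kP x) O
  | astep (n : ℕ) (g : Equiv.Perm ℕ) (O : Finset ℕ) :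
      U n g O → U (n + 1) (g * aP) (insert (g 1) O)

theorem U.mem {n : ℕ} {g : Equiv.Perm ℕ} {O : Finset ℕ} (h : U n g O) : g 0 ∈ O := by
  induction h with
  | one => simp
  | kstep r g O x h ih => simpa [klN_zero] using ih
  | astep r g O h ih => simp [aN_zero]

theorem U.toP {n : ℕ} {g : Equiv.Perm ℕ} {O : Finset ℕ} (h : U n g O) :
    ∃ r ≤ 3 * n, P r g O := by
  induction h with
  | one => exact ⟨0, le_refl _, P.one⟩
  | kstep n g O x h ih =>
    obtain ⟨r, hr, hP⟩ := ih
    refine ⟨_, ?_, P.kstep r g O x hP⟩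
    have : K4.wt x ≤ 3 := by cases x <;> decide
    omega
  | astep n g O h ih =>
    obtain ⟨r, hr, hP⟩ := ih
    exact ⟨_, by omega, P.astep r g O hP⟩

/-- reachable permutations -/
def Reach (g : Equiv.Perm ℕ) : Prop := ∃ n O, U n g O

theorem Reach.mul {g h : Equiv.Perm ℕ} (hg : Reach g) (hh : Reach h) : Reach (g * h) := by
  obtain ⟨n, O, hU⟩ := hh
  induction hU with
  | one => simpa using hg
  | kstep n h O x _ ih =>
    obtain ⟨m, O', h'⟩ := ih
    exact ⟨_, _, by rw [← mul_assoc]; exact U.kstep _ _ _ x h'⟩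
  | astep n h O _ ih =>
    obtain ⟨m, O', h'⟩ := ih
    exact ⟨_, _, by rw [← mul_assoc]; exact U.astep _ _ _ h'⟩

theorem reach_a : Reach aP := ⟨_, _, by simpa using U.astep 0 1 {0} U.one⟩

theorem reach_lift {h : Equiv.Perm ℕ} (hh : Reach h) : ∃ gO, Reach (asm false h gO) := by
  obtain ⟨n, O, hU⟩ := hh
  induction hU with
  | one =>
    refine ⟨1, 0, {0}, ?_⟩
    have : asm false 1 1 = 1 := by
      have := kP_eq_asm K4.e
      rw [kP_e] at this
      simpa [K4.th, K4.al, kP_e, ap] using this.symm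
    rw [this]; exact U.one
  | kstep n h O x _ ih =>
    obtain ⟨gO, m, O', h'⟩ := ih
    obtain ⟨y, hy⟩ : ∃ y, K4.th y = x := by
      cases x
      · exact ⟨K4.e, rfl⟩
      · exact ⟨K4.d, rfl⟩
      · exact ⟨K4.b, rfl⟩
      · exact ⟨K4.c, rfl⟩
    refine ⟨gO * ap (K4.al y), m + 1, O', ?_⟩
    rw [← hy, ← asm_false_mul_k]
    exact U.kstep _ _ _ y h'
  | astep n h O _ ih =>
    obtain ⟨gO, m, O', h'⟩ := ih
    refine ⟨gO * kP K4.d, ?_⟩
    have : asm false (h * aP) (gO * kP K4.d) = asm false h gO * aP * kP K4.c * aP := by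
      rw [asm_mul_a]
      show _ = asm true h gO * _ * _
      rw [asm_true_mul_k, asm_mul_a]
      rfl
    rw [this]
    exact ⟨_, _, U.astep _ _ _ (U.kstep _ _ _ _ (U.astep _ _ _ h'))⟩

theorem transitive (y : ℕ) : ∃ g, Reach g ∧ g 0 = y := by
  induction y using Nat.strong_induction_on with
  | _ y ih =>
    rcases Nat.even_or_odd' y with ⟨m, rfl | rfl⟩
    · rcases Nat.eq_zero_or_pos m with rfl | hm
      · exact ⟨1, ⟨0, {0}, U.one⟩, rfl⟩
      · obtain ⟨h, hh, h0⟩ := ih m (by omega)
        obtain ⟨gO, hg⟩ := reach_lift hh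
        refine ⟨_, hg, ?_⟩
        have := asmF_false_even (⇑h) (⇑gO) 0
        rw [asm_apply]
        rw [← h0]; simpa using this
    · obtain ⟨h, hh, h0⟩ := ih m (by omega)
      obtain ⟨gO, hg⟩ := reach_lift hh
      refine ⟨aP * asm false h gO, reach_a.mul hg, ?_⟩
      have := asmF_false_even (⇑h) (⇑gO) 0
      rw [Equiv.Perm.mul_apply, asm_apply]
      simp only [mul_zero] at this
      rw [this, h0, aP_apply, aN_even]

end Pool.Agent.Helper455.KZ
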