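import Pool.Agent.Helper455.KZ.Hilb

set_option autoImplicit false

open scoped InnerProductSpace

namespace Pool.Agent.Helper455.KZ

variable {H : Type*} [NormedAddCommGroup H] [InnerProductSpace ℂ H]

/-- a unitary representation of a finite additive group -/
structure URep {K : Type*} [AddCommGroup K] (U : K → (H →L[ℂ] H)) : Prop where
  zero : ∀ x, U 0 x = x
  add : ∀ a b x, U (a + b) x = U a (U b x)
  inner : ∀ a x y, ⟪U a x, U a y⟫_ℂ = ⟪x, y⟫_ℂ

variable {K : Type*} [AddCommGroup K] [Fintype K]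

/-- averaging -/
noncomputable def avg (U : K → (H →L[ℂ] H)) : H → H :=
  fun x => ((Fintype.card K : ℂ)⁻¹) • ∑ a, U a x

theorem cardK_ne : (Fintype.card K : ℂ) ≠ 0 := by
  have : 0 < Fintype.card K := Fintype.card_pos_iff.mpr ⟨0⟩
  exact_mod_cast this.ne'

variable {U : K → (H →L[ℂ] H)}

theorem URep.inner_left (h : URep U) (a : K) (x y : H) : ⟪U a x, y⟫_ℂ = ⟪x, U (-a) y⟫_ℂ := by
  rw [← h.inner (-a) (U a x) y, ← h.add, neg_add_cancel, h.zero]

theorem URep.fix_avg (h : URep U) (b : K) (x : H) : U b (avg U x) = avg U x := by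
  simp only [avg, map_smul, map_sum]
  congr 1
  rw [← Equiv.sum_comp (Equiv.addLeft b) (fun a => U a x)]
  refine Finset.sum_congr rfl fun a _ => ?_
  rw [Equiv.coe_addLeft, h.add]

theorem avg_of_fix (x : H) (hx : ∀ a, U a x = x) : avg U x = x := by
  simp only [avg, hx, Finset.sum_const, Finset.card_univ]
  rw [← Nat.cast_smul_eq_nsmul ℂ, smul_smul, inv_mul_cancel₀ cardK_ne, one_smul]

theorem URep.avg_proj (h : URep U) : Proj (avg U) where
  add x y := by simp only [avg, map_add, Finset.sum_add_distrib, smul_add]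
  sub x y := by simp only [avg, map_sub, Finset.sum_sub_distrib, smul_sub]
  sym x y := by
    simp only [avg, inner_smul_left, inner_smul_right, sum_inner, inner_sum, map_inv₀, map_natCast]
    congr 1
    rw [← Equiv.sum_comp (Equiv.neg K) (fun a => ⟪x, U a y⟫_ℂ)]
    refine Finset.sum_congr rfl fun a _ => ?_
    rw [h.inner_left]; rfl
  idem x := avg_of_fix _ (fun a => h.fix_avg a x)

theorem avg_comm (B : H →L[ℂ] H) (hB : ∀ a x, B (U a x) = U a (B x)) (x : H) :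
    B (avg U x) = avg U (B x) := by
  simp only [avg, map_smul, map_sum, hB]

theorem avg_smul (c : ℂ) (x : H) : avg U (c • x) = c • avg U x := by
  simp only [avg, map_smul, ← Finset.smul_sum]
  rw [smul_comm]

theorem URep.norm_map (h : URep U) (a : K) (x : H) : ‖U a x‖ = ‖x‖ := by
  have h1 := h.inner a x x
  rw [inner_self_eq_norm_sq_to_K, inner_self_eq_norm_sq_to_K] at h1
  have h2 : ‖U a x‖ ^ 2 = ‖x‖ ^ 2 := by exact_mod_cast h1
  nlinarith [norm_nonneg (U a x), norm_nonneg x, sq_nonneg (‖U a x‖ - ‖x‖)]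

theorem co_avg_small (x : H) (δ : ℝ) (hx : ∀ a, ‖U a x - x‖ ≤ δ) : ‖co (avg U) x‖ ≤ δ := by
  have hc : (Fintype.card K : ℂ) ≠ 0 := cardK_ne
  have e : co (avg U) x = ((Fintype.card K : ℂ)⁻¹) • ∑ a, (x - U a x) := by
    simp only [co, avg, Finset.sum_sub_distrib, Finset.sum_const, Finset.card_univ, smul_sub]
    rw [← Nat.cast_smul_eq_nsmul ℂ, smul_smul, inv_mul_cancel₀ hc, one_smul]
  rw [e, norm_smul]
  have h1 : ‖∑ a, (x - U a x)‖ ≤ ∑ _a : K, δ := by
    refine (norm_sum_le _ _).trans (Finset.sum_le_sum fun a _ => ?_)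
    rw [norm_sub_rev]; exact hx a
  rw [Finset.sum_const, Finset.card_univ, nsmul_eq_mul] at h1
  have h2 : ‖((Fintype.card K : ℂ)⁻¹)‖ = (Fintype.card K : ℝ)⁻¹ := by
    rw [norm_inv, Complex.norm_natCast]
  rw [h2]
  have hcr : (0 : ℝ) < Fintype.card K := by
    have : 0 < Fintype.card K := Fintype.card_pos_iff.mpr ⟨0⟩
    exact_mod_cast this
  calc (Fintype.card K : ℝ)⁻¹ * ‖∑ a, (x - U a x)‖ ≤ (Fintype.card K : ℝ)⁻¹ * ((Fintype.card K : ℝ) * δ) :=
        mul_le_mul_of_nonneg_left h1 (by positivity)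
    _ = δ := by field_simp

end Pool.Agent.Helper455.KZ

namespace Pool.Agent.Helper455.KZ

variable {H : Type*} [NormedAddCommGroup H] [InnerProductSpace ℂ H]
variable {K : Type*} [Field K] [Fintype K]
variable {U U' Z : K → (H →L[ℂ] H)}

/-- the off diagonal coefficients vanish -/
theorem heis_zero (h : URep U) (h' : URep U') (hZ : URep Z)
    (hrel : ∀ a b x, U a (U' b x) = U' b (U a (Z (a * b) x)))
    (hZU : ∀ a b x, Z a (U b x) = U b (Z a x))
    (y : H) (hy : ∀ b, U' b y = y) (hE : avg Z y = 0) (a : K) (ha : a ≠ 0) :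
    ⟪U a y, y⟫_ℂ = 0 := by
  have h1 : ∀ b, ⟪U a y, y⟫_ℂ = ⟪U a (Z (a * b) y), y⟫_ℂ := by
    intro b
    have e1 : U' b (U a (Z (a * b) y)) = U a y := by rw [← hrel, hy]
    have e2 := h'.inner b (U a (Z (a * b) y)) y
    rw [e1, hy] at e2
    exact e2
  have h2 : ∑ b : K, ⟪U a (Z (a * b) y), y⟫_ℂ = 0 := by
    have e1 : ∑ b : K, ⟪U a (Z (a * b) y), y⟫_ℂ = ⟪U a (∑ b : K, Z b y), y⟫_ℂ := by
      rw [map_sum, sum_inner]
      exact Equiv.sum_comp (Equiv.mulLeft₀ a ha) (fun b => ⟪U a (Z b y), y⟫_ℂ)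
    have e2 : (∑ b : K, Z b y) = 0 := by
      have : ((Fintype.card K : ℂ)⁻¹) • ∑ b : K, Z b y = 0 := hE
      rcases smul_eq_zero.mp this with h | h
      · exact absurd h (inv_ne_zero cardK_ne)
      · exact h
    rw [e1, e2]; simp
  rw [← Finset.sum_congr rfl (fun b _ => h1 b)] at h2
  rw [Finset.sum_const, Finset.card_univ, nsmul_eq_mul] at h2
  rcases mul_eq_zero.mp h2 with h | h
  · exact absurd h cardK_ne
  · exact h

theorem heis_norm (h : URep U) (h' : URep U') (hZ : URep Z)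
    (hrel : ∀ a b x, U a (U' b x) = U' b (U a (Z (a * b) x)))
    (hZU : ∀ a b x, Z a (U b x) = U b (Z a x))
    (y : H) (hy : ∀ b, U' b y = y) (hE : avg Z y = 0) :
    ‖avg U y‖ ^ 2 = ((Fintype.card K : ℝ)⁻¹) * ‖y‖ ^ 2 := by
  have h0 := (h.avg_proj).inner_self y
  have h1 : ⟪avg U y, y⟫_ℂ = ((Fintype.card K : ℂ)⁻¹) * ⟪y, y⟫_ℂ := by
    simp only [avg, inner_smul_left, sum_inner, map_inv₀, map_natCast]
    congr 1
    rw [Finset.sum_eq_single (0 : K)]
    · rw [h.zero]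
    · intro a _ ha
      exact heis_zero h h' hZ hrel hZU y hy hE a ha
    · intro h; exact absurd (Finset.mem_univ _) h
  rw [h0, inner_self_eq_norm_sq_to_K] at h1
  have : (((‖avg U y‖ ^ 2 : ℝ)) : ℂ) = ((((Fintype.card K : ℝ)⁻¹) * ‖y‖ ^ 2 : ℝ) : ℂ) := by
    rw [h1]; push_cast; rfl
  exact_mod_cast this

/-- the pair estimate for a Heisenberg pair -/
theorem heis_pair (h : URep U) (h' : URep U') (hZ : URep Z)
    (hrel : ∀ a b x, U a (U' b x) = U' b (U a (Z (a * b) x)))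
    (hZU : ∀ a b x, Z a (U b x) = U b (Z a x))
    (hZU' : ∀ a b x, Z a (U' b x) = U' b (Z a x))
    (ε : ℝ) (hε : 0 ≤ ε) (hε1 : ε ≤ 1) (hq : (Fintype.card K : ℝ)⁻¹ ≤ ε ^ 2) (v : H) :
    0 ≤ 2 * (⟪co (avg U) v, co (avg U') v⟫_ℂ).re +
      ε * (‖co (avg U) v‖ ^ 2 + ‖co (avg U') v‖ ^ 2) := by
  set P := avg U with hP
  set P' := avg U' with hP'
  set E := avg Z with hEd
  have pP : Proj P := h.avg_proj
  have pP' : Proj P' := h'.avg_proj
  have pE : Proj E := hZ.avg_proj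
  -- E commutes with P and P'
  have hEU : ∀ b x, U b (E x) = E (U b x) := fun b x =>
    avg_comm (U b) (fun a x => (hZU a b x).symm) x
  have hEU' : ∀ b x, U' b (E x) = E (U' b x) := fun b x =>
    avg_comm (U' b) (fun a x => (hZU' a b x).symm) x
  have hEP : ∀ x, P (E x) = E (P x) := by
    intro x
    have e1 : P (E x) = ((Fintype.card K : ℂ)⁻¹) • ∑ b, E (U b x) := by
      simp only [hP, avg, ← hEU]
    have e2 : E (P x) = ((Fintype.card K : ℂ)⁻¹) • ∑ b, E (U b x) := by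
      have : E (P x) = ((Fintype.card K : ℂ)⁻¹) • E (∑ b, U b x) := by
        rw [hP]; simp only [avg]; exact avg_smul _ _
      rw [this]
      congr 1
      simp only [hEd, avg, map_sum]
      rw [Finset.sum_comm, Finset.smul_sum]
    rw [e1, e2]
  have hEP' : ∀ x, P' (E x) = E (P' x) := by
    intro x
    have e1 : P' (E x) = ((Fintype.card K : ℂ)⁻¹) • ∑ b, E (U' b x) := by
      simp only [hP', avg, ← hEU']
    have e2 : E (P' x) = ((Fintype.card K : ℂ)⁻¹) • ∑ b, E (U' b x) := by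
      have : E (P' x) = ((Fintype.card K : ℂ)⁻¹) • E (∑ b, U' b x) := by
        rw [hP']; simp only [avg]; exact avg_smul _ _
      rw [this]
      congr 1
      simp only [hEd, avg, map_sum]
      rw [Finset.sum_comm, Finset.smul_sum]
    rw [e1, e2]
  set v0 := E v with hv0
  set v1 := v - E v with hv1
  have hE0 : E v0 = v0 := pE.idem v
  have hE1 : E v1 = 0 := by rw [hv1, pE.sub, pE.idem, sub_self]
  -- commutation on v0
  have hfix0 : ∀ c, Z c v0 = v0 := fun c => by rw [hv0]; exact hZ.fix_avg c v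
  have hcomm : P (P' v0) = P' (P v0) := by
    have e : ∀ a b, U a (U' b v0) = U' b (U a v0) := by
      intro a b; rw [hrel, hfix0]
    simp only [hP, hP', avg, map_smul, map_sum, e]
    rw [← Finset.smul_sum, ← Finset.smul_sum]
    congr 2
    exact Finset.sum_comm
  have t0 := pair_comm pP pP' v0 hcomm
  -- smallness on v1
  have hEy : E (P' v1) = 0 := by rw [← hEP', hE1, pP'.zero]
  have hn : ‖P (P' v1)‖ ^ 2 = ((Fintype.card K : ℝ)⁻¹) * ‖P' v1‖ ^ 2 :=
    heis_norm h h' hZ hrel hZU (P' v1) (fun b => h'.fix_avg b v1) hEy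
  have hn' : ‖P (P' v1)‖ ≤ ε * ‖P' v1‖ := by
    apply le_of_sq_le_sq _ (by positivity)
    rw [hn, mul_pow]
    exact mul_le_mul_of_nonneg_right hq (by positivity)
  have hsm : ‖⟪P v1, P' v1⟫_ℂ‖ ≤ ε * (‖P v1‖ * ‖P' v1‖) := by
    have e : ⟪P v1, P' v1⟫_ℂ = ⟪P v1, P (P' v1)⟫_ℂ := by
      rw [← pP.sym, pP.idem]
    rw [e]
    refine (norm_inner_le_norm _ _).trans ?_
    calc ‖P v1‖ * ‖P (P' v1)‖ ≤ ‖P v1‖ * (ε * ‖P' v1‖) :=
          mul_le_mul_of_nonneg_left hn' (norm_nonneg _)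
      _ = _ := by ring
  have t1 := pair_small pP pP' ε hε hε1 v1 hsm
  -- decomposition
  have hsum : v = v0 + v1 := by rw [hv0, hv1]; abel
  have q1 : co P v = co P v0 + co P v1 := by
    rw [← pP.co.add, ← hsum]
  have q2 : co P' v = co P' v0 + co P' v1 := by
    rw [← pP'.co.add, ← hsum]
  have a0 : E (co P v0) = co P v0 := by
    simp only [co, pE.sub, ← hEP, hE0]
  have a0' : E (co P' v0) = co P' v0 := by
    simp only [co, pE.sub, ← hEP', hE0]
  have a1 : E (co P v1) = 0 := by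
    simp only [co, pE.sub, ← hEP, hE1, pP.zero, sub_self]
  have a1' : E (co P' v1) = 0 := by
    simp only [co, pE.sub, ← hEP', hE1, pP'.zero, sub_self]
  have orth : ∀ x y : H, E x = x → E y = 0 → ⟪x, y⟫_ℂ = 0 := by
    intro x y hx hy
    rw [← hx, pE.sym, hy, inner_zero_right]
  have orth' : ∀ x y : H, E x = 0 → E y = y → ⟪x, y⟫_ℂ = 0 := by
    intro x y hx hy
    rw [← hy, ← pE.sym, hx, inner_zero_left]
  have i1 : (⟪co P v, co P' v⟫_ℂ).re = (⟪co P v0, co P' v0⟫_ℂ).re + (⟪co P v1, co P' v1⟫_ℂ).re := by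
    rw [q1, q2, inner_add_left, inner_add_right, inner_add_right,
      orth _ _ a0 a1', orth' _ _ a1 a0']
    simp
  have i2 : ‖co P v‖ ^ 2 = ‖co P v0‖ ^ 2 + ‖co P v1‖ ^ 2 := by
    rw [q1, @norm_add_sq ℂ H, orth _ _ a0 a1]
    simp
  have i3 : ‖co P' v‖ ^ 2 = ‖co P' v0‖ ^ 2 + ‖co P' v1‖ ^ 2 := by
    rw [q2, @norm_add_sq ℂ H, orth _ _ a0' a1']
    simp
  rw [i1, i2, i3]
  have : 0 ≤ ε * (‖co P v0‖ ^ 2 + ‖co P' v0‖ ^ 2) := by positivity
  nlinarith

end Pool.Agent.Helper455.KZ
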