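import Mathlib

set_option autoImplicit false

/-!
Hilbert space part: finitely many projections with pairwise small angles have a spectral gap;
lines that commute or form a Heisenberg pair have small angles.
-/

open scoped InnerProductSpace

namespace Pool.Agent.Helper455.KZ

variable {H : Type*} [NormedAddCommGroup H] [InnerProductSpace ℂ H]

/-- a symmetric idempotent operator -/
structure Proj (P : H → H) : Prop where
  add : ∀ x y, P (x + y) = P x + P y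
  sub : ∀ x y, P (x - y) = P x - P y
  sym : ∀ x y, ⟪P x, y⟫_ℂ = ⟪x, P y⟫_ℂ
  idem : ∀ x, P (P x) = P x

namespace Proj

variable {P : H → H}

theorem inner_self (h : Proj P) (x : H) : ⟪P x, x⟫_ℂ = ((‖P x‖ ^ 2 : ℝ) : ℂ) := by
  rw [← h.idem x, h.sym, h.idem x]
  rw [inner_self_eq_norm_sq_to_K]
  norm_cast

theorem re_inner_self (h : Proj P) (x : H) : (⟪P x, x⟫_ℂ).re = ‖P x‖ ^ 2 := by
  rw [h.inner_self]; exact Complex.ofReal_re _

theorem re_inner_self' (h : Proj P) (x : H) : (⟪x, P x⟫_ℂ).re = ‖P x‖ ^ 2 := by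
  rw [← h.sym]; exact h.re_inner_self x

theorem norm_le (h : Proj P) (x : H) : ‖P x‖ ≤ ‖x‖ := by
  have h1 := h.re_inner_self x
  have h2 : (⟪P x, x⟫_ℂ).re ≤ ‖P x‖ * ‖x‖ :=
    (Complex.re_le_norm _).trans (norm_inner_le_norm _ _)
  rw [h1] at h2
  by_cases h0 : ‖P x‖ = 0
  · rw [h0]; exact norm_nonneg _
  · have : 0 < ‖P x‖ := lt_of_le_of_ne (norm_nonneg _) (Ne.symm h0)
    nlinarith

theorem zero (h : Proj P) : P 0 = 0 := by
  have := h.sub 0 0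
  simpa using this

end Proj

/-- complementary projection -/
def co (P : H → H) : H → H := fun x => x - P x

theorem Proj.co {P : H → H} (h : Proj P) : Proj (co P) where
  add x y := by simp only [KZ.co, h.add]; abel
  sub x y := by simp only [KZ.co, h.sub]; abel
  sym x y := by simp only [KZ.co, inner_sub_left, inner_sub_right, h.sym]
  idem x := by simp only [KZ.co, h.sub, h.idem]; abel

/-- the real inequality behind the pair estimate -/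
theorem real_pair (V s ρ ε : ℝ) (hV : 0 ≤ V) (hs : 0 ≤ s) (hε : 0 ≤ ε) (hε1 : ε ≤ 1)
    (h1 : 2 * |ρ| ≤ ε * s) (h2 : s ^ 2 ≤ V ^ 2 * (s + 2 * ρ)) :
    0 ≤ 2 * (V ^ 2 - s + ρ) + ε * (2 * V ^ 2 - s) := by
  have hρ := le_abs_self ρ
  have hρ' := neg_abs_le ρ
  rcases eq_or_lt_of_le hs with h0 | hs'
  · subst h0
    have : |ρ| = 0 := le_antisymm (by nlinarith) (abs_nonneg _)
    have hρ0 : ρ = 0 := abs_eq_zero.mp this
    subst hρ0
    nlinarith [sq_nonneg V]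
  · have hVV : 0 < V ^ 2 := by
      rcases eq_or_lt_of_le (sq_nonneg V) with h | h
      · exfalso
        rw [← h] at h2
        nlinarith
      · exact h
    have h3 : s ≤ (1 + ε) * V ^ 2 := by
      have : s ^ 2 ≤ V ^ 2 * ((1 + ε) * s) := by
        refine h2.trans (mul_le_mul_of_nonneg_left ?_ hVV.le)
        linarith
      have h4 : s * s ≤ ((1 + ε) * V ^ 2) * s := by nlinarith
      exact le_of_mul_le_mul_right h4 hs'
    have h4 : 0 ≤ (2 * V ^ 2 - s) * ((1 + ε) * V ^ 2 - s) := by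
      apply mul_nonneg
      · nlinarith
      · linarith
    have h5 : 0 ≤ V ^ 2 * (2 * (V ^ 2 - s + ρ) + ε * (2 * V ^ 2 - s)) := by
      nlinarith
    exact nonneg_of_mul_nonneg_right h5 hVV

/-- pair estimate for two projections with small inner products -/
theorem pair_small {P P' : H → H} (h : Proj P) (h' : Proj P') (ε : ℝ) (hε : 0 ≤ ε) (hε1 : ε ≤ 1)
    (v : H) (hs : ‖⟪P v, P' v⟫_ℂ‖ ≤ ε * (‖P v‖ * ‖P' v‖)) :
    0 ≤ 2 * (⟪co P v, co P' v⟫_ℂ).re + ε * (‖co P v‖ ^ 2 + ‖co P' v‖ ^ 2) := by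
  set x := P v with hx
  set y := P' v with hy
  have e1 : (⟪v, x⟫_ℂ).re = ‖x‖ ^ 2 := h.re_inner_self' v
  have e1' : (⟪x, v⟫_ℂ).re = ‖x‖ ^ 2 := h.re_inner_self v
  have e2 : (⟪v, y⟫_ℂ).re = ‖y‖ ^ 2 := h'.re_inner_self' v
  have ev : (⟪v, v⟫_ℂ).re = ‖v‖ ^ 2 := by
    rw [inner_self_eq_norm_sq_to_K]; norm_cast
  have c1 : (⟪co P v, co P' v⟫_ℂ).re = ‖v‖ ^ 2 - (‖x‖ ^ 2 + ‖y‖ ^ 2) + (⟪x, y⟫_ℂ).re := by
    simp only [co, inner_sub_left, inner_sub_right, Complex.sub_re]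
    rw [← hx, ← hy, ev, e2, e1']
    ring
  have c2 : ‖co P v‖ ^ 2 = ‖v‖ ^ 2 - ‖x‖ ^ 2 := by
    have := @norm_sub_sq ℂ H _ _ _ v x
    have e : RCLike.re (⟪v, x⟫_ℂ) = ‖x‖ ^ 2 := e1
    rw [e] at this
    show ‖v - x‖ ^ 2 = _
    rw [this]; ring
  have c3 : ‖co P' v‖ ^ 2 = ‖v‖ ^ 2 - ‖y‖ ^ 2 := by
    have := @norm_sub_sq ℂ H _ _ _ v y
    have e : RCLike.re (⟪v, y⟫_ℂ) = ‖y‖ ^ 2 := e2
    rw [e] at this
    show ‖v - y‖ ^ 2 = _
    rw [this]; ring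
  have c4 : ‖x + y‖ ^ 2 = (‖x‖ ^ 2 + ‖y‖ ^ 2) + 2 * (⟪x, y⟫_ℂ).re := by
    have := @norm_add_sq ℂ H _ _ _ x y
    rw [this]
    show _ + 2 * (⟪x, y⟫_ℂ).re + _ = _
    ring
  have c5 : (‖x‖ ^ 2 + ‖y‖ ^ 2) ≤ ‖v‖ * ‖x + y‖ := by
    have : (⟪v, x + y⟫_ℂ).re = ‖x‖ ^ 2 + ‖y‖ ^ 2 := by
      rw [inner_add_right, Complex.add_re, e1, e2]
    rw [← this]
    exact (Complex.re_le_norm _).trans (norm_inner_le_norm _ _)
  have c6 : (‖x‖ ^ 2 + ‖y‖ ^ 2) ^ 2 ≤ ‖v‖ ^ 2 * ((‖x‖ ^ 2 + ‖y‖ ^ 2) + 2 * (⟪x, y⟫_ℂ).re) := by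
    rw [← c4, ← mul_pow]
    exact pow_le_pow_left₀ (by positivity) c5 2
  have c7 : 2 * |(⟪x, y⟫_ℂ).re| ≤ ε * (‖x‖ ^ 2 + ‖y‖ ^ 2) := by
    have h1 : |(⟪x, y⟫_ℂ).re| ≤ ε * (‖x‖ * ‖y‖) := (Complex.abs_re_le_norm _).trans hs
    have h2 : 2 * (‖x‖ * ‖y‖) ≤ ‖x‖ ^ 2 + ‖y‖ ^ 2 := by nlinarith [sq_nonneg (‖x‖ - ‖y‖)]
    nlinarith
  have := real_pair ‖v‖ (‖x‖ ^ 2 + ‖y‖ ^ 2) (⟪x, y⟫_ℂ).re ε (norm_nonneg _) (by positivity) hε hε1 c7 c6
  rw [c1, c2, c3]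
  linarith

/-- pair estimate for commuting projections -/
theorem pair_comm {P P' : H → H} (h : Proj P) (h' : Proj P')
    (v : H) (hc : P (P' v) = P' (P v)) :
    0 ≤ (⟪co P v, co P' v⟫_ℂ).re := by
  have hQ := h.co
  have hQ' := h'.co
  have hcc : co P' (co P v) = co P (co P' v) := by
    simp only [co, h.sub, h'.sub, hc]; abel
  have : ⟪co P v, co P' v⟫_ℂ = ⟪co P (co P' v), co P' v⟫_ℂ := by
    rw [← hcc, hQ'.sym, hQ'.idem]
  rw [this, hQ.re_inner_self]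
  positivity

end Pool.Agent.Helper455.KZ
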