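import Pool.Agent.Helper455.KZ.Grig
import Pool.Agent.Helper455.KZ.Fam

set_option autoImplicit false

namespace Pool.Agent.Helper455.KZ

/-- binary digits -/
def bits : ℕ → ℕ → List Bool
  | 0, _ => []
  | k + 1, n => (decide (n % 2 = 1)) :: bits k (n / 2)

theorem bits_length (k n : ℕ) : (bits k n).length = k := by
  induction k generalizing n with
  | zero => rfl
  | succ k ih => simp [bits, ih]

theorem bits_inj (k n m : ℕ) (h : bits k n = bits k m) : n % 2 ^ k = m % 2 ^ k := by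
  induction k generalizing n m with
  | zero => simp [Nat.mod_one]
  | succ k ih =>
    simp only [bits, List.cons.injEq, decide_eq_decide] at h
    have h1 := ih _ _ h.2
    have h3 : n % 2 = m % 2 := by
      have := h.1
      omega
    have e : ∀ a : ℕ, a % 2 ^ (k + 1) = 2 * (a / 2 % 2 ^ k) + a % 2 := by
      intro a
      rw [pow_succ, mul_comm, Nat.mod_mul]; ring
    rw [e, e, h1, h3]

theorem bits_cover (k : ℕ) (u : List Bool) (h : k ≤ u.length) :
    ∃ n, n < 2 ^ k ∧ ∃ u', u = bits k n ++ u' := by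
  induction k generalizing u with
  | zero => exact ⟨0, by simp, u, rfl⟩
  | succ k ih =>
    cases u with
    | nil => simp at h
    | cons b u =>
      obtain ⟨n, hn, u', hu⟩ := ih u (by simpa using h)
      refine ⟨2 * n + (if b then 1 else 0), ?_, u', ?_⟩
      · rw [pow_succ]; split_ifs <;> omega
      · have e1 : (2 * n + (if b then 1 else 0)) / 2 = n := by split_ifs <;> omega
        have e2 : decide ((2 * n + (if b then 1 else 0)) % 2 = 1) = b := by
          cases b <;> simp <;> omega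
        simp only [bits, e1, e2, List.cons_append, ← hu]

/-- the index set of level `k + 1` -/
abbrev XX (k : ℕ) := Fin (2 ^ (k + 1)) × Bool

/-- words of the index set -/
def wdk (k : ℕ) (x : XX k) : List Bool := bits (k + 1) x.1 ++ [x.2]

theorem wdk_length (k : ℕ) (x : XX k) : (wdk k x).length = k + 2 := by
  simp [wdk, bits_length]

theorem wdk_inj (k : ℕ) : Function.Injective (wdk k) := by
  rintro ⟨⟨n, hn⟩, b⟩ ⟨⟨m, hm⟩, c⟩ h
  unfold wdk at h
  have h1 := List.append_inj h (by simp [bits_length])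
  have h3 := bits_inj _ _ _ h1.1
  simp only at h3
  rw [Nat.mod_eq_of_lt hn, Nat.mod_eq_of_lt hm] at h3
  subst h3
  have : b = c := by simpa using h1.2
  rw [this]

theorem wdk_inc (k : ℕ) (x y : XX k) (h : x ≠ y) : Leav.Inc (wdk k x) (wdk k y) :=
  inc_of_length (by rw [wdk_length, wdk_length]) (fun e => h (wdk_inj k e))

theorem wdk_cov (k : ℕ) (u : List Bool) (hu : k + 2 ≤ u.length) :
    ∃ x u', u = wdk k x ++ u' := by
  obtain ⟨n, hn, u', rfl⟩ := bits_cover (k + 1) u (by omega)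
  cases u' with
  | nil => simp [bits_length] at hu
  | cons b u' => exact ⟨(⟨n, hn⟩, b), u', by simp [wdk]⟩

theorem third (k : ℕ) (x y : XX k) : ∃ z, z ≠ x ∧ z ≠ y := by
  classical
  have h1 : 2 < Fintype.card (XX k) := by
    have : 2 ^ 1 ≤ 2 ^ (k + 1) := Nat.pow_le_pow_right (by norm_num) (by omega)
    simp only [Fintype.card_prod, Fintype.card_fin, Fintype.card_bool]
    omega
  have h3 : ({x, y} : Finset (XX k)).card < (Finset.univ : Finset (XX k)).card := by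
    rw [Finset.card_univ]
    exact lt_of_le_of_lt Finset.card_le_two h1
  obtain ⟨z, _, hz⟩ := Finset.exists_mem_notMem_of_card_lt_card h3
  simp only [Finset.mem_insert, Finset.mem_singleton, not_or] at hz
  exact ⟨z, hz.1, hz.2⟩

/-! truncation of the action -/

/-- residue -/
def mk (k : ℕ) (m : ℕ) : Fin (2 ^ (k + 1)) := ⟨m % 2 ^ (k + 1), Nat.mod_lt _ (by positivity)⟩

theorem mk_val (k m : ℕ) : (mk k m : ℕ) = m % 2 ^ (k + 1) := rfl

theorem mk_self (k : ℕ) (j : Fin (2 ^ (k + 1))) : mk k j = j := by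
  apply Fin.ext; rw [mk_val, Nat.mod_eq_of_lt j.2]

theorem mk_eq {k m m' : ℕ} : mk k m = mk k m' ↔ m % 2 ^ (k + 1) = m' % 2 ^ (k + 1) := by
  rw [Fin.ext_iff]; rfl

/-- the other end -/
def io (k : ℕ) (j : Fin (2 ^ (k + 1))) : Fin (2 ^ (k + 1)) := mk k (j + 2 ^ k)

theorem io_mk (k m : ℕ) : io k (mk k m) = mk k (m + 2 ^ k) := by
  unfold io
  rw [mk_eq, mk_val, Nat.add_mod, Nat.mod_mod, ← Nat.add_mod]

theorem io_io (k : ℕ) (j : Fin (2 ^ (k + 1))) : io k (io k j) = j := by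
  obtain ⟨m, hm⟩ : ∃ m, mk k m = j := ⟨j, mk_self k j⟩
  have e : m + 2 ^ k + 2 ^ k = m + 2 ^ (k + 1) := by rw [pow_succ]; ring
  rw [← hm, io_mk, io_mk, mk_eq, e, Nat.add_mod_right]

theorem aN_mod2 (n : ℕ) : aN n % 2 = (n + 1) % 2 := by
  unfold aN; split_ifs <;> omega

theorem klN_mod2 (x : K4) (n : ℕ) : klN x n % 2 = n % 2 := by
  rcases Nat.even_or_odd' n with ⟨m, rfl | rfl⟩
  · rw [klN_even]; omega
  · rw [klN_odd]; omega

theorem mod_pow_succ (k a : ℕ) : a % 2 ^ (k + 1) = 2 * (a / 2 % 2 ^ k) + a % 2 := by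
  rw [pow_succ, mul_comm, Nat.mod_mul]; ring

theorem mod_dbl (k a : ℕ) : (2 * a) % 2 ^ (k + 1) = 2 * (a % 2 ^ k) := by
  rw [mod_pow_succ]
  have h1 : 2 * a / 2 = a := by omega
  have h3 : 2 * a % 2 = 0 := by omega
  rw [h1, h3]; rfl

theorem mod_dbl1 (k a : ℕ) : (2 * a + 1) % 2 ^ (k + 1) = 2 * (a % 2 ^ k) + 1 := by
  rw [mod_pow_succ]
  have h1 : (2 * a + 1) / 2 = a := by omega
  have h3 : (2 * a + 1) % 2 = 1 := by omega
  rw [h1, h3]

theorem aN_cong (k m m' : ℕ) (h : m % 2 ^ k = m' % 2 ^ k) : aN m % 2 ^ k = aN m' % 2 ^ k := by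
  cases k with
  | zero => simp [Nat.mod_one]
  | succ k =>
    rcases Nat.even_or_odd' m with ⟨a, rfl | rfl⟩ <;> rcases Nat.even_or_odd' m' with ⟨b, rfl | rfl⟩
    · rw [mod_dbl, mod_dbl] at h
      rw [aN_even, aN_even, mod_dbl1, mod_dbl1]; omega
    · rw [mod_dbl, mod_dbl1] at h; omega
    · rw [mod_dbl, mod_dbl1] at h; omega
    · rw [mod_dbl1, mod_dbl1] at h
      rw [aN_odd, aN_odd, mod_dbl, mod_dbl]; omega

theorem klN_cong (k : ℕ) (x : K4) (m m' : ℕ) (h : m % 2 ^ k = m' % 2 ^ k) :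
    klN x m % 2 ^ k = klN x m' % 2 ^ k := by
  induction k generalizing x m m' with
  | zero => simp [Nat.mod_one]
  | succ k ih =>
    rcases Nat.even_or_odd' m with ⟨a, rfl | rfl⟩ <;> rcases Nat.even_or_odd' m' with ⟨b, rfl | rfl⟩
    · rw [mod_dbl, mod_dbl] at h
      rw [klN_even, klN_even, mod_dbl, mod_dbl, ih _ a b (by omega)]
    · rw [mod_dbl, mod_dbl1] at h; omega
    · rw [mod_dbl, mod_dbl1] at h; omega
    · rw [mod_dbl1, mod_dbl1] at h
      have h1 : a % 2 ^ k = b % 2 ^ k := by omega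
      rw [klN_odd, klN_odd, mod_dbl1, mod_dbl1]
      split_ifs
      · rw [aN_cong k a b h1]
      · rw [h1]

theorem aN_shift (k m : ℕ) : aN (m + 2 ^ k) % 2 ^ (k + 1) = (aN m + 2 ^ k) % 2 ^ (k + 1) := by
  cases k with
  | zero =>
    simp only [pow_zero, zero_add, pow_one]
    rw [aN_mod2]
    have := aN_mod2 m
    omega
  | succ k =>
    have e : 2 ^ (k + 1) = 2 * 2 ^ k := by rw [pow_succ]; ring
    rcases Nat.even_or_odd' m with ⟨a, rfl | rfl⟩
    · rw [show 2 * a + 2 ^ (k + 1) = 2 * (a + 2 ^ k) by rw [e]; ring, aN_even, aN_even, e]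
      congr 1; ring
    · rw [show 2 * a + 1 + 2 ^ (k + 1) = 2 * (a + 2 ^ k) + 1 by rw [e]; ring, aN_odd, aN_odd, e]
      congr 1; ring

theorem klN_shift (k : ℕ) (x : K4) (m : ℕ) :
    klN x (m + 2 ^ k) % 2 ^ (k + 1) = (klN x m + 2 ^ k) % 2 ^ (k + 1) := by
  induction k generalizing x m with
  | zero =>
    simp only [pow_zero, zero_add, pow_one]
    rw [klN_mod2]
    have := klN_mod2 x m
    omega
  | succ k ih =>
    have e : 2 ^ (k + 1) = 2 * 2 ^ k := by rw [pow_succ]; ring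
    rcases Nat.even_or_odd' m with ⟨a, rfl | rfl⟩
    · rw [show 2 * a + 2 ^ (k + 1) = 2 * (a + 2 ^ k) by rw [e]; ring, klN_even, klN_even,
        mod_dbl, ih]
      rw [show 2 * klN (K4.th x) a + 2 ^ (k + 1) = 2 * (klN (K4.th x) a + 2 ^ k) by rw [e]; ring,
        mod_dbl]
    · rw [show 2 * a + 1 + 2 ^ (k + 1) = 2 * (a + 2 ^ k) + 1 by rw [e]; ring, klN_odd, klN_odd,
        mod_dbl1]
      split_ifs
      · rw [aN_shift]
        rw [show 2 * aN a + 1 + 2 ^ (k + 1) = 2 * (aN a + 2 ^ k) + 1 by rw [e]; ring, mod_dbl1]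
      · rw [show 2 * a + 1 + 2 ^ (k + 1) = 2 * (a + 2 ^ k) + 1 by rw [e]; ring, mod_dbl1]

/-- `γ` is the truncation of `g` -/
structure TRel (k : ℕ) (g : Equiv.Perm ℕ) (γ : Equiv.Perm (Fin (2 ^ (k + 1)))) : Prop where
  cmk : ∀ m, γ (mk k m) = mk k (g m)
  cio : ∀ j, γ (io k j) = io k (γ j)

theorem TRel.one (k : ℕ) : TRel k 1 1 := ⟨fun _ => rfl, fun _ => rfl⟩

theorem TRel.mul {k : ℕ} {g h : Equiv.Perm ℕ} {γ η : Equiv.Perm (Fin (2 ^ (k + 1)))}
    (hg : TRel k g γ) (hh : TRel k h η) : TRel k (g * h) (γ * η) where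
  cmk m := by rw [Equiv.Perm.mul_apply, hh.cmk, hg.cmk]; rfl
  cio j := by rw [Equiv.Perm.mul_apply, hh.cio, hg.cio]; rfl

theorem TRel.unique {k : ℕ} {g : Equiv.Perm ℕ} {γ η : Equiv.Perm (Fin (2 ^ (k + 1)))}
    (hg : TRel k g γ) (hh : TRel k g η) : γ = η := by
  apply Equiv.ext
  intro j
  rw [← mk_self k j, hg.cmk, hh.cmk]

/-- truncation of an involution -/
def trunc (k : ℕ) (f : ℕ → ℕ) (hf : ∀ n, f (f n) = n)
    (hc : ∀ m m', m % 2 ^ (k + 1) = m' % 2 ^ (k + 1) → f m % 2 ^ (k + 1) = f m' % 2 ^ (k + 1)) :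
    Equiv.Perm (Fin (2 ^ (k + 1))) where
  toFun j := mk k (f j)
  invFun j := mk k (f j)
  left_inv j := by
    have h1 : f (mk k (f j)) % 2 ^ (k + 1) = f (f j) % 2 ^ (k + 1) :=
      hc _ _ (by rw [mk_val, Nat.mod_mod])
    show mk k (f (mk k (f j))) = j
    conv_rhs => rw [← mk_self k j]
    rw [mk_eq, h1, hf]
  right_inv j := by
    have h1 : f (mk k (f j)) % 2 ^ (k + 1) = f (f j) % 2 ^ (k + 1) :=
      hc _ _ (by rw [mk_val, Nat.mod_mod])
    show mk k (f (mk k (f j))) = j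
    conv_rhs => rw [← mk_self k j]
    rw [mk_eq, h1, hf]

theorem trunc_mk (k : ℕ) (f : ℕ → ℕ) (hf : ∀ n, f (f n) = n)
    (hc : ∀ m m', m % 2 ^ (k + 1) = m' % 2 ^ (k + 1) → f m % 2 ^ (k + 1) = f m' % 2 ^ (k + 1))
    (m : ℕ) : trunc k f hf hc (mk k m) = mk k (f m) := by
  show mk k (f (mk k m)) = _
  rw [mk_eq]
  exact hc _ _ (by rw [mk_val, Nat.mod_mod])

/-- truncated a -/
def aK (k : ℕ) : Equiv.Perm (Fin (2 ^ (k + 1))) := trunc k aN aN_aN (aN_cong (k + 1))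

/-- truncated b, c, d -/
def xK (k : ℕ) (x : K4) : Equiv.Perm (Fin (2 ^ (k + 1))) :=
  trunc k (klN x) (fun n => by rw [← klN_mul, K4.mul_self, klN_e]) (klN_cong (k + 1) x)

theorem aK_rel (k : ℕ) : TRel k aP (aK k) where
  cmk m := trunc_mk _ _ _ _ _
  cio j := by
    rw [← mk_self k j, io_mk]
    show trunc k aN _ _ _ = io k (trunc k aN _ _ _)
    rw [trunc_mk, trunc_mk, io_mk, mk_eq, aN_shift]

theorem xK_rel (k : ℕ) (x : K4) : TRel k (kP x) (xK k x) where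
  cmk m := trunc_mk _ _ _ _ _
  cio j := by
    rw [← mk_self k j, io_mk]
    show trunc k (klN x) _ _ _ = io k (trunc k (klN x) _ _ _)
    rw [trunc_mk, trunc_mk, io_mk, mk_eq, klN_shift]

theorem aK_sq (k : ℕ) : aK k * aK k = 1 := by
  refine TRel.unique (g := 1) ?_ (TRel.one k)
  rw [← aP_aP]; exact (aK_rel k).mul (aK_rel k)

theorem xK_sq (k : ℕ) (x : K4) : xK k x * xK k x = 1 := by
  refine TRel.unique (g := 1) ?_ (TRel.one k)
  have : kP x * kP x = 1 := by rw [kP_mul, K4.mul_self, kP_e]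
  rw [← this]; exact (xK_rel k x).mul (xK_rel k x)

/-- diagonal action -/
def dg (k : ℕ) (γ : Equiv.Perm (Fin (2 ^ (k + 1)))) : Equiv.Perm (XX k) :=
  Equiv.prodCongr γ (Equiv.refl Bool)

@[simp] theorem dg_apply (k : ℕ) (γ : Equiv.Perm (Fin (2 ^ (k + 1)))) (x : XX k) :
    dg k γ x = (γ x.1, x.2) := rfl

theorem dg_mul (k : ℕ) (γ η : Equiv.Perm (Fin (2 ^ (k + 1)))) :
    dg k (γ * η) = dg k γ * dg k η := by
  ext x <;> rfl

theorem dg_one (k : ℕ) : dg k 1 = 1 := by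
  ext x <;> rfl

end Pool.Agent.Helper455.KZ
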