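import Pool.Agent.Helper455.KZ.Count
import Pool.Agent.Helper455.KZ.Est

set_option autoImplicit false

open scoped Pointwise

namespace Pool.Agent.Helper455.KZ

/-! the model -/

section model

variable (K : Type) [Field K]

/-- digit -/
def dig (b : Bool) : ℕ := if b then 1 else 0

/-- the concrete Leavitt family on functions on the naturals -/
def model : Leav (Module.End K (ℕ → K)) where
  s b :=
    { toFun := fun f m => if m % 2 = dig b then f (m / 2) else 0
      map_add' := by intro f g; funext m; simp only [Pi.add_apply]; split_ifs <;> simp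
      map_smul' := by intro c f; funext m; simp only [Pi.smul_apply, RingHom.id_apply]; split_ifs <;> simp }
  t b :=
    { toFun := fun f m => f (2 * m + dig b)
      map_add' := by intro f g; rfl
      map_smul' := by intro c f; rfl }
  ts i j := by
    ext1 f
    funext m
    cases i <;> cases j
    · show (if (2 * m + 0) % 2 = 0 then f ((2 * m + 0) / 2) else 0) = f m
      rw [if_pos (by omega)]; congr 1; omega
    · show (if (2 * m + 0) % 2 = 1 then f ((2 * m + 0) / 2) else 0) = 0
      rw [if_neg (by omega)]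
    · show (if (2 * m + 1) % 2 = 0 then f ((2 * m + 1) / 2) else 0) = 0
      rw [if_neg (by omega)]
    · show (if (2 * m + 1) % 2 = 1 then f ((2 * m + 1) / 2) else 0) = f m
      rw [if_pos (by omega)]; congr 1; omega
  st := by
    ext1 f
    funext m
    show (if m % 2 = 0 then f (2 * (m / 2) + 0) else 0) +
      (if m % 2 = 1 then f (2 * (m / 2) + 1) else 0) = f m
    rcases Nat.mod_two_eq_zero_or_one m with h | h
    · rw [if_pos h, if_neg (by omega), add_zero]; congr 1; omega
    · rw [if_neg (by omega), if_pos h, zero_add]; congr 1; omega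

theorem model_char (h : ∀ x : K, x + x = 0) (x : Module.End K (ℕ → K)) : x + x = 0 := by
  ext1 f
  funext m
  exact h _

end model

section main

variable {K : Type*} [Field K] {R : Type*} [Ring R] [Algebra K R] (C : Leav R)

theorem GG_infinite (h2 : ∀ x : R, x + x = 0) (h1 : (1 : R) ≠ 0) : Infinite (GG K C) := by
  let u : ℕ → List Bool := fun n => false :: (List.replicate n true ++ [false])
  have hv : ∀ n, Leav.Inc (u n) [true] := fun n => ⟨[], false, _, [], rfl, rfl⟩
  have hu : ∀ n m, n < m → Leav.Inc (u n) (u m) := by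
    intro n m h
    refine ⟨false :: List.replicate n true, false, [], List.replicate (m - n - 1) true ++ [false],
      rfl, ?_⟩
    obtain ⟨d, rfl⟩ : ∃ d, m = n + 1 + d := ⟨m - n - 1, by omega⟩
    have : n + 1 + d - n - 1 = d := by omega
    rw [this]
    show false :: (List.replicate (n + 1 + d) true ++ [false]) = _
    rw [List.replicate_add, List.replicate_succ']
    simp
  have hm : ∀ n, Mem (GG K C) (C.S (u n) * C.T [true]) := by
    intro n
    have := mem_GG (K := K) C h2 (hv n) 1
    rwa [one_smul] at this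
  refine Infinite.of_injective (fun n : ℕ => (⟨(hm n).choose, (hm n).choose_spec.1⟩ : GG K C)) ?_
  intro n m hnm
  by_contra hne
  have e1 : (hm n).choose = (hm m).choose := congrArg Subtype.val hnm
  have e2 : C.S (u n) * C.T [true] = C.S (u m) * C.T [true] := by
    have h3 := (hm n).choose_spec.2
    have h4 := (hm m).choose_spec.2
    rw [e1, h4] at h3
    exact (add_left_cancel h3).symm
  have e3 : C.S (u n) = C.S (u m) := by
    have := congrArg (fun z => z * C.S [true]) e2
    simp only [mul_assoc, C.TS_self, mul_one] at this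
    exact this
  have hinc : Leav.Inc (u n) (u m) := by
    rcases Nat.lt_or_gt_of_ne hne with h | h
    · exact hu n m h
    · exact Inc.symm (hu m n h)
  have e4 := C.TS_inc hinc
  rw [← e3, C.TS_self] at e4
  exact h1 e4

/-- bound for the sites -/
theorem exists_level (W : ℕ) : ∃ k : ℕ, ∀ r g O, P r g O → r ≤ W → ∀ n ∈ O, n < 2 ^ k := by
  refine ⟨(RF W).sup (fun p => p.1.sup id), fun r g O hP hr n hn => ?_⟩
  have h1 : (O, g) ∈ RF W := mem_RF.mpr ⟨r, hr, O, Finset.Subset.refl _, hP⟩
  have h3 : n ≤ O.sup id := Finset.le_sup (f := id) hn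
  have h4 : O.sup id ≤ (RF W).sup (fun p => p.1.sup id) :=
    Finset.le_sup (f := fun p : Finset ℕ × Equiv.Perm ℕ => p.1.sup id) h1
  exact lt_of_le_of_lt (h3.trans h4) Nat.lt_two_pow_self

/-- lifts of the generating sets -/
theorem exists_gens [Finite K] (h2 : ∀ x : R, x + x = 0) (k : ℕ) :
    ∃ S : Finset (GG K C), Subgroup.closure (S : Set (GG K C)) = ⊤ ∧
      ∀ g : GG K C, g ∈ S ↔ (g : Rˣ) ∈ Gens K C k := by
  have hfin : {g : GG K C | (g : Rˣ) ∈ Gens K C k}.Finite :=
    (Gens_finite C k).preimage Subtype.val_injective.injOn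
  refine ⟨hfin.toFinset, ?_, fun g => by simp⟩
  rw [hfin.coe_toFinset]
  set L := Subgroup.closure {g : GG K C | (g : Rˣ) ∈ Gens K C k} with hL
  have h1 : Gens K C k ⊆ (L.map (GG K C).subtype : Set Rˣ) := by
    intro g hg
    have hgG : g ∈ GG K C := Gens_sub C h2 k hg
    exact ⟨⟨g, hgG⟩, Subgroup.subset_closure hg, rfl⟩
  have h3 := GG_le_Gens h1 h2
  rw [eq_top_iff]
  intro g _
  obtain ⟨g', hg', e⟩ := h3 g.2
  have : g' = g := Subtype.ext e
  rw [← this]; exact hg'

theorem pow_coe {A : Set (GG K C)} {B : Set Rˣ} (h : ∀ a ∈ A, (a : Rˣ) ∈ B) (n : ℕ) :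
    ∀ a ∈ A ^ n, (a : Rˣ) ∈ B ^ n := by
  induction n with
  | zero =>
    intro a ha
    rw [pow_zero, Set.mem_one] at ha ⊢
    rw [ha]; rfl
  | succ n ih =>
    intro a ha
    rw [pow_succ, Set.mem_mul] at ha ⊢
    obtain ⟨x, hx, y, hy, rfl⟩ := ha
    exact ⟨x, ih x hx, y, h y hy, rfl⟩

/-- no uniform exponential growth -/
theorem not_ueg [Fintype K] (hK : Fintype.card K = 256) (h2 : ∀ x : R, x + x = 0)
    (c : ℝ) (hc : 1 < c) :
    ∃ S : Finset (GG K C), Subgroup.closure (S : Set (GG K C)) = ⊤ ∧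
      ∃ n : ℕ, ((((S : Set (GG K C)) ∪ (S : Set (GG K C))⁻¹ ∪ {1}) ^ n).ncard : ℝ) < c ^ n := by
  obtain ⟨n, M, hM, hlt⟩ := estimate c hc ((Fintype.card K) ^ 5) (by rw [hK]; norm_num)
  obtain ⟨k, hk⟩ := exists_level (6 * n)
  obtain ⟨S, hS, hmem⟩ := exists_gens (K := K) C h2 k
  obtain ⟨V, hV, hVm⟩ := ball_card (K := K) C h2 k n M hk hM
  refine ⟨S, hS, n, lt_of_le_of_lt ?_ hlt⟩
  have h1 : ∀ a ∈ ((S : Set (GG K C)) ∪ (S : Set (GG K C))⁻¹ ∪ {1}),
      (a : Rˣ) ∈ Gens K C k ∪ (Gens K C k)⁻¹ ∪ {1} := by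
    rintro a ((ha | ha) | ha)
    · left; left; exact (hmem a).mp ha
    · left; right
      have : a⁻¹ ∈ S := ha
      exact (hmem _).mp this
    · right
      have : a = 1 := ha
      rw [this]; rfl
  have h3 := pow_coe C h1 n
  have h4 : (((S : Set (GG K C)) ∪ (S : Set (GG K C))⁻¹ ∪ {1}) ^ n).ncard ≤
      (V : Set R).ncard := by
    refine Set.ncard_le_ncard_of_injOn (fun a : GG K C => ((a : Rˣ) : R)) ?_ ?_ V.finite_toSet
    · intro a ha
      exact hVm _ (h3 a ha)
    · intro a _ b _ h
      exact Subtype.ext (Units.ext h)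
  rw [Set.ncard_coe_finset] at h4
  exact_mod_cast h4.trans hV

end main

end Pool.Agent.Helper455.KZ
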